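import Pool.Agent.W2helper75.EC.Sep
import Pool.Agent.W801.DPdet
import Pool.Agent.W571.DParms
import Pool.Agent.W52.DPOne

/-!
Two edges with separated four arms and corridors which join these arms: the two edges are
jointly pivotal.
-/

set_option autoImplicit false
set_option maxHeartbeats 1000000

namespace Pool.Agent.W2helper75.EC

open H974 H12S Finset
open Pool.Agent.W92.DP

/-- `g` is pivotal for the connection of the ends of `e` off `e`. -/
def JP (e g : Edg) (F : Set Edg) : Prop :=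
  Reach (insert g F \ {e}) (src e) (tgt e) ∧ ¬ Reach (F \ {e, g}) (src e) (tgt e)

theorem mem_big (g : Edg) : ∃ n : ℕ, g ∈ boxE n := by
  obtain ⟨x, y, b⟩ := g
  refine ⟨x.natAbs + y.natAbs + 1, ?_⟩
  unfold boxE
  cases b
  · rw [mem_RE_false]; omega
  · rw [mem_RE_true]; omega

theorem reach_fin {H : Set Edg} {u v : Vtx} (h : Reach H u v) :
    ∃ n : ℕ, Reach (H ∩ ↑(boxE n)) u v := by
  induction h with
  | refl => exact ⟨0, Reach.refl _ _⟩
  | tail _ hs ih =>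
    obtain ⟨n, hn⟩ := ih
    obtain ⟨g, hg, hc⟩ := hs
    obtain ⟨m, hm⟩ := mem_big g
    refine ⟨max n m, (hn.mono ?_).trans (Adj.reach ⟨g, ⟨hg, ?_⟩, hc⟩)⟩
    · exact Set.inter_subset_inter_right _ (by exact_mod_cast boxE_mono (le_max_left n m))
    · exact Finset.mem_coe.2 (boxE_mono (le_max_right n m) hm)

theorem dreach_fin {H : Set Edg} {u v : Vtx} (h : DReach H u v) :
    ∃ n : ℕ, DReach (H ∩ ↑(boxE n)) u v := by
  induction h with
  | refl => exact ⟨0, DReach.refl _ _⟩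
  | tail _ hs ih =>
    obtain ⟨n, hn⟩ := ih
    obtain ⟨g, hg, hc⟩ := hs
    obtain ⟨m, hm⟩ := mem_big g
    refine ⟨max n m, (DReach.mono ?_ hn).trans (DAdj.reach ⟨g, ⟨hg, ?_⟩, hc⟩)⟩
    · exact Set.inter_subset_inter_right _ (by exact_mod_cast boxE_mono (le_max_left n m))
    · exact Finset.mem_coe.2 (boxE_mono (le_max_right n m) hm)

theorem no_loop' {H G : Set Edg} (hd : ∀ g ∈ G, g ∉ H) {e : Edg} (heH : e ∉ H) (heG : e ∉ G)
    (h1 : Reach H (src e) (tgt e)) (h2 : DReach G (dsrc e) (dtgt e)) : False := by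
  obtain ⟨n1, k1⟩ := reach_fin h1
  obtain ⟨n2, k2⟩ := dreach_fin h2
  obtain ⟨n3, k3⟩ := mem_big e
  obtain ⟨n, hn⟩ : ∃ n : ℕ, n = max (max n1 n2) n3 := ⟨_, rfl⟩
  have s1 : boxE n1 ⊆ boxE n := boxE_mono (by omega)
  have s2 : boxE n2 ⊆ boxE n := boxE_mono (by omega)
  have s3 : boxE n3 ⊆ boxE n := boxE_mono (by omega)
  refine no_loop (a := -(n:ℤ)) (b := n) (c := -(n:ℤ)) (d := n) (F := H ∩ ↑(boxE n))
    (G := G ∩ ↑(boxE n)) Set.inter_subset_right Set.inter_subset_right ?_ (s3 k3)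
    (fun h => heH h.1) (fun h => heG h.1) (k1.mono ?_) (DReach.mono ?_ k2)
  · rintro g ⟨hg, _⟩ ⟨h, _⟩
    exact hd g hg h
  · exact Set.inter_subset_inter_right _ (by exact_mod_cast s1)
  · exact Set.inter_subset_inter_right _ (by exact_mod_cast s2)

/-- The arms of the plus event at `v`. -/
theorem arms_at {L m : ℕ} (h2 : 2 ≤ L) (h64 : 64 ≤ m) {v : Vtx} {β : Bool} {H : Set Edg}
    (hP : Plus (4 * L * m) m (16 * L * m) (e0 β) (shc v H)) {U : ℤ} (hU : U = (L * m : ℕ)) :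
    (∃ a a' : Vtx, ((a = src (v.1, v.2, β) ∧ a' = tgt (v.1, v.2, β)) ∨
        (a = tgt (v.1, v.2, β) ∧ a' = src (v.1, v.2, β))) ∧
      (∃ w : Vtx, w.2 = v.2 - 16 * U ∧
        Reach ((H ∩ ↑(RE (v.1 - 4 * U) (v.1 + 4 * U) (v.2 - 16 * U) (v.2 + 16 * U))) \
          {((v.1, v.2, β) : Edg)}) a w) ∧
      (∃ w : Vtx, w.2 = v.2 + 16 * U ∧
        Reach ((H ∩ ↑(RE (v.1 - 4 * U) (v.1 + 4 * U) (v.2 - 16 * U) (v.2 + 16 * U))) \
          {((v.1, v.2, β) : Edg)}) a' w)) ∧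
    (∃ f f' : Vtx, ((f = dsrc (v.1, v.2, β) ∧ f' = dtgt (v.1, v.2, β)) ∨
        (f = dtgt (v.1, v.2, β) ∧ f' = dsrc (v.1, v.2, β))) ∧
      (∃ g : Vtx, g.1 = v.1 - 16 * U - 1 ∧
        DReach ((↑(RE (v.1 - 16 * U) (v.1 + 16 * U) (v.2 - 4 * U) (v.2 + 4 * U)) \ H) \
          {((v.1, v.2, β) : Edg)}) f g) ∧
      (∃ g : Vtx, g.1 = v.1 + 16 * U ∧
        DReach ((↑(RE (v.1 - 16 * U) (v.1 + 16 * U) (v.2 - 4 * U) (v.2 + 4 * U)) \ H) \
          {((v.1, v.2, β) : Edg)}) f' g)) := by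
  obtain ⟨⟨a, a', hor, ⟨w, hw, hr⟩, ⟨w', hw', hr'⟩⟩, ⟨f, f', hfor, ⟨g, hg, hd⟩, ⟨g', hg', hd'⟩⟩, -⟩ :=
    Pool.Agent.W571.DParms.arms L m h2 h64 β _ hP
  have hU2 : (m : ℤ) ≤ U := by
    rw [hU]; push_cast; nlinarith [show (2:ℤ) ≤ L by exact_mod_cast h2, show (0:ℤ) ≤ m by positivity]
  have hm0 : (0:ℤ) ≤ m := by positivity
  have e4 : ((4 * L * m : ℕ) : ℤ) = 4 * U := by rw [hU]; push_cast; ring
  have e16 : ((16 * L * m : ℕ) : ℤ) = 16 * U := by rw [hU]; push_cast; ring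
  have hne : ∀ {x y : ℤ} {b : Bool}, ((x, y, b) : Edg) ∉ ({e0 β} : Set Edg) →
      Pool.Agent.W801.DPdet.sh v (x, y, b) ∉ ({((v.1, v.2, β) : Edg)} : Set Edg) := by
    intro x y b h5 h6
    apply h5
    simp only [Pool.Agent.W801.DPdet.sh, Set.mem_singleton_iff, Prod.mk.injEq] at h6
    simp only [e0, Set.mem_singleton_iff, Prod.mk.injEq]
    exact ⟨by omega, by omega, h6.2.2⟩
  have hsub : ∀ e ∈ ((shc v H) ∩ ↑(XV (4 * L * m) m (16 * L * m))) \ {e0 β},
      Pool.Agent.W801.DPdet.sh v e ∈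
      (H ∩ ↑(RE (v.1 - 4 * U) (v.1 + 4 * U) (v.2 - 16 * U) (v.2 + 16 * U))) \
          {((v.1, v.2, β) : Edg)} := by
    rintro ⟨x, y, b⟩ ⟨⟨h3, h4⟩, h5⟩
    refine ⟨⟨h3, ?_⟩, hne h5⟩
    unfold XV boxE at h4
    rw [Finset.mem_coe, Finset.mem_union] at h4
    rw [Finset.mem_coe]
    cases b
    · rw [mem_RE_false, mem_RE_false, e4, e16] at h4
      simp only [Pool.Agent.W801.DPdet.sh]
      rw [mem_RE_false]
      omega
    · rw [mem_RE_true, mem_RE_true, e4, e16] at h4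
      simp only [Pool.Agent.W801.DPdet.sh]
      rw [mem_RE_true]
      omega
  have hsubd : ∀ e ∈ ((↑(XH (4 * L * m) m (16 * L * m)) : Set Edg) \ shc v H) \ {e0 β},
      Pool.Agent.W801.DPdet.sh v e ∈
      ((↑(RE (v.1 - 16 * U) (v.1 + 16 * U) (v.2 - 4 * U) (v.2 + 4 * U)) : Set Edg) \ H) \
          {((v.1, v.2, β) : Edg)} := by
    rintro ⟨x, y, b⟩ ⟨⟨h3, h4⟩, h5⟩
    refine ⟨⟨?_, h4⟩, hne h5⟩
    unfold XH boxE at h3
    rw [Finset.mem_coe, Finset.mem_union] at h3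
    rw [Finset.mem_coe]
    cases b
    · rw [mem_RE_false, mem_RE_false, e4, e16] at h3
      simp only [Pool.Agent.W801.DPdet.sh]
      rw [mem_RE_false]
      omega
    · rw [mem_RE_true, mem_RE_true, e4, e16] at h3
      simp only [Pool.Agent.W801.DPdet.sh]
      rw [mem_RE_true]
      omega
  rw [e16] at hw hw' hg hg'
  have ee : Pool.Agent.W801.DPdet.sh v (e0 β) = ((v.1, v.2, β) : Edg) := by
    simp [Pool.Agent.W801.DPdet.sh, e0]
  have es := Pool.Agent.W801.DPdet.src_sh v (e0 β)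
  have et := Pool.Agent.W801.DPdet.tgt_sh v (e0 β)
  have ds := Pool.Agent.W801.DPdet.dsrc_sh v (e0 β)
  have dt := Pool.Agent.W801.DPdet.dtgt_sh v (e0 β)
  rw [ee] at es et ds dt
  refine ⟨⟨(a.1 + v.1, a.2 + v.2), (a'.1 + v.1, a'.2 + v.2), ?_,
    ⟨_, ?_, Pool.Agent.W801.DPdet.reach_sh hsub hr⟩,
    ⟨_, ?_, Pool.Agent.W801.DPdet.reach_sh hsub hr'⟩⟩,
    ⟨(f.1 + v.1, f.2 + v.2), (f'.1 + v.1, f'.2 + v.2), ?_,
    ⟨_, ?_, Pool.Agent.W801.DPdet.dreach_sh hsubd hd⟩,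
    ⟨_, ?_, Pool.Agent.W801.DPdet.dreach_sh hsubd hd'⟩⟩⟩
  · rw [es, et]
    rcases hor with ⟨rfl, rfl⟩ | ⟨rfl, rfl⟩
    · left; exact ⟨rfl, rfl⟩
    · right; exact ⟨rfl, rfl⟩
  · simp only; omega
  · simp only; omega
  · rw [ds, dt]
    rcases hfor with ⟨rfl, rfl⟩ | ⟨rfl, rfl⟩
    · left; exact ⟨rfl, rfl⟩
    · right; exact ⟨rfl, rfl⟩
  · simp only; omega
  · simp only; omega

/-- The parameters of the geometry. -/
structure Pm (U v1 v2 yl yh : ℤ) : Prop where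
  U2 : 2 ≤ U
  v : 128 * U ≤ v1
  l1 : yl ≤ 0
  l2 : yl ≤ v2
  l3 : -v1 ≤ yl
  h1 : 0 ≤ yh
  h2 : v2 ≤ yh
  h3 : yh ≤ v1

/-- Open corridor below. -/
def OB (U v1 v2 yl : ℤ) (F : Finset Edg) : Prop :=
  LRc (-(8 * U)) (8 * U) (-(14 * U)) (-(10 * U)) F ∧
  TBc (-(8 * U)) (8 * U) (yl - 32 * U) (-(8 * U)) F ∧
  LRc (-(8 * U)) (v1 + 8 * U) (yl - 32 * U) (yl - 24 * U) F ∧
  TBc (v1 - 8 * U) (v1 + 8 * U) (yl - 32 * U) (v2 - 8 * U) F ∧
  LRc (v1 - 8 * U) (v1 + 8 * U) (v2 - 14 * U) (v2 - 10 * U) F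

/-- Open corridor above. -/
def OT (U v1 v2 yh : ℤ) (F : Finset Edg) : Prop :=
  LRc (-(8 * U)) (8 * U) (10 * U) (14 * U) F ∧
  TBc (-(8 * U)) (8 * U) (8 * U) (yh + 32 * U) F ∧
  LRc (-(8 * U)) (v1 + 8 * U) (yh + 24 * U) (yh + 32 * U) F ∧
  TBc (v1 - 8 * U) (v1 + 8 * U) (v2 + 8 * U) (yh + 32 * U) F ∧
  LRc (v1 - 8 * U) (v1 + 8 * U) (v2 + 10 * U) (v2 + 14 * U) F

/-- Dual corridor in the middle. -/
def DM (U v1 v2 yl yh : ℤ) (F : Finset Edg) : Prop :=
  DTB (10 * U) (14 * U) (-(4 * U)) (4 * U) F ∧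
  DLR (9 * U) (48 * U) (-(4 * U)) (4 * U) F ∧
  DTB (40 * U) (48 * U) (yl - 4 * U) (yh + 4 * U) F ∧
  DLR (40 * U) (v1 - 9 * U) (v2 - 4 * U) (v2 + 4 * U) F ∧
  DTB (v1 - 14 * U) (v1 - 10 * U) (v2 - 4 * U) (v2 + 4 * U) F

/-- Outer dual corridor. -/
def DO (U v1 v2 yh : ℤ) (F : Finset Edg) : Prop :=
  DTB (-(14 * U)) (-(10 * U)) (-(4 * U)) (yh + 48 * U) F ∧
  DLR (-(15 * U)) (v1 + 15 * U) (yh + 40 * U) (yh + 48 * U) F ∧
  DTB (v1 + 10 * U) (v1 + 14 * U) (v2 - 4 * U) (yh + 48 * U) F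

theorem lr_sub {a b c d : ℤ} {F : Finset Edg} {H : Set Edg} (hF : (↑F : Set Edg) ⊆ H) {e g : Edg}
    (he : e ∉ RE a b c d) : (↑F : Set Edg) ∩ ↑(LRE a b c d) ⊆ (insert g H \ {e}) ∩ ↑(RE a b c d) := by
  rintro h ⟨h1, h2⟩
  have h3 := LRE_subset_RE (Finset.mem_coe.mp h2)
  exact ⟨⟨Or.inr (hF h1), fun h4 => he (h4 ▸ h3)⟩, Finset.mem_coe.2 h3⟩

theorem tb_sub {a b c d : ℤ} {F : Finset Edg} {H : Set Edg} (hF : (↑F : Set Edg) ⊆ H) {e g : Edg}
    (he : e ∉ RE a b c d) : (↑F : Set Edg) ∩ ↑(TBE a b c d) ⊆ (insert g H \ {e}) ∩ ↑(RE a b c d) := by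
  rintro h ⟨h1, h2⟩
  have h3 := TBE_subset_RE (Finset.mem_coe.mp h2)
  exact ⟨⟨Or.inr (hF h1), fun h4 => he (h4 ▸ h3)⟩, Finset.mem_coe.2 h3⟩

theorem ne_RE {x y a b c d : ℤ} {β : Bool} (h : x < a ∨ b < x ∨ y < c ∨ d < y) :
    ((x, y, β) : Edg) ∉ RE a b c d := by
  cases β
  · rw [mem_RE_false]; omega
  · rw [mem_RE_true]; omega

theorem arm_sub {H : Set Edg} {a b c d : ℤ} {e g : Edg} :
    (H ∩ ↑(RE a b c d)) \ {e} ⊆ (insert g H \ {e}) ∩ ↑(RE a b c d) := by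
  rintro h ⟨⟨h1, h2⟩, h3⟩
  exact ⟨⟨Or.inr h1, h3⟩, h2⟩

theorem arm_sub' {H : Set Edg} {a b c d : ℤ} {e g : Edg} (he : e ∉ RE a b c d) :
    (H ∩ ↑(RE a b c d)) \ {g} ⊆ (insert g H \ {e}) ∩ ↑(RE a b c d) := by
  rintro h ⟨⟨h1, h2⟩, _⟩
  exact ⟨⟨Or.inr h1, fun h4 => he (h4 ▸ Finset.mem_coe.mp h2)⟩, h2⟩

/-- The open part. -/
theorem open_part {U v1 v2 yl yh : ℤ} (P : Pm U v1 v2 yl yh) {β β' : Bool} {H : Set Edg}
    {F : Finset Edg} (hF : (↑F : Set Edg) ⊆ H) (h1 : OB U v1 v2 yl F) (h2 : OT U v1 v2 yh F)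
    {a a' w w' : Vtx}
    (hor : (a = src (0, 0, β) ∧ a' = tgt (0, 0, β)) ∨ (a = tgt (0, 0, β) ∧ a' = src (0, 0, β)))
    (hw : w.2 = 0 - 16 * U) (hr : Reach ((H ∩ ↑(RE (0 - 4 * U) (0 + 4 * U) (0 - 16 * U)
      (0 + 16 * U))) \ {((0, 0, β) : Edg)}) a w)
    (hw' : w'.2 = 0 + 16 * U) (hr' : Reach ((H ∩ ↑(RE (0 - 4 * U) (0 + 4 * U) (0 - 16 * U)
      (0 + 16 * U))) \ {((0, 0, β) : Edg)}) a' w')
    {b b' z z' : Vtx}
    (hor2 : (b = src (v1, v2, β') ∧ b' = tgt (v1, v2, β')) ∨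
      (b = tgt (v1, v2, β') ∧ b' = src (v1, v2, β')))
    (hz : z.2 = v2 - 16 * U) (hs : Reach ((H ∩ ↑(RE (v1 - 4 * U) (v1 + 4 * U) (v2 - 16 * U)
      (v2 + 16 * U))) \ {((v1, v2, β') : Edg)}) b z)
    (hz' : z'.2 = v2 + 16 * U) (hs' : Reach ((H ∩ ↑(RE (v1 - 4 * U) (v1 + 4 * U) (v2 - 16 * U)
      (v2 + 16 * U))) \ {((v1, v2, β') : Edg)}) b' z') :
    Reach (insert (v1, v2, β') H \ {((0, 0, β) : Edg)}) (src (0, 0, β)) (tgt (0, 0, β)) := by
  obtain ⟨U2, pv, pl1, pl2, pl3, ph1, ph2, ph3⟩ := P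
  obtain ⟨e, he⟩ : ∃ e : Edg, e = (0, 0, β) := ⟨_, rfl⟩
  obtain ⟨g, hg⟩ : ∃ g : Edg, g = (v1, v2, β') := ⟨_, rfl⟩
  obtain ⟨X, hX⟩ : ∃ X : Set Edg, X = insert g H \ {e} := ⟨_, rfl⟩
  have ha2 : a.2 = 0 ∨ a.2 = 1 := by
    rcases hor with ⟨h, _⟩ | ⟨h, _⟩ <;> rw [h] <;> cases β <;> simp
  have ha2' : a'.2 = 0 ∨ a'.2 = 1 := by
    rcases hor with ⟨_, h⟩ | ⟨_, h⟩ <;> rw [h] <;> cases β <;> simp
  have hb2 : b.2 = v2 ∨ b.2 = v2 + 1 := by
    rcases hor2 with ⟨h, _⟩ | ⟨h, _⟩ <;> rw [h] <;> cases β' <;> simp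
  have hb2' : b'.2 = v2 ∨ b'.2 = v2 + 1 := by
    rcases hor2 with ⟨_, h⟩ | ⟨_, h⟩ <;> rw [h] <;> cases β' <;> simp
  -- arms in X
  have r1 : Reach (X ∩ ↑(RE (0 - 4 * U) (0 + 4 * U) (0 - 16 * U) (0 + 16 * U))) a w := by
    rw [hX, he]; exact hr.mono arm_sub
  have r1' : Reach (X ∩ ↑(RE (0 - 4 * U) (0 + 4 * U) (0 - 16 * U) (0 + 16 * U))) a' w' := by
    rw [hX, he]; exact hr'.mono arm_sub
  have hev : e ∉ RE (v1 - 4 * U) (v1 + 4 * U) (v2 - 16 * U) (v2 + 16 * U) := by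
    rw [he]; exact ne_RE (by omega)
  have r2 : Reach (X ∩ ↑(RE (v1 - 4 * U) (v1 + 4 * U) (v2 - 16 * U) (v2 + 16 * U))) b z := by
    rw [hX, hg]; exact hs.mono (arm_sub' hev)
  have r2' : Reach (X ∩ ↑(RE (v1 - 4 * U) (v1 + 4 * U) (v2 - 16 * U) (v2 + 16 * U))) b' z' := by
    rw [hX, hg]; exact hs'.mono (arm_sub' hev)
  have bot : Reach X a b := by
    obtain ⟨⟨y1, y1', hy1, hy1', c1⟩, ⟨x2, x2', hx2, hx2', c2⟩, ⟨y3, y3', hy3, hy3', c3⟩,
      ⟨x4, x4', hx4, hx4', c4⟩, ⟨y5, y5', hy5, hy5', c5⟩⟩ := h1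
    have k1 := c1.mono (lr_sub (g := g) hF (e := e) (by rw [he]; exact ne_RE (by omega)))
    have k2 := c2.mono (tb_sub (g := g) hF (e := e) (by rw [he]; exact ne_RE (by omega)))
    have k3 := c3.mono (lr_sub (g := g) hF (e := e) (by rw [he]; exact ne_RE (by omega)))
    have k4 := c4.mono (tb_sub (g := g) hF (e := e) (by rw [he]; exact ne_RE (by omega)))
    have k5 := c5.mono (lr_sub (g := g) hF (e := e) (by rw [he]; exact ne_RE (by omega)))
    rw [← hX] at k1 k2 k3 k4 k5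
    have m1 := cross_meet (F := X) (a := 0 - 4 * U) (b := 0 + 4 * U) (c := -(14 * U))
      (d := -(10 * U)) (by omega) (by omega) (by omega) (by omega) (by omega) (by omega) k1
      (by simp only; omega) (by simp only; omega) r1.symm (by omega) (by omega)
    have m2 := cross_meet (F := X) (a := -(8 * U)) (b := 8 * U) (c := -(14 * U))
      (d := -(10 * U)) (by omega) (by omega) (by omega) (by omega) (by omega) (by omega) k1
      (by simp only; omega) (by simp only; omega) k2 (by simp only; omega) (by simp only; omega)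
    have m3 := cross_meet (F := X) (a := -(8 * U)) (b := 8 * U) (c := yl - 32 * U)
      (d := yl - 24 * U) (by omega) (by omega) (by omega) (by omega) (by omega) (by omega) k3
      (by simp only; omega) (by simp only; omega) k2 (by simp only; omega) (by simp only; omega)
    have m4 := cross_meet (F := X) (a := v1 - 8 * U) (b := v1 + 8 * U) (c := yl - 32 * U)
      (d := yl - 24 * U) (by omega) (by omega) (by omega) (by omega) (by omega) (by omega) k3
      (by simp only; omega) (by simp only; omega) k4 (by simp only; omega) (by simp only; omega)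
    have m5 := cross_meet (F := X) (a := v1 - 8 * U) (b := v1 + 8 * U) (c := v2 - 14 * U)
      (d := v2 - 10 * U) (by omega) (by omega) (by omega) (by omega) (by omega) (by omega) k5
      (by simp only; omega) (by simp only; omega) k4 (by simp only; omega) (by simp only; omega)
    have m6 := cross_meet (F := X) (a := v1 - 4 * U) (b := v1 + 4 * U) (c := v2 - 14 * U)
      (d := v2 - 10 * U) (by omega) (by omega) (by omega) (by omega) (by omega) (by omega) k5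
      (by simp only; omega) (by simp only; omega) r2.symm (by omega) (by omega)
    have l1 : Reach X a w := r1.mono Set.inter_subset_left
    have l6 : Reach X z b := r2.symm.mono Set.inter_subset_left
    exact l1.trans ((m1.symm.mono Set.inter_subset_left).trans
      ((m2.mono Set.inter_subset_left).trans ((m3.symm.mono Set.inter_subset_left).trans
      ((m4.mono Set.inter_subset_left).trans ((m5.symm.mono Set.inter_subset_left).trans
      ((m6.mono Set.inter_subset_left).trans l6))))))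
  have top : Reach X a' b' := by
    obtain ⟨⟨y1, y1', hy1, hy1', c1⟩, ⟨x2, x2', hx2, hx2', c2⟩, ⟨y3, y3', hy3, hy3', c3⟩,
      ⟨x4, x4', hx4, hx4', c4⟩, ⟨y5, y5', hy5, hy5', c5⟩⟩ := h2
    have k1 := c1.mono (lr_sub (g := g) hF (e := e) (by rw [he]; exact ne_RE (by omega)))
    have k2 := c2.mono (tb_sub (g := g) hF (e := e) (by rw [he]; exact ne_RE (by omega)))
    have k3 := c3.mono (lr_sub (g := g) hF (e := e) (by rw [he]; exact ne_RE (by omega)))
    have k4 := c4.mono (tb_sub (g := g) hF (e := e) (by rw [he]; exact ne_RE (by omega)))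
    have k5 := c5.mono (lr_sub (g := g) hF (e := e) (by rw [he]; exact ne_RE (by omega)))
    rw [← hX] at k1 k2 k3 k4 k5
    have m1 := cross_meet (F := X) (a := 0 - 4 * U) (b := 0 + 4 * U) (c := 10 * U)
      (d := 14 * U) (by omega) (by omega) (by omega) (by omega) (by omega) (by omega) k1
      (by simp only; omega) (by simp only; omega) r1' (by omega) (by omega)
    have m2 := cross_meet (F := X) (a := -(8 * U)) (b := 8 * U) (c := 10 * U)
      (d := 14 * U) (by omega) (by omega) (by omega) (by omega) (by omega) (by omega) k1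
      (by simp only; omega) (by simp only; omega) k2 (by simp only; omega) (by simp only; omega)
    have m3 := cross_meet (F := X) (a := -(8 * U)) (b := 8 * U) (c := yh + 24 * U)
      (d := yh + 32 * U) (by omega) (by omega) (by omega) (by omega) (by omega) (by omega) k3
      (by simp only; omega) (by simp only; omega) k2 (by simp only; omega) (by simp only; omega)
    have m4 := cross_meet (F := X) (a := v1 - 8 * U) (b := v1 + 8 * U) (c := yh + 24 * U)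
      (d := yh + 32 * U) (by omega) (by omega) (by omega) (by omega) (by omega) (by omega) k3
      (by simp only; omega) (by simp only; omega) k4 (by simp only; omega) (by simp only; omega)
    have m5 := cross_meet (F := X) (a := v1 - 8 * U) (b := v1 + 8 * U) (c := v2 + 10 * U)
      (d := v2 + 14 * U) (by omega) (by omega) (by omega) (by omega) (by omega) (by omega) k5
      (by simp only; omega) (by simp only; omega) k4 (by simp only; omega) (by simp only; omega)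
    have m6 := cross_meet (F := X) (a := v1 - 4 * U) (b := v1 + 4 * U) (c := v2 + 10 * U)
      (d := v2 + 14 * U) (by omega) (by omega) (by omega) (by omega) (by omega) (by omega) k5
      (by simp only; omega) (by simp only; omega) r2' (by omega) (by omega)
    have l2 : Reach X b' b' := Reach.refl _ _
    exact ((m1.symm.mono Set.inter_subset_left).trans
      ((m2.mono Set.inter_subset_left).trans ((m3.symm.mono Set.inter_subset_left).trans
      ((m4.mono Set.inter_subset_left).trans ((m5.symm.mono Set.inter_subset_left).trans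
      ((m6.mono Set.inter_subset_left).trans l2))))))
  have hge : g ≠ e := by
    rw [hg, he]
    intro h
    have := congrArg Prod.fst h
    simp only at this
    omega
  have hgX : g ∈ X := by rw [hX]; exact ⟨Set.mem_insert _ _, hge⟩
  have mid : Reach X b b' := by
    rcases hor2 with ⟨h3, h4⟩ | ⟨h3, h4⟩
    · rw [h3, h4, ← hg]; exact Adj.reach ⟨g, hgX, Or.inl ⟨rfl, rfl⟩⟩
    · rw [h3, h4, ← hg]; exact Adj.reach ⟨g, hgX, Or.inr ⟨rfl, rfl⟩⟩
  have all : Reach X a a' := bot.trans (mid.trans top.symm)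
  rw [← he, ← hg, ← hX]
  rw [← he] at hor
  rcases hor with ⟨h3, h4⟩ | ⟨h3, h4⟩
  · rw [← h3, ← h4]; exact all
  · rw [← h3, ← h4]; exact all.symm

/-- The closed dual edges, and `g`. -/
def Gd (e g : Edg) (H : Set Edg) : Set Edg := {h | (h ∉ H ∨ h = g) ∧ h ≠ e}

/-- The dual part. -/
theorem dual_part {U v1 v2 yl yh : ℤ} (P : Pm U v1 v2 yl yh) {β β' : Bool} {H : Set Edg}
    {F : Finset Edg}
    (hF : ∀ {a b c d : ℤ} {h : Edg}, -(2 * v1) ≤ a → b ≤ 2 * v1 → -(2 * v1) ≤ c → d ≤ 2 * v1 →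
      h ∈ RE a b c d → h ∉ F → h ∉ H)
    (h1 : DM U v1 v2 yl yh F) (h2 : DO U v1 v2 yh F)
    {f f' k k' : Vtx}
    (hor : (f = dsrc (0, 0, β) ∧ f' = dtgt (0, 0, β)) ∨
      (f = dtgt (0, 0, β) ∧ f' = dsrc (0, 0, β)))
    (hk : k.1 = 0 - 16 * U - 1) (hr : DReach ((↑(RE (0 - 16 * U) (0 + 16 * U) (0 - 4 * U)
      (0 + 4 * U)) \ H) \ {((0, 0, β) : Edg)}) f k)
    (hk' : k'.1 = 0 + 16 * U) (hr' : DReach ((↑(RE (0 - 16 * U) (0 + 16 * U) (0 - 4 * U)
      (0 + 4 * U)) \ H) \ {((0, 0, β) : Edg)}) f' k')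
    {p p' l l' : Vtx}
    (hor2 : (p = dsrc (v1, v2, β') ∧ p' = dtgt (v1, v2, β')) ∨
      (p = dtgt (v1, v2, β') ∧ p' = dsrc (v1, v2, β')))
    (hl : l.1 = v1 - 16 * U - 1) (hs : DReach ((↑(RE (v1 - 16 * U) (v1 + 16 * U) (v2 - 4 * U)
      (v2 + 4 * U)) \ H) \ {((v1, v2, β') : Edg)}) p l)
    (hl' : l'.1 = v1 + 16 * U) (hs' : DReach ((↑(RE (v1 - 16 * U) (v1 + 16 * U) (v2 - 4 * U)
      (v2 + 4 * U)) \ H) \ {((v1, v2, β') : Edg)}) p' l') :
    DReach (Gd (0, 0, β) (v1, v2, β') H) (dsrc (0, 0, β)) (dtgt (0, 0, β)) := by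
  obtain ⟨U2, pv, pl1, pl2, pl3, ph1, ph2, ph3⟩ := P
  obtain ⟨e, he⟩ : ∃ e : Edg, e = (0, 0, β) := ⟨_, rfl⟩
  obtain ⟨g, hg⟩ : ∃ g : Edg, g = (v1, v2, β') := ⟨_, rfl⟩
  obtain ⟨X, hX⟩ : ∃ X : Set Edg, X = Gd e g H := ⟨_, rfl⟩
  have hf1 : f.1 = 0 ∨ f.1 = -1 := by
    rcases hor with ⟨h, _⟩ | ⟨h, _⟩ <;> rw [h] <;> cases β <;> simp
  have hf1' : f'.1 = 0 ∨ f'.1 = -1 := by
    rcases hor with ⟨_, h⟩ | ⟨_, h⟩ <;> rw [h] <;> cases β <;> simp
  have hp1 : p.1 = v1 ∨ p.1 = v1 - 1 := by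
    rcases hor2 with ⟨h, _⟩ | ⟨h, _⟩ <;> rw [h] <;> cases β' <;> simp
  have hp1' : p'.1 = v1 ∨ p'.1 = v1 - 1 := by
    rcases hor2 with ⟨_, h⟩ | ⟨_, h⟩ <;> rw [h] <;> cases β' <;> simp
  -- arms
  have sA : ((↑(RE (0 - 16 * U) (0 + 16 * U) (0 - 4 * U) (0 + 4 * U)) : Set Edg) \ H) \
      {((0, 0, β) : Edg)} ⊆ X := by
    rintro h ⟨⟨_, h4⟩, h5⟩
    rw [hX, he]
    exact ⟨Or.inl h4, h5⟩
  have rA : ∀ h ∈ ((↑(RE (0 - 16 * U) (0 + 16 * U) (0 - 4 * U) (0 + 4 * U)) : Set Edg) \ H) \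
      {((0, 0, β) : Edg)}, dl h ∈ RE (0 - 16 * U - 1) (0 + 16 * U) (0 - 4 * U - 1) (0 + 4 * U) :=
    fun h h3 => Pool.Agent.W801.DPdet.dl_RE (Finset.mem_coe.mp h3.1.1)
  have hev : e ∉ RE (v1 - 16 * U) (v1 + 16 * U) (v2 - 4 * U) (v2 + 4 * U) := by
    rw [he]; exact ne_RE (by omega)
  have sB : ((↑(RE (v1 - 16 * U) (v1 + 16 * U) (v2 - 4 * U) (v2 + 4 * U)) : Set Edg) \ H) \
      {((v1, v2, β') : Edg)} ⊆ X := by
    rintro h ⟨⟨h3, h4⟩, _⟩
    rw [hX]
    exact ⟨Or.inl h4, fun h6 => hev (h6 ▸ Finset.mem_coe.mp h3)⟩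
  have rB : ∀ h ∈ ((↑(RE (v1 - 16 * U) (v1 + 16 * U) (v2 - 4 * U) (v2 + 4 * U)) : Set Edg) \ H) \
      {((v1, v2, β') : Edg)},
      dl h ∈ RE (v1 - 16 * U - 1) (v1 + 16 * U) (v2 - 4 * U - 1) (v2 + 4 * U) :=
    fun h h3 => Pool.Agent.W801.DPdet.dl_RE (Finset.mem_coe.mp h3.1.1)
  -- crossings
  have sL : ∀ {a b c d : ℤ}, -(2 * v1) ≤ a → b ≤ 2 * v1 → -(2 * v1) ≤ c → d ≤ 2 * v1 →
      e ∉ RE a b c d → (↑(LRE a b c d \ F) : Set Edg) ⊆ X := by
    intro a b c d q1 q2 q3 q4 q5 h h3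
    rw [Finset.mem_coe, Finset.mem_sdiff] at h3
    have h4 := LRE_subset_RE h3.1
    rw [hX]
    exact ⟨Or.inl (hF q1 q2 q3 q4 h4 h3.2), fun h6 => q5 (h6 ▸ h4)⟩
  have rL : ∀ {a b c d : ℤ}, ∀ h ∈ (↑(LRE a b c d \ F) : Set Edg),
      dl h ∈ RE a (b - 1) (c - 1) d := by
    intro a b c d h h3
    rw [Finset.mem_coe, Finset.mem_sdiff] at h3
    exact Pool.Agent.W801.DPdet.dl_LRE h3.1
  have sT : ∀ {a b c d : ℤ}, -(2 * v1) ≤ a → b ≤ 2 * v1 → -(2 * v1) ≤ c → d ≤ 2 * v1 →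
      e ∉ RE a b c d → (↑(TBE a b c d \ F) : Set Edg) ⊆ X := by
    intro a b c d q1 q2 q3 q4 q5 h h3
    rw [Finset.mem_coe, Finset.mem_sdiff] at h3
    have h4 := TBE_subset_RE h3.1
    rw [hX]
    exact ⟨Or.inl (hF q1 q2 q3 q4 h4 h3.2), fun h6 => q5 (h6 ▸ h4)⟩
  have rT : ∀ {a b c d : ℤ}, ∀ h ∈ (↑(TBE a b c d \ F) : Set Edg),
      dl h ∈ RE (a - 1) b c (d - 1) := by
    intro a b c d h h3
    rw [Finset.mem_coe, Finset.mem_sdiff] at h3
    exact Pool.Agent.W801.DPdet.dl_TBE h3.1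
  have hne : ∀ {a b c d : ℤ}, (0 < a ∨ b < 0 ∨ 0 < c ∨ d < 0) → e ∉ RE a b c d := by
    intro a b c d h
    rw [he]; exact ne_RE h
  have mid : DReach X f' p := by
    obtain ⟨⟨x1, x1', hx1, hx1', c1⟩, ⟨y2, y2', hy2, hy2', c2⟩, ⟨x3, x3', hx3, hx3', c3⟩,
      ⟨y4, y4', hy4, hy4', c4⟩, ⟨x5, x5', hx5, hx5', c5⟩⟩ := h1
    have m1 := Pool.Agent.W801.DPdet.dcross_meet (G := X) (A := 0 - 16 * U - 1)
      (B := 0 + 16 * U) (C := -(4 * U) - 1) (D := 4 * U) (a := 10 * U) (b := 14 * U - 1)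
      (c := 0 - 4 * U - 1) (d := 0 + 4 * U) (by omega) (by omega) (by omega) (by omega)
      (by omega) (by omega) hr' sA rA (by omega) (by omega) c1
      (sL (by omega) (by omega) (by omega) (by omega) (hne (by omega))) rL
      (by simp only; omega) (by simp only; omega)
    have m2 := Pool.Agent.W801.DPdet.dcross_meet (G := X) (A := 9 * U - 1)
      (B := 48 * U) (C := -(4 * U) - 1) (D := 4 * U) (a := 10 * U) (b := 14 * U - 1)
      (c := -(4 * U)) (d := 4 * U - 1) (by omega) (by omega) (by omega) (by omega)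
      (by omega) (by omega) c2 (sT (by omega) (by omega) (by omega) (by omega) (hne (by omega))) rT
      (by simp only; omega) (by simp only; omega) c1
      (sL (by omega) (by omega) (by omega) (by omega) (hne (by omega))) rL
      (by simp only; omega) (by simp only; omega)
    have m3 := Pool.Agent.W801.DPdet.dcross_meet (G := X) (A := 9 * U - 1)
      (B := 48 * U) (C := yl - 4 * U - 1) (D := yh + 4 * U) (a := 40 * U) (b := 48 * U - 1)
      (c := -(4 * U)) (d := 4 * U - 1) (by omega) (by omega) (by omega) (by omega)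
      (by omega) (by omega) c2 (sT (by omega) (by omega) (by omega) (by omega) (hne (by omega))) rT
      (by simp only; omega) (by simp only; omega) c3
      (sL (by omega) (by omega) (by omega) (by omega) (hne (by omega))) rL
      (by simp only; omega) (by simp only; omega)
    have m4 := Pool.Agent.W801.DPdet.dcross_meet (G := X) (A := 40 * U - 1)
      (B := v1 - 9 * U) (C := yl - 4 * U - 1) (D := yh + 4 * U) (a := 40 * U) (b := 48 * U - 1)
      (c := v2 - 4 * U) (d := v2 + 4 * U - 1) (by omega) (by omega) (by omega) (by omega)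
      (by omega) (by omega) c4 (sT (by omega) (by omega) (by omega) (by omega) (hne (by omega))) rT
      (by simp only; omega) (by simp only; omega) c3
      (sL (by omega) (by omega) (by omega) (by omega) (hne (by omega))) rL
      (by simp only; omega) (by simp only; omega)
    have m5 := Pool.Agent.W801.DPdet.dcross_meet (G := X) (A := 40 * U - 1)
      (B := v1 - 9 * U) (C := v2 - 4 * U - 1) (D := v2 + 4 * U) (a := v1 - 14 * U)
      (b := v1 - 10 * U - 1)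
      (c := v2 - 4 * U) (d := v2 + 4 * U - 1) (by omega) (by omega) (by omega) (by omega)
      (by omega) (by omega) c4 (sT (by omega) (by omega) (by omega) (by omega) (hne (by omega))) rT
      (by simp only; omega) (by simp only; omega) c5
      (sL (by omega) (by omega) (by omega) (by omega) (hne (by omega))) rL
      (by simp only; omega) (by simp only; omega)
    have m6 := Pool.Agent.W801.DPdet.dcross_meet (G := X) (A := v1 - 16 * U - 1)
      (B := v1 + 16 * U) (C := v2 - 4 * U - 1) (D := v2 + 4 * U) (a := v1 - 14 * U)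
      (b := v1 - 10 * U - 1)
      (c := v2 - 4 * U - 1) (d := v2 + 4 * U) (by omega) (by omega) (by omega) (by omega)
      (by omega) (by omega) hs.symm sB rB (by omega) (by omega) c5
      (sL (by omega) (by omega) (by omega) (by omega) (hne (by omega))) rL
      (by simp only; omega) (by simp only; omega)
    have l6 : DReach X l p := DReach.mono sB hs.symm
    exact m1.trans (m2.symm.trans (m3.trans (m4.symm.trans (m5.trans (m6.symm.trans l6)))))
  have out : DReach X f p' := by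
    obtain ⟨⟨x1, x1', hx1, hx1', c1⟩, ⟨y2, y2', hy2, hy2', c2⟩, ⟨x3, x3', hx3, hx3', c3⟩⟩ := h2
    have m1 := Pool.Agent.W801.DPdet.dcross_meet (G := X) (A := 0 - 16 * U - 1)
      (B := 0 + 16 * U) (C := -(4 * U) - 1) (D := yh + 48 * U) (a := -(14 * U))
      (b := -(10 * U) - 1)
      (c := 0 - 4 * U - 1) (d := 0 + 4 * U) (by omega) (by omega) (by omega) (by omega)
      (by omega) (by omega) hr.symm sA rA (by omega) (by omega) c1
      (sL (by omega) (by omega) (by omega) (by omega) (hne (by omega))) rL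
      (by simp only; omega) (by simp only; omega)
    have m2 := Pool.Agent.W801.DPdet.dcross_meet (G := X) (A := -(15 * U) - 1)
      (B := v1 + 15 * U) (C := -(4 * U) - 1) (D := yh + 48 * U) (a := -(14 * U))
      (b := -(10 * U) - 1)
      (c := yh + 40 * U) (d := yh + 48 * U - 1) (by omega) (by omega) (by omega) (by omega)
      (by omega) (by omega) c2 (sT (by omega) (by omega) (by omega) (by omega) (hne (by omega))) rT
      (by simp only; omega) (by simp only; omega) c1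
      (sL (by omega) (by omega) (by omega) (by omega) (hne (by omega))) rL
      (by simp only; omega) (by simp only; omega)
    have m3 := Pool.Agent.W801.DPdet.dcross_meet (G := X) (A := -(15 * U) - 1)
      (B := v1 + 15 * U) (C := v2 - 4 * U - 1) (D := yh + 48 * U) (a := v1 + 10 * U)
      (b := v1 + 14 * U - 1)
      (c := yh + 40 * U) (d := yh + 48 * U - 1) (by omega) (by omega) (by omega) (by omega)
      (by omega) (by omega) c2 (sT (by omega) (by omega) (by omega) (by omega) (hne (by omega))) rT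
      (by simp only; omega) (by simp only; omega) c3
      (sL (by omega) (by omega) (by omega) (by omega) (hne (by omega))) rL
      (by simp only; omega) (by simp only; omega)
    have m4 := Pool.Agent.W801.DPdet.dcross_meet (G := X) (A := v1 - 16 * U - 1)
      (B := v1 + 16 * U) (C := v2 - 4 * U - 1) (D := yh + 48 * U) (a := v1 + 10 * U)
      (b := v1 + 14 * U - 1)
      (c := v2 - 4 * U - 1) (d := v2 + 4 * U) (by omega) (by omega) (by omega) (by omega)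
      (by omega) (by omega) hs' sB rB (by omega) (by omega) c3
      (sL (by omega) (by omega) (by omega) (by omega) (hne (by omega))) rL
      (by simp only; omega) (by simp only; omega)
    have l1 : DReach X f k := DReach.mono sA hr
    exact l1.trans (m1.trans (m2.symm.trans (m3.trans m4.symm)))
  have hge : g ≠ e := by
    rw [hg, he]
    intro h
    have := congrArg Prod.fst h
    simp only at this
    omega
  have hgX : g ∈ X := by rw [hX]; exact ⟨Or.inr rfl, hge⟩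
  have thr : DReach X p p' := by
    rcases hor2 with ⟨h3, h4⟩ | ⟨h3, h4⟩
    · rw [h3, h4, ← hg]; exact DAdj.reach ⟨g, hgX, Or.inl ⟨rfl, rfl⟩⟩
    · rw [h3, h4, ← hg]; exact DAdj.reach ⟨g, hgX, Or.inr ⟨rfl, rfl⟩⟩
  have all : DReach X f f' := out.trans (thr.symm.trans mid.symm)
  rw [← he, ← hg, ← hX]
  rw [← he] at hor
  rcases hor with ⟨h3, h4⟩ | ⟨h3, h4⟩
  · rw [← h3, ← h4]; exact all
  · rw [← h3, ← h4]; exact all.symm

/-- Two plus events and the corridors imply joint pivotality. -/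
theorem jp_det {L m : ℕ} (h2 : 2 ≤ L) (h64 : 64 ≤ m) {U v1 v2 yl yh : ℤ} (hU : U = (L * m : ℕ))
    (P : Pm U v1 v2 yl yh) {β β' : Bool} {H : Set Edg} {F : Finset Edg}
    (hFH : (↑F : Set Edg) ⊆ H)
    (hF : ∀ {a b c d : ℤ} {h : Edg}, -(2 * v1) ≤ a → b ≤ 2 * v1 → -(2 * v1) ≤ c → d ≤ 2 * v1 →
      h ∈ RE a b c d → h ∉ F → h ∉ H)
    (hP1 : Plus (4 * L * m) m (16 * L * m) (e0 β) (shc (0, 0) H))
    (hP2 : Plus (4 * L * m) m (16 * L * m) (e0 β') (shc (v1, v2) H))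
    (hOB : OB U v1 v2 yl F) (hOT : OT U v1 v2 yh F) (hDM : DM U v1 v2 yl yh F)
    (hDO : DO U v1 v2 yh F) : JP (0, 0, β) (v1, v2, β') H := by
  obtain ⟨⟨a, a', hor, ⟨w, hw, hr⟩, ⟨w', hw', hr'⟩⟩, ⟨f, f', hfor, ⟨k, hk, hd⟩, ⟨k', hk', hd'⟩⟩⟩ :=
    arms_at h2 h64 hP1 hU
  obtain ⟨⟨b, b', hor2, ⟨z, hz, hs⟩, ⟨z', hz', hs'⟩⟩, ⟨p, p', hpor, ⟨l, hl, ht⟩, ⟨l', hl', ht'⟩⟩⟩ :=
    arms_at h2 h64 hP2 hU
  simp only at hor hw hr hw' hr' hfor hk hd hk' hd' hor2 hz hs hz' hs' hpor hl ht hl' ht'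
  refine ⟨open_part P hFH hOB hOT hor hw hr hw' hr' hor2 hz hs hz' hs', fun hcon => ?_⟩
  have hD := dual_part P hF hDM hDO hfor hk hd hk' hd' hpor hl ht hl' ht'
  refine no_loop' (H := H \ {((0, 0, β) : Edg), (v1, v2, β')})
    (G := Gd (0, 0, β) (v1, v2, β') H) ?_ ?_ ?_ hcon hD
  · rintro h ⟨h3 | h3, _⟩ ⟨h4, h5⟩
    · exact h3 h4
    · exact h5 (Or.inr h3)
  · exact fun h => h.2 (Or.inl rfl)
  · exact fun h => h.2 rfl

end Pool.Agent.W2helper75.EC
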