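import Pool.Agent.W2helper75.EC.Jp2

/-!
Joint pivotality: symmetry, finite approximations and invariance of its probability.
-/

set_option autoImplicit false
set_option maxHeartbeats 1000000

namespace Pool.Agent.W2helper75.EC

open H974 H12S Finset MeasureTheory Filter Topology
open Pool.Agent.W92.DP

/-- The probability that `e` and `g` are jointly pivotal. -/
noncomputable def jp (p : unitInterval) (e g : Edg) : ℝ :=
  (bondLaw p).real {ω | JP e g (opn ω)}

theorem jp_nonneg (p : unitInterval) (e g : Edg) : 0 ≤ jp p e g := measureReal_nonneg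

theorem jp_le_one (p : unitInterval) (e g : Edg) : jp p e g ≤ 1 := measureReal_le_one

/-! ### symmetry -/

theorem JP_iff {e g : Edg} (hne : e ≠ g) {F : Set Edg} :
    JP e g F ↔ Reach (insert g (F \ {e, g})) (src e) (tgt e) ∧
      ¬ Reach (F \ {e, g}) (src e) (tgt e) := by
  unfold JP
  have e1 : insert g F \ {e} = insert g (F \ {e, g}) := by
    ext x
    simp only [Set.mem_sdiff, Set.mem_insert_iff, Set.mem_singleton_iff, not_or]
    constructor
    · rintro ⟨h | h, h2⟩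
      · exact Or.inl h
      · by_cases hx : x = g
        · exact Or.inl hx
        · exact Or.inr ⟨h, h2, hx⟩
    · rintro (h | ⟨h, h2, _⟩)
      · exact ⟨Or.inl h, by rw [h]; exact hne.symm⟩
      · exact ⟨Or.inr h, h2⟩
  rw [e1]

theorem JP_comm' {e g : Edg} (hne : e ≠ g) {F : Set Edg} (h : JP e g F) : JP g e F := by
  rw [JP_iff hne] at h
  rw [JP_iff hne.symm]
  have e1 : F \ {g, e} = F \ {e, g} := by rw [Set.pair_comm]
  rw [e1]
  obtain ⟨h1, h2⟩ := h
  obtain ⟨H, hH⟩ : ∃ H : Set Edg, H = F \ {e, g} := ⟨_, rfl⟩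
  rw [← hH] at h1 h2 ⊢
  have hHe : H ⊆ insert e H := Set.subset_insert _ _
  have hee : Reach (insert e H) (src e) (tgt e) :=
    Adj.reach ⟨e, Set.mem_insert _ _, Or.inl ⟨rfl, rfl⟩⟩
  have sub : H \ {g} ⊆ H := Set.sdiff_subset
  rcases reach_insert h1 with h3 | ⟨h3, h4⟩ | ⟨h3, h4⟩
  · exact absurd (h3.mono sub) h2
  · have k1 := h3.mono sub
    have k2 := h4.mono sub
    refine ⟨?_, fun h5 => h2 (k1.trans (h5.trans k2))⟩
    exact (k1.mono hHe).symm.trans (hee.trans (k2.mono hHe).symm)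
  · have k1 := h3.mono sub
    have k2 := h4.mono sub
    refine ⟨?_, fun h5 => h2 (k1.trans (h5.symm.trans k2))⟩
    exact (k2.mono hHe).trans (hee.symm.trans (k1.mono hHe))

theorem JP_comm {e g : Edg} (hne : e ≠ g) {F : Set Edg} : JP e g F ↔ JP g e F :=
  ⟨JP_comm' hne, JP_comm' hne.symm⟩

theorem jp_comm (p : unitInterval) {e g : Edg} (hne : e ≠ g) : jp p e g = jp p g e := by
  unfold jp
  congr 1
  ext ω
  exact JP_comm hne

theorem LSym.ends (σ : LSym) (e : Edg) :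
    (src (σ.φ e) = σ.ψ (src e) ∧ tgt (σ.φ e) = σ.ψ (tgt e)) ∨
      (src (σ.φ e) = σ.ψ (tgt e) ∧ tgt (σ.φ e) = σ.ψ (src e)) := by
  rcases σ.compat e with h | h
  · exact Or.inl ⟨h.1, h.2⟩
  · exact Or.inr ⟨h.1, h.2⟩

theorem reach_ends (σ : LSym) (e : Edg) {F : Set Edg} :
    Reach (σ.φ '' F) (src (σ.φ e)) (tgt (σ.φ e)) ↔ Reach F (src e) (tgt e) := by
  rcases LSym.ends σ e with ⟨h1, h2⟩ | ⟨h1, h2⟩
  · rw [h1, h2, σ.reach_iff]
  · rw [h1, h2, σ.reach_iff]
    exact ⟨fun h => h.symm, fun h => h.symm⟩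

theorem JP_image (σ : LSym) (e g : Edg) {F : Set Edg} :
    JP (σ.φ e) (σ.φ g) (σ.φ '' F) ↔ JP e g F := by
  unfold JP
  have e1 : insert (σ.φ g) (σ.φ '' F) \ {σ.φ e} = σ.φ '' (insert g F \ {e}) := by
    rw [Set.image_sdiff σ.φ.injective, Set.image_insert_eq, Set.image_singleton]
  have e2 : (σ.φ '' F) \ {σ.φ e, σ.φ g} = σ.φ '' (F \ {e, g}) := by
    rw [Set.image_sdiff σ.φ.injective, Set.image_pair]
  rw [e1, e2, reach_ends, reach_ends]

/-! ### finite approximations -/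

theorem box_ev {S : ℕ → Finset Edg} (hS : ∀ e, ∀ᶠ n in atTop, e ∈ S n) (B : Finset Edg) :
    ∀ᶠ n in atTop, B ⊆ S n := by
  have := (Filter.eventually_all_finset B).2 (fun e _ => hS e)
  filter_upwards [this] with n hn e he
  exact hn e he

theorem reach_ev {S : ℕ → Finset Edg} (hS : ∀ e, ∀ᶠ n in atTop, e ∈ S n)
    {T : Set Edg → Set Edg} (hm : ∀ F G : Set Edg, F ⊆ G → T F ⊆ T G)
    (hT : ∀ H B : Set Edg, T H ∩ B ⊆ T (H ∩ B)) (u v : Vtx) (ω : sqLattice.edgeSet → Bool) :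
    ∀ᶠ n in atTop, (Reach (T ↑(FF (S n) ω)) u v ↔ Reach (T (opn ω)) u v) := by
  have hsub : ∀ n, (↑(FF (S n) ω) : Set Edg) ⊆ opn ω := by
    intro n
    rw [FF_coe]
    exact Set.inter_subset_left
  by_cases h : Reach (T (opn ω)) u v
  · obtain ⟨k, hk⟩ := reach_fin h
    filter_upwards [box_ev hS (boxE k)] with n hn
    refine ⟨fun _ => h, fun _ => hk.mono ((hT _ _).trans (hm _ _ ?_))⟩
    rw [FF_coe]
    exact Set.inter_subset_inter_right _ (by exact_mod_cast hn)
  · exact Eventually.of_forall fun n => ⟨fun h2 => h2.mono (hm _ _ (hsub n)), fun h2 => absurd h2 h⟩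

theorem JP_ev {S : ℕ → Finset Edg} (hS : ∀ e, ∀ᶠ n in atTop, e ∈ S n) (e g : Edg)
    (ω : sqLattice.edgeSet → Bool) :
    ∀ᶠ n in atTop, (JP e g ↑(FF (S n) ω) ↔ JP e g (opn ω)) := by
  have h1 := reach_ev hS (T := fun F => insert g F \ {e})
    (fun F G h => Set.sdiff_subset_sdiff_left (Set.insert_subset_insert h))
    (by
      rintro H B x ⟨⟨h1 | h1, h2⟩, h3⟩
      · exact ⟨Or.inl h1, h2⟩
      · exact ⟨Or.inr ⟨h1, h3⟩, h2⟩) (src e) (tgt e) ω
  have h2 := reach_ev hS (T := fun F => F \ {e, g})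
    (fun F G h => Set.sdiff_subset_sdiff_left h)
    (by
      rintro H B x ⟨⟨h1, h2⟩, h3⟩
      exact ⟨⟨h1, h3⟩, h2⟩) (src e) (tgt e) ω
  filter_upwards [h1, h2] with n k1 k2
  unfold JP
  rw [k1, k2]

theorem meas_JP (e g : Edg) : MeasurableSet {ω : sqLattice.edgeSet → Bool | JP e g (opn ω)} := by
  have hS : ∀ e : Edg, ∀ᶠ n in atTop, e ∈ boxE n := by
    intro e
    obtain ⟨k, hk⟩ := mem_big e
    filter_upwards [eventually_ge_atTop k] with n hn
    exact boxE_mono hn hk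
  exact measurableSet_of_tendsto_indicator atTop (As := fun n => {ω | JP e g ↑(FF (boxE n) ω)})
    (fun n => meas_event (boxE n) (fun F => JP e g ↑F)) (fun ω => JP_ev hS e g ω)

theorem jp_tend (p : unitInterval) {S : ℕ → Finset Edg} (hS : ∀ e, ∀ᶠ n in atTop, e ∈ S n)
    (e g : Edg) : Tendsto (fun n => PQ p (S n) (fun F => JP e g ↑F)) atTop (𝓝 (jp p e g)) := by
  have h1 := tendsto_measure_of_tendsto_indicator_of_isFiniteMeasure atTop (bondLaw p)
    (As := fun n => {ω | JP e g ↑(FF (S n) ω)}) (A := {ω | JP e g (opn ω)})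
    (fun n => meas_event (S n) (fun F => JP e g ↑F)) (fun ω => JP_ev hS e g ω)
  have h2 := (ENNReal.tendsto_toReal (measure_ne_top (bondLaw p) _)).comp h1
  have e1 : (fun n => PQ p (S n) (fun F => JP e g ↑F)) =
      fun n => ((bondLaw p) {ω | JP e g ↑(FF (S n) ω)}).toReal := by
    funext n
    exact (law_event p (S n) (fun F => JP e g ↑F)).symm
  rw [e1]
  exact h2

theorem boxE_ev (e : Edg) : ∀ᶠ n in atTop, e ∈ boxE n := by
  obtain ⟨k, hk⟩ := mem_big e
  filter_upwards [eventually_ge_atTop k] with n hn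
  exact boxE_mono hn hk

/-- Invariance under the symmetries of the lattice. -/
theorem jp_sym (σ : LSym) (p : unitInterval) (e g : Edg) : jp p (σ.φ e) (σ.φ g) = jp p e g := by
  have h1 := jp_tend p (S := fun n => σ.mp (boxE n)) (by
    intro x
    filter_upwards [boxE_ev (σ.φ.symm x)] with n hn
    rw [LSym.mem_mp]
    exact hn) (σ.φ e) (σ.φ g)
  have h2 := jp_tend p boxE_ev e g
  refine tendsto_nhds_unique h1 (h2.congr fun n => ?_)
  unfold PQ
  rw [LSym.pr]
  apply Pr_congr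
  intro F _
  rw [LSym.coe_mp, JP_image]

theorem jp_trl (p : unitInterval) (s t : ℤ) (x y x' y' : ℤ) (b b' : Bool) :
    jp p (x + s, y + t, b) (x' + s, y' + t, b') = jp p (x, y, b) (x', y', b') :=
  jp_sym (trl s t) p (x, y, b) (x', y', b')

theorem jp_tps (p : unitInterval) (x y x' y' : ℤ) (b b' : Bool) :
    jp p (y, x, !b) (y', x', !b') = jp p (x, y, b) (x', y', b') :=
  jp_sym tps p (x, y, b) (x', y', b')

/-- The distance of two edges: largest coordinate of the difference of their base points. -/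
def de (e g : Edg) : ℕ := max (e.1 - g.1).natAbs (e.2.1 - g.2.1).natAbs

theorem de_comm (e g : Edg) : de e g = de g e := by
  unfold de
  congr 1 <;> omega

/-- **Lower bound** for all pairs of edges which are far enough. -/
theorem jp_lower : ∃ (δ c K : ℝ) (R0 : ℕ), 0 < δ ∧ 0 < c ∧ 0 < K ∧ ∀ p : unitInterval,
    |(p:ℝ) - 1/2| ≤ δ → ∀ e g : Edg, R0 ≤ de e g →
    c * (de e g : ℝ) ^ (-(5/2) : ℝ) * Real.exp (-(K * (de e g * |(p:ℝ) - 1/2| ^ (4/3 : ℝ)))) ≤
      jp p e g := by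
  obtain ⟨δ, c, K, R0, hδ, hc, hK, h⟩ := jp_low
  refine ⟨δ, c, K, R0 + 1, hδ, hc, hK, ?_⟩
  intro p hp e g hR
  obtain ⟨x, y, b⟩ := e
  obtain ⟨x', y', b'⟩ := g
  obtain ⟨R, hRd⟩ : ∃ R : ℕ, R = de (x, y, b) (x', y', b') := ⟨_, rfl⟩
  rw [← hRd] at hR ⊢
  unfold de at hRd
  simp only at hRd
  -- oriented case
  have key : ∀ (x y x' y' : ℤ) (b b' : Bool), x' - x = R → |y' - y| ≤ R →
      c * (R:ℝ) ^ (-(5/2) : ℝ) * Real.exp (-(K * (R * |(p:ℝ) - 1/2| ^ (4/3 : ℝ)))) ≤
      jp p (x, y, b) (x', y', b') := by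
    intro x y x' y' b b' h1 h2
    have h3 := h p hp R (y' - y) b b' (by omega) h2
    have h4 := jp_trl p x y 0 0 (R:ℤ) (y' - y) b b'
    rw [zero_add, zero_add] at h4
    have e1 : (R:ℤ) + x = x' := by omega
    have e2 : y' - y + y = y' := by ring
    rw [e1, e2] at h4
    rw [h4]
    exact h3
  have key2 : ∀ (x y x' y' : ℤ) (b b' : Bool), |x' - x| = R → |y' - y| ≤ R →
      c * (R:ℝ) ^ (-(5/2) : ℝ) * Real.exp (-(K * (R * |(p:ℝ) - 1/2| ^ (4/3 : ℝ)))) ≤
      jp p (x, y, b) (x', y', b') := by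
    intro x y x' y' b b' h1 h2
    rcases abs_cases (x' - x) with ⟨h3, _⟩ | ⟨h3, _⟩
    · exact key x y x' y' b b' (by omega) h2
    · have hne : ((x, y, b) : Edg) ≠ (x', y', b') := by
        intro h4
        have := congrArg Prod.fst h4
        simp only at this
        omega
      rw [jp_comm p hne]
      refine key x' y' x y b' b (by omega) ?_
      rw [abs_sub_comm]
      exact h2
  rcases le_total (x - x').natAbs (y - y').natAbs with h1 | h1
  · have h2 := jp_tps p x y x' y' b b'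
    rw [← h2]
    apply key2
    · rw [Int.abs_eq_natAbs]; omega
    · rw [Int.abs_eq_natAbs]; omega
  · apply key2
    · rw [Int.abs_eq_natAbs]; omega
    · rw [Int.abs_eq_natAbs]; omega

end Pool.Agent.W2helper75.EC
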