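import Pool.Agent.W2helper75.EC.Low

/-!
Lower bound for the probability that two edges are jointly pivotal, at one scale: assembly.
-/

set_option autoImplicit false
set_option maxHeartbeats 1000000

namespace Pool.Agent.W2helper75.EC

open H974 H12S Finset MeasureTheory
open Pool.Agent.W92.DP Pool.Agent.W52.DPOne Pool.Agent.W52.DPInd

/-- The plus event at `v`. -/
def PA (L m : ℕ) (v : Vtx) (β : Bool) (F : Finset Edg) : Prop :=
  Plus (4 * L * m) m (16 * L * m) (e0 β) (shc v ↑F)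

theorem PA_mono {L m : ℕ} {v : Vtx} {β : Bool} {F G : Finset Edg}
    (h1 : ∀ g ∈ XV (4 * L * m) m (16 * L * m), sh v g ∈ F → sh v g ∈ G)
    (h2 : ∀ g ∈ XH (4 * L * m) m (16 * L * m), sh v g ∈ G → sh v g ∈ F)
    (h : PA L m v β F) : PA L m v β G :=
  plus_mono (fun g hg hgF => Finset.mem_coe.2 (h1 g hg (Finset.mem_coe.1 hgF)))
    (fun g hg hgG => Finset.mem_coe.2 (h2 g hg (Finset.mem_coe.1 hgG))) h

/-- The box of the plus event at `v`. -/
noncomputable def bx (L m : ℕ) (v : Vtx) : Finset Edg := (trl v.1 v.2).mp (boxE (16 * L * m))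

theorem sh_bx {L m : ℕ} {v : Vtx} {g : Edg} (hg : g ∈ boxE (16 * L * m)) : sh v g ∈ bx L m v := by
  obtain ⟨x, y, b⟩ := g
  unfold bx
  rw [LSym.mem_mp]
  simp only [sh, trl_φs, add_sub_cancel_right]
  exact hg

theorem PA_local {L m : ℕ} (hL : 1 ≤ L) {v : Vtx} {β : Bool} {S : Finset Edg}
    (hS : bx L m v ⊆ S) (F : Finset Edg) : PA L m v β F ↔ PA L m v β (F ∩ S) := by
  have hb : 4 * L * m ≤ 16 * L * m := by
    have : 4 * L * m = 4 * (L * m) := by ring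
    have : 16 * L * m = 16 * (L * m) := by ring
    omega
  have hm : m ≤ 16 * L * m := by
    have := Nat.le_mul_of_pos_left m hL
    have : 16 * L * m = 16 * (L * m) := by ring
    omega
  have hin : ∀ g ∈ boxE (16 * L * m), sh v g ∈ S := fun g hg => hS (sh_bx hg)
  constructor
  · intro h
    exact PA_mono (fun g hg hgF => Finset.mem_inter.2 ⟨hgF, hin g (XV_sub hb hm hg)⟩)
      (fun g _ hgG => (Finset.mem_inter.1 hgG).1) h
  · intro h
    exact PA_mono (fun g _ hgF => (Finset.mem_inter.1 hgF).1)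
      (fun g hg hgG => Finset.mem_inter.2 ⟨hgG, hin g (XH_sub hb hm hg)⟩) h

theorem pr_PA {q : ℝ} {L m : ℕ} (hL : 1 ≤ L) {v : Vtx} {β : Bool} {S : Finset Edg}
    (hS : bx L m v ⊆ S) : PQ q S (PA L m v β) = PQ q (boxE (16 * L * m))
      (fun F => Plus (4 * L * m) m (16 * L * m) (e0 β) ↑F) := by
  have h1 : PQ q S (PA L m v β) = PQ q (bx L m v) (PA L m v β) :=
    Pr_local hS (fun F _ => PA_local hL (Finset.Subset.refl _) F)
  rw [h1]
  unfold bx PQ
  rw [LSym.pr]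
  apply Pr_congr
  intro F _
  unfold PA
  rw [shc_mp]

theorem mem_bx {L m : ℕ} {v : Vtx} {x y : ℤ} {b : Bool} :
    ((x, y, b) : Edg) ∈ bx L m v ↔ ((x - v.1, y - v.2, b) : Edg) ∈ boxE (16 * L * m) := by
  unfold bx
  rw [LSym.mem_mp, trl_φs]

theorem bx_disj {L m : ℕ} {v1 v2 : ℤ} (h : 32 * ((L * m : ℕ) : ℤ) < v1) :
    Disjoint (bx L m (0, 0)) (bx L m (v1, v2)) := by
  have e16 : ((16 * L * m : ℕ) : ℤ) = 16 * ((L * m : ℕ) : ℤ) := by push_cast; ring
  rw [Finset.disjoint_left]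
  rintro ⟨x, y, _ | _⟩ h1 h2
  · rw [mem_bx] at h1 h2
    unfold boxE at h1 h2
    rw [mem_RE_false] at h1 h2
    simp only at h1 h2
    omega
  · rw [mem_bx] at h1 h2
    unfold boxE at h1 h2
    rw [mem_RE_true] at h1 h2
    simp only at h1 h2
    omega

theorem bx_sub {L m : ℕ} {v : Vtx} {R : ℕ} (h1 : -(R:ℤ) ≤ v.1 - 16 * ((L * m : ℕ) : ℤ))
    (h2 : v.1 + 16 * ((L * m : ℕ) : ℤ) ≤ R) (h3 : -(R:ℤ) ≤ v.2 - 16 * ((L * m : ℕ) : ℤ))
    (h4 : v.2 + 16 * ((L * m : ℕ) : ℤ) ≤ R) : bx L m v ⊆ boxE R := by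
  have e16 : ((16 * L * m : ℕ) : ℤ) = 16 * ((L * m : ℕ) : ℤ) := by push_cast; ring
  rintro ⟨x, y, _ | _⟩ h
  · rw [mem_bx] at h
    unfold boxE at h ⊢
    rw [mem_RE_false] at h ⊢
    omega
  · rw [mem_bx] at h
    unfold boxE at h ⊢
    rw [mem_RE_true] at h ⊢
    omega

/-- Probability of the whole structure. -/
theorem pr_all {q x y : ℝ} (h0 : 0 ≤ q) (h1 : q ≤ 1) (hx0 : 0 ≤ x) (hy0 : 0 ≤ y) {L m : ℕ}
    (h2 : 2 ≤ L) (h64 : 64 ≤ m) {U v1 v2 yl yh : ℤ} (hU : U = (L * m : ℕ))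
    (P : Pm U v1 v2 yl yh) {R : ℕ} (hR : (R : ℤ) = v1) (β β' : Bool)
    (hx : ∀ w h : ℤ, 1 ≤ w → w ≤ 2 * v1 + 100 * U → U ≤ h → x ≤ hh q w h)
    (hx' : ∀ w h : ℤ, 1 ≤ w → w ≤ 2 * v1 + 100 * U → U ≤ h → x ≤ hh (1 - q) w h)
    (hy : ∀ b : Bool, y ≤ PQ q (boxE (16 * L * m))
      (fun F => Plus (4 * L * m) m (16 * L * m) (e0 b) ↑F)) :
    y ^ 2 * x ^ 18 ≤ PQ q (boxE (2 * R)) (fun F => ((PA L m (0, 0) β F ∧ PA L m (v1, v2) β' F) ∧
      EO U v1 v2 yl yh F) ∧ ED U v1 v2 yl yh F) := by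
  have ok := okq h0 h1
  obtain ⟨U2, pv, pl1, pl2, pl3, ph1, ph2, ph3⟩ := id P
  have s1 : bx L m (0, 0) ⊆ boxE (2 * R) := by
    apply bx_sub <;> simp only <;> push_cast <;> push_cast at hU <;> omega
  have s2 : bx L m (v1, v2) ⊆ boxE (2 * R) := by
    apply bx_sub <;> simp only <;> push_cast <;> push_cast at hU <;> omega
  have hLm : 1 ≤ L := by omega
  -- the two plus events
  have a1 : y ^ 2 ≤ PQ q (boxE (2 * R)) (fun F => PA L m (0, 0) β F ∧ PA L m (v1, v2) β' F) := by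
    have e : PQ q (boxE (2 * R)) (fun F => PA L m (0, 0) β F ∧ PA L m (v1, v2) β' F) =
        PQ q (boxE (2 * R)) (PA L m (0, 0) β) * PQ q (boxE (2 * R)) (PA L m (v1, v2) β') :=
      Pr_indep s1 s2 (bx_disj (by rw [← hU]; omega))
        (fun F _ => PA_local hLm (Finset.Subset.refl _) F)
        (fun F _ => PA_local hLm (Finset.Subset.refl _) F)
    rw [e, pr_PA hLm s1, pr_PA hLm s2, pow_two]
    exact mul_le_mul (hy β) (hy β') hy0 (hy0.trans (hy β))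
  have hb : ((4 * L * m : ℕ) : ℤ) = 4 * U := by rw [hU]; push_cast; ring
  have hN : ((16 * L * m : ℕ) : ℤ) = 16 * U := by rw [hU]; push_cast; ring
  have hw : ((m : ℕ) : ℤ) ≤ U := by
    rw [hU]
    exact_mod_cast Nat.le_mul_of_pos_left m (by omega)
  -- the open corridors
  have a2 : PQ q (boxE (2 * R)) (fun F => PA L m (0, 0) β F ∧ PA L m (v1, v2) β' F) *
      PQ q (boxE (2 * R)) (EO U v1 v2 yl yh) ≤
      PQ q (boxE (2 * R)) (fun F => (PA L m (0, 0) β F ∧ PA L m (v1, v2) β' F) ∧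
        EO U v1 v2 yl yh F) := by
    apply glue_incr ok (Ro_sub P hR)
    · rintro F G _ hFG hGU ⟨k1, k2⟩
      constructor
      · refine PA_mono (fun g _ hg => hFG hg) (fun g hg hgG => ?_) k1
        rcases Finset.mem_union.1 (hGU hgG) with h | h
        · exact h
        · exact absurd h (XH_Ro P hb hw hN hg).1
      · refine PA_mono (fun g _ hg => hFG hg) (fun g hg hgG => ?_) k2
        rcases Finset.mem_union.1 (hGU hgG) with h | h
        · exact h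
        · exact absurd h (XH_Ro P hb hw hN hg).2
    · exact EO_incr
    · exact EO_local
  -- the dual corridors
  have a3 : PQ q (boxE (2 * R)) (fun F => (PA L m (0, 0) β F ∧ PA L m (v1, v2) β' F) ∧
        EO U v1 v2 yl yh F) * PQ q (boxE (2 * R)) (ED U v1 v2 yl yh) ≤
      PQ q (boxE (2 * R)) (fun F => ((PA L m (0, 0) β F ∧ PA L m (v1, v2) β' F) ∧
        EO U v1 v2 yl yh F) ∧ ED U v1 v2 yl yh F) := by
    apply glue_decr ok (Rd_sub P hR)
    · rintro F G _ hGF hFU ⟨⟨k1, k2⟩, k3⟩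
      refine ⟨⟨?_, ?_⟩, ?_⟩
      · refine PA_mono (fun g hg hgF => ?_) (fun g _ hg => hGF hg) k1
        rcases Finset.mem_union.1 (hFU hgF) with h | h
        · exact h
        · exact absurd h (XV_Rd P hb hw hN hg).1
      · refine PA_mono (fun g hg hgF => ?_) (fun g _ hg => hGF hg) k2
        rcases Finset.mem_union.1 (hFU hgF) with h | h
        · exact h
        · exact absurd h (XV_Rd P hb hw hN hg).2
      · rw [EO_local] at k3 ⊢
        refine EO_incr _ _ ?_ k3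
        intro g hg
        rw [Finset.mem_inter] at hg ⊢
        refine ⟨?_, hg.2⟩
        rcases Finset.mem_union.1 (hFU hg.1) with h | h
        · exact h
        · exact absurd h (Ro_Rd P hg.2)
    · exact ED_decr
    · exact ED_local
  have b1 := pr_EO h0 h1 hx0 P (Ro_sub P hR) hx
  have b2 := pr_ED h0 h1 hx0 P (Rd_sub P hR) hx'
  have n1 : 0 ≤ PQ q (boxE (2 * R)) (EO U v1 v2 yl yh) := Pr_nonneg ok _ _
  have n2 : 0 ≤ PQ q (boxE (2 * R)) (ED U v1 v2 yl yh) := Pr_nonneg ok _ _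
  have n3 : 0 ≤ PQ q (boxE (2 * R)) (fun F => PA L m (0, 0) β F ∧ PA L m (v1, v2) β' F) :=
    Pr_nonneg ok _ _
  refine le_trans ?_ a3
  have e : y ^ 2 * x ^ 18 = (y ^ 2 * x ^ 10) * x ^ 8 := by ring
  rw [e]
  refine mul_le_mul ?_ b2 (by positivity) (Pr_nonneg ok _ _)
  exact (mul_le_mul a1 b1 (by positivity) n3).trans a2

/-- The lower bound in the infinite lattice. -/
theorem jp_ge (p : unitInterval) {x y : ℝ} (hx0 : 0 ≤ x) (hy0 : 0 ≤ y) {L m : ℕ}
    (h2 : 2 ≤ L) (h64 : 64 ≤ m) {U v1 v2 yl yh : ℤ} (hU : U = (L * m : ℕ))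
    (P : Pm U v1 v2 yl yh) (β β' : Bool)
    (hx : ∀ w h : ℤ, 1 ≤ w → w ≤ 2 * v1 + 100 * U → U ≤ h → x ≤ hh p w h)
    (hx' : ∀ w h : ℤ, 1 ≤ w → w ≤ 2 * v1 + 100 * U → U ≤ h → x ≤ hh (1 - p) w h)
    (hy : ∀ b : Bool, y ≤ PQ p (boxE (16 * L * m))
      (fun F => Plus (4 * L * m) m (16 * L * m) (e0 b) ↑F)) :
    y ^ 2 * x ^ 18 ≤ (bondLaw p).real {ω | JP (0, 0, β) (v1, v2, β') (opn ω)} := by
  obtain ⟨U2, pv, pl1, pl2, pl3, ph1, ph2, ph3⟩ := id P
  obtain ⟨R, hR⟩ : ∃ R : ℕ, (R : ℤ) = v1 := ⟨v1.toNat, by omega⟩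
  refine (pr_all p.2.1 p.2.2 hx0 hy0 h2 h64 hU P hR β β' hx hx' hy).trans ?_
  unfold PQ
  rw [← law_event p]
  refine measureReal_mono ?_
  rintro ω ⟨⟨⟨k1, k2⟩, k3⟩, k4⟩
  have hLm : 1 ≤ L := by omega
  have hFH : (↑(FF (boxE (2 * R)) ω) : Set Edg) ⊆ opn ω := by
    rw [FF_coe]; exact Set.inter_subset_left
  have s1 : bx L m (0, 0) ⊆ boxE (2 * R) := by
    apply bx_sub <;> simp only <;> push_cast <;> push_cast at hU <;> omega
  have s2 : bx L m (v1, v2) ⊆ boxE (2 * R) := by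
    apply bx_sub <;> simp only <;> push_cast <;> push_cast at hU <;> omega
  have hbb : 4 * L * m ≤ 16 * L * m := by
    have : 4 * L * m = 4 * (L * m) := by ring
    have : 16 * L * m = 16 * (L * m) := by ring
    omega
  have hmb : m ≤ 16 * L * m := by
    have := Nat.le_mul_of_pos_left m hLm
    have : 16 * L * m = 16 * (L * m) := by ring
    omega
  have tr : ∀ (v : Vtx) (b : Bool), bx L m v ⊆ boxE (2 * R) → PA L m v b (FF (boxE (2 * R)) ω) →
      Plus (4 * L * m) m (16 * L * m) (e0 b) (shc v (opn ω)) := by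
    intro v b hs hP
    refine plus_mono (fun g hg hgF => ?_) (fun g hg hgG => ?_) hP
    · exact hFH hgF
    · have : sh v g ∈ opn ω := hgG
      exact Finset.mem_coe.2 (mem_FF.2 ⟨hs (sh_bx (XH_sub hbb hmb hg)), this⟩)
  refine jp_det h2 h64 hU P hFH ?_ (tr _ _ s1 k1) (tr _ _ s2 k2) k3.1 k3.2 k4.1 k4.2
  intro a b c d h q1 q2 q3 q4 hm hn hH
  apply hn
  rw [mem_FF]
  refine ⟨?_, hH⟩
  unfold boxE
  obtain ⟨x, y, _ | _⟩ := h
  · rw [mem_RE_false] at hm ⊢; push_cast; omega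
  · rw [mem_RE_true] at hm ⊢; push_cast; omega

end Pool.Agent.W2helper75.EC
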