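import Pool.Agent.W2helper75.EC.Jp1
import Pool.Agent.W2helper77.TP.Near

/-!
Lower bound for the probability that two edges are jointly pivotal, near the critical point.
-/

set_option autoImplicit false
set_option maxHeartbeats 1000000

namespace Pool.Agent.W2helper75.EC

open H974 H12S Finset MeasureTheory
open Pool.Agent.W92.DP Pool.Agent.W2helper77.TP

/-- A window which is large enough. -/
theorem window {b : ℝ} (hb : 0 < b) (W : ℕ) (hW : 8 ≤ W) : ∃ δ : ℝ, 0 < δ ∧ ∀ s : ℝ, 0 ≤ s →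
    s ≤ δ → ∀ v : ℕ, ∃ n : ℕ, W ≤ n ∧ s ≤ b * (n:ℝ) ^ (-(3/4 : ℝ)) ∧
      (v:ℝ) ≤ n * (1 + 2 * b ^ (-(4/3) : ℝ) * (v * s ^ (4/3 : ℝ))) := by
  have hW0 : (0:ℝ) < W := by
    have : 0 < W := by omega
    exact_mod_cast this
  refine ⟨min (b / 8) (b * (2 * W : ℝ) ^ (-(3/4) : ℝ)), lt_min (by positivity) (by positivity), ?_⟩
  intro s hs hsd v
  rcases eq_or_lt_of_le hs with hz | hp
  · refine ⟨max W v, le_max_left _ _, by rw [← hz]; positivity, ?_⟩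
    rw [← hz, Real.zero_rpow (by norm_num)]
    simp only [mul_zero, add_zero, mul_one]
    exact_mod_cast le_max_right W v
  · obtain ⟨n, hn8, hn1, hn2, hn3⟩ := scale hb hp (by
      have := hsd.trans (min_le_left _ _)
      linarith)
    refine ⟨n, ?_, hn1, ?_⟩
    · have h1 : s ≤ b * (2 * W : ℝ) ^ (-(3/4) : ℝ) := hsd.trans (min_le_right _ _)
      have h2 : (2 * W : ℝ) ≤ b ^ (4/3 : ℝ) * s ^ (-(4/3) : ℝ) := by
        have h3 : s ^ (4/3 : ℝ) ≤ b ^ (4/3 : ℝ) * (2 * W : ℝ) ^ (-1 : ℝ) := by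
          calc s ^ (4/3 : ℝ) ≤ (b * (2 * W : ℝ) ^ (-(3/4) : ℝ)) ^ (4/3 : ℝ) :=
                Real.rpow_le_rpow hs h1 (by norm_num)
            _ = b ^ (4/3 : ℝ) * (2 * W : ℝ) ^ (-1 : ℝ) := by
                rw [Real.mul_rpow hb.le (by positivity), ← Real.rpow_mul (by positivity)]
                norm_num
        rw [Real.rpow_neg_one, ← div_eq_mul_inv, le_div_iff₀ (by positivity)] at h3
        rw [Real.rpow_neg hs, ← div_eq_mul_inv, le_div_iff₀ (by positivity)]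
        linarith
      have h4 : (2 * W : ℝ) ≤ 2 * n := h2.trans hn3
      have h5 : (W:ℝ) ≤ n := by linarith
      exact_mod_cast h5
    · have h1 : 1 ≤ 2 * n * b ^ (-(4/3) : ℝ) * s ^ (4/3 : ℝ) := by
        rw [Real.rpow_neg hs, ← div_eq_mul_inv, div_le_iff₀ (by positivity)] at hn3
        rw [Real.rpow_neg hb.le]
        have hb' : 0 < b ^ (4/3 : ℝ) := by positivity
        calc (1:ℝ) = b ^ (4/3 : ℝ) * (b ^ (4/3 : ℝ))⁻¹ := by field_simp
          _ ≤ (2 * n * s ^ (4/3 : ℝ)) * (b ^ (4/3 : ℝ))⁻¹ :=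
              mul_le_mul_of_nonneg_right hn3 (by positivity)
          _ = _ := by ring
      have hv : (0:ℝ) ≤ v := Nat.cast_nonneg v
      have hn0 : (0:ℝ) ≤ n := Nat.cast_nonneg n
      have h2 := mul_le_mul_of_nonneg_left h1 hv
      nlinarith

/-- **Lower bound, oriented.** -/
theorem jp_low : ∃ (δ c K : ℝ) (R0 : ℕ), 0 < δ ∧ 0 < c ∧ 0 < K ∧ ∀ p : unitInterval,
    |(p:ℝ) - 1/2| ≤ δ → ∀ (R : ℕ) (v2 : ℤ) (β β' : Bool), R0 ≤ R → |v2| ≤ R →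
    c * (R:ℝ) ^ (-(5/2) : ℝ) * Real.exp (-(K * (R * |(p:ℝ) - 1/2| ^ (4/3 : ℝ)))) ≤
      (bondLaw p).real {ω | JP (0, 0, β) ((R:ℤ), v2, β') (opn ω)} := by
  obtain ⟨L, M, κ, b, c, hL, hM, hκ, hb, hc, hpl⟩ := plus_near
  obtain ⟨W, hW⟩ : ∃ W : ℕ, W = 16 * L * M := ⟨_, rfl⟩
  have hLM : 2 * 64 ≤ L * M := Nat.mul_le_mul hL hM
  have hW8 : 8 ≤ W := by
    have : 16 * L * M = 16 * (L * M) := by ring
    omega
  obtain ⟨δ, hδ, hwin⟩ := window hb W hW8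
  have hκ1 : κ ≤ 1 := by
    have h := (hpl 1 le_rfl (1/2) (by rw [sub_self, abs_zero]; positivity)).1.kle
    linarith
  obtain ⟨A, hA⟩ : ∃ A : ℝ, A = 72 * 64 * b ^ (-(4/3) : ℝ) := ⟨_, rfl⟩
  have hA0 : 0 < A := by rw [hA]; positivity
  have hl0 : 0 ≤ -Real.log κ := by
    have := Real.log_nonpos hκ.le hκ1
    linarith
  refine ⟨δ, c ^ 2 * κ ^ (22122 : ℝ), (-Real.log κ) * A + 1, 8 * W, hδ, by positivity,
    by positivity, ?_⟩
  intro p hp R v2 β β' hR hv2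
  obtain ⟨s, hs⟩ : ∃ s : ℝ, s = |(p:ℝ) - 1/2| := ⟨_, rfl⟩
  rw [← hs] at hp ⊢
  have hs0 : 0 ≤ s := by rw [hs]; exact abs_nonneg _
  obtain ⟨n, hWn, hsn, hvn⟩ := hwin s hs0 hp R
  obtain ⟨t, ht⟩ : ∃ t : ℝ, t = R * s ^ (4/3 : ℝ) := ⟨_, rfl⟩
  rw [← ht] at hvn ⊢
  have ht0 : 0 ≤ t := by rw [ht]; positivity
  obtain ⟨r, hr⟩ : ∃ r : ℕ, r = min (n / W) (R / (8 * W)) := ⟨_, rfl⟩
  have hW0 : 0 < W := by omega
  have r1 : 1 ≤ n / W := (Nat.one_le_div_iff hW0).2 hWn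
  have r2 : 1 ≤ R / (8 * W) := (Nat.one_le_div_iff (by omega)).2 hR
  have hr1 : 1 ≤ r := by rw [hr]; exact le_min r1 r2
  have hrn : W * r ≤ n := by
    calc W * r ≤ W * (n / W) := Nat.mul_le_mul_left _ (by rw [hr]; exact min_le_left _ _)
      _ ≤ n := Nat.mul_div_le n W
  have hrR : 8 * W * r ≤ R := by
    calc 8 * W * r ≤ 8 * W * (R / (8 * W)) :=
          Nat.mul_le_mul_left _ (by rw [hr]; exact min_le_right _ _)
      _ ≤ R := Nat.mul_div_le R (8 * W)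
  obtain ⟨m, hm⟩ : ∃ m : ℕ, m = M * r := ⟨_, rfl⟩
  obtain ⟨U, hU⟩ : ∃ U : ℕ, U = L * m := ⟨_, rfl⟩
  have h16 : 16 * L * m = W * r := by rw [hm, hW]; ring
  have h16U : 16 * U = W * r := by rw [← h16, hU]; ring
  have hm64 : 64 ≤ m := by rw [hm]; exact hM.trans (Nat.le_mul_of_pos_right _ hr1)
  have hU2 : 2 ≤ U := by
    rw [hU]
    calc 2 ≤ L := hL
      _ ≤ L * m := Nat.le_mul_of_pos_right _ (by omega)
  have hUR : 128 * U ≤ R := by
    have : 128 * U = 8 * (16 * U) := by ring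
    rw [this, h16U]
    calc 8 * (W * r) = 8 * W * r := by ring
      _ ≤ R := hrR
  have hmU : m ≤ U := by rw [hU]; exact Nat.le_mul_of_pos_left m (by omega)
  have hwr0 : (0:ℝ) < ((W * r : ℕ) : ℝ) := by
    have : 0 < W * r := Nat.mul_pos hW0 hr1
    exact_mod_cast this
  have hsw : s ≤ b * (((16 * L * (M * r) : ℕ)) : ℝ) ^ (-(3/4 : ℝ)) := by
    rw [← hm, h16]
    refine hsn.trans (mul_le_mul_of_nonneg_left ?_ hb.le)
    exact Real.rpow_le_rpow_of_nonpos hwr0 (by exact_mod_cast hrn) (by norm_num)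
  rw [hs] at hsw
  obtain ⟨hwi, hpl2⟩ := hpl r hr1 p hsw
  rw [← hm] at hwi hpl2
  -- the scale of the corridors
  have hK : (R:ℝ) ≤ U * (256 + 64 * b ^ (-(4/3) : ℝ) * t) := by
    have hbt : 0 ≤ b ^ (-(4/3) : ℝ) * t := by positivity
    have hU0 : (0:ℝ) ≤ U := Nat.cast_nonneg U
    rcases min_choice (n / W) (R / (8 * W)) with h | h
    · rw [← hr] at h
      have h3 : n ≤ 32 * U := by
        have h4 : n < W * (n / W) + W := Nat.lt_mul_div_succ n hW0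
        rw [← h] at h4
        have h5 : W ≤ W * r := Nat.le_mul_of_pos_right _ hr1
        omega
      have h6 : (n:ℝ) ≤ 32 * U := by exact_mod_cast h3
      have h7 : 0 ≤ 1 + 2 * b ^ (-(4/3) : ℝ) * t := by nlinarith
      calc (R:ℝ) ≤ n * (1 + 2 * b ^ (-(4/3) : ℝ) * t) := hvn
        _ ≤ (32 * U) * (1 + 2 * b ^ (-(4/3) : ℝ) * t) := mul_le_mul_of_nonneg_right h6 h7
        _ ≤ _ := by nlinarith
    · rw [← hr] at h
      have h3 : R ≤ 256 * U := by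
        have h4 : R < 8 * W * (R / (8 * W)) + 8 * W := Nat.lt_mul_div_succ R (by omega)
        rw [← h] at h4
        have h5 : W ≤ W * r := Nat.le_mul_of_pos_right _ hr1
        have h6 : 8 * W * r = 8 * (W * r) := by ring
        omega
      have h6 : (R:ℝ) ≤ 256 * U := by exact_mod_cast h3
      nlinarith [mul_nonneg hU0 hbt]
  have hU0 : 0 < U := by omega
  obtain ⟨K, hKd⟩ : ∃ K : ℕ, K = 2 * (R / U) + 102 := ⟨_, rfl⟩
  have hKU : 2 * (R:ℤ) + 100 * (U:ℤ) ≤ (K:ℤ) * (U:ℤ) := by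
    have h4 : R < U * (R / U) + U := Nat.lt_mul_div_succ R hU0
    have h5 : 2 * R + 100 * U ≤ K * U := by
      rw [hKd]
      nlinarith
    exact_mod_cast h5
  have hUW : U ≤ 16 * L * m := by
    rw [h16, ← h16U]; omega
  have hx : ∀ w h : ℤ, 1 ≤ w → w ≤ 2 * (R:ℤ) + 100 * (U:ℤ) → (U:ℤ) ≤ h →
      κ ^ (2 * K + 1) ≤ hh p w h := by
    intro w h h1 h2 h3
    exact hh_gen p.2.1 p.2.2 hκ hκ1 (by omega : 1 ≤ U) (hwi.pri U (by omega) hUW) h1
      (h2.trans hKU) h3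
  have hx' : ∀ w h : ℤ, 1 ≤ w → w ≤ 2 * (R:ℤ) + 100 * (U:ℤ) → (U:ℤ) ≤ h →
      κ ^ (2 * K + 1) ≤ hh (1 - p) w h := by
    intro w h h1 h2 h3
    have q0 : (0:ℝ) ≤ 1 - (p:ℝ) := by linarith [p.2.2]
    have q1 : 1 - (p:ℝ) ≤ 1 := by linarith [p.2.1]
    exact hh_gen q0 q1 hκ hκ1 (by omega : 1 ≤ U) (hwi.dua U (by omega) hUW) h1
      (h2.trans hKU) h3
  have hv2' := abs_le.1 hv2
  have hPm : Pm (U:ℤ) (R:ℤ) v2 (min 0 v2) (max 0 v2) := by
    refine ⟨by omega, by omega, by omega, by omega, by omega, by omega, by omega, by omega⟩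
  have main := jp_ge p (x := κ ^ (2 * K + 1)) (y := c * ((m : ℕ) : ℝ) ^ (-(5/4) : ℝ))
    (by positivity) (by positivity) hL hm64 (by rw [hU]) hPm β β' hx hx' hpl2
  refine le_trans ?_ main
  have hm0 : (0:ℝ) < m := by
    have : 0 < m := by omega
    exact_mod_cast this
  have hR0 : (0:ℝ) < R := by
    have : 0 < R := by omega
    exact_mod_cast this
  have e1 : (c * (m:ℝ) ^ (-(5/4) : ℝ)) ^ 2 = c ^ 2 * (m:ℝ) ^ (-(5/2) : ℝ) := by
    rw [mul_pow, ← Real.rpow_natCast ((m:ℝ) ^ (-(5/4) : ℝ)), ← Real.rpow_mul hm0.le]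
    norm_num
  have e2 : (R:ℝ) ^ (-(5/2) : ℝ) ≤ (m:ℝ) ^ (-(5/2) : ℝ) := by
    apply Real.rpow_le_rpow_of_nonpos hm0 _ (by norm_num)
    have : m ≤ R := by omega
    exact_mod_cast this
  have e3 : (κ ^ (2 * K + 1)) ^ 18 = κ ^ (72 * (R / U) + 3690) := by
    rw [← pow_mul]
    congr 1
    rw [hKd]
    ring
  have e4 : ((72 * (R / U) + 3690 : ℕ) : ℝ) ≤ A * t + 22122 := by
    have h1 : (((R / U : ℕ)) : ℝ) ≤ 256 + 64 * b ^ (-(4/3) : ℝ) * t := by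
      refine (Nat.cast_div_le).trans ?_
      rw [div_le_iff₀ (by exact_mod_cast hU0)]
      linarith
    push_cast
    rw [hA]
    linarith
  have e5 := pow_low hκ hκ1 e4
  rw [e1, e3]
  have e6 : Real.exp (-(((-Real.log κ) * A + 1) * t)) ≤ Real.exp (-((-Real.log κ) * A * t)) := by
    apply Real.exp_le_exp.mpr
    nlinarith
  calc c ^ 2 * κ ^ (22122 : ℝ) * (R:ℝ) ^ (-(5/2) : ℝ) *
        Real.exp (-(((-Real.log κ) * A + 1) * t))
      ≤ c ^ 2 * κ ^ (22122 : ℝ) * (R:ℝ) ^ (-(5/2) : ℝ) * Real.exp (-((-Real.log κ) * A * t)) :=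
        mul_le_mul_of_nonneg_left e6 (by positivity)
    _ = (c ^ 2 * (R:ℝ) ^ (-(5/2) : ℝ)) * (κ ^ (22122 : ℝ) *
          Real.exp (-((-Real.log κ) * A * t))) := by ring
    _ ≤ (c ^ 2 * (m:ℝ) ^ (-(5/2) : ℝ)) * κ ^ (72 * (R / U) + 3690) := by
        apply mul_le_mul _ e5 (by positivity) (by positivity)
        exact mul_le_mul_of_nonneg_left e2 (by positivity)

end Pool.Agent.W2helper75.EC
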