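import Pool.Agent.W2helper75.EC.Sep
import Pool.Agent.H12R2.Sep.PlusFin
import Pool.Agent.W424.NC.NearC

/-!
Lower bound for the plus event at all parameters in the near-critical window.
-/

set_option autoImplicit false
set_option maxHeartbeats 1000000

namespace Pool.Agent.W2helper75.EC

open H974 H12S Finset

/-- one scale, with a small error -/
theorem one_scale_small (κ : ℝ) (hκ : 0 < κ) (ε : ℝ) (hε : 0 < ε) :
    ∃ (L M : ℕ) (K : ℝ), 2 ≤ L ∧ 64 ≤ M ∧ 0 < K ∧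
    ∀ (r : ℕ), 1 ≤ r → ∀ q : ℝ, Win q κ (16 * L * (M * r)) → ∀ β : Bool,
      a4b q (4 * L * (M * r)) β ≤ K * PQ q (boxE (16 * L * (M * r)))
          (fun F => Plus (4 * L * (M * r)) (M * r) (16 * L * (M * r)) (e0 β) ↑F) +
        3 * ε / (32 * (192 * L : ℝ) ^ (5/4 : ℝ)) * a4 q ((M * r) / 8) := by
  obtain ⟨C, c, hC, hc, hex⟩ := exit_prob2 κ hκ
  obtain ⟨L, hL, hLK⟩ := KY_choose_L (C / ε) c (5/4) hc
  have hL0 : (0:ℝ) < L := by
    have : 0 < L := by omega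
    exact_mod_cast this
  obtain ⟨K, hK⟩ : ∃ K : ℝ, K = (192 * L : ℝ) ^ (5/4 : ℝ) := ⟨_, rfl⟩
  have hK0 : 0 < K := by rw [hK]; positivity
  rw [show (64 * (3 * L : ℕ) : ℝ) = 192 * L by push_cast; ring, ← hK] at hLK
  obtain ⟨M1, M2, N, hM1, hM2, hex2⟩ := hex L (ε / (32 * K)) hL (by positivity)
  obtain ⟨cd, hcd⟩ : ∃ cd : ℕ, cd = (2 * (2 * N + 1)) * (2 * (2 * N + 1)) := ⟨_, rfl⟩
  have hcd0 : (0:ℝ) < cd := by
    have : 0 < cd := by rw [hcd]; positivity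
    exact_mod_cast this
  obtain ⟨Mr, c', hMr, hc', hglue⟩ := plus_glue κ hκ L M1 M2 hL hM1 hM2 (ε / (32 * K * cd))
    (by positivity)
  refine ⟨L, M2 * Mr, cd / c', hL, ?_, by positivity, ?_⟩
  · calc 64 ≤ M1 := hM1
      _ ≤ M2 := by omega
      _ ≤ M2 * Mr := Nat.le_mul_of_pos_right _ hMr
  · intro r' hr' q hW β
    have h0 := hW.q0
    have h1 := hW.q1
    have ok := okq h0 h1
    obtain ⟨r, hr⟩ : ∃ r : ℕ, r = Mr * r' := ⟨_, rfl⟩
    obtain ⟨m, hm⟩ : ∃ m : ℕ, m = M2 * r := ⟨_, rfl⟩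
    have hmm : M2 * Mr * r' = m := by rw [hm, hr]; ring
    rw [hmm] at hW ⊢
    have hr1 : Mr ≤ r := by rw [hr]; exact Nat.le_mul_of_pos_right _ hr'
    have hM2p : 0 < M2 := by omega
    have hmM : M2 ≤ m := by rw [hm]; exact Nat.le_mul_of_pos_right _ (by omega)
    have hm64 : 64 ≤ m := by omega
    have hmr : m / M2 = r := by rw [hm]; exact Nat.mul_div_cancel_left _ hM2p
    have hrpos : 0 < r := by omega
    have ha8 : 0 ≤ a4 q (m / 8) := a4_nonneg h0 h1 _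
    have hcell : ∀ p ∈ prs L m r N, |2 * p.1.2| ≤ (L:ℤ) * M2 + 1 ∧
        |2 * p.2.2| ≤ (L:ℤ) * M2 + 1 := by
      intro p hp
      unfold prs at hp
      rw [Finset.mem_filter] at hp
      obtain ⟨-, g1, g2⟩ := hp
      have hrz : (0:ℤ) < r := by exact_mod_cast hrpos
      have key : ∀ x : ℤ, |2 * (r:ℤ) * x| ≤ ((L * m : ℕ) : ℤ) + (r:ℤ) →
          |2 * x| ≤ (L:ℤ) * M2 + 1 := by
        intro x hx
        have e1 : |2 * (r:ℤ) * x| = (r:ℤ) * |2 * x| := by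
          rw [show 2 * (r:ℤ) * x = (r:ℤ) * (2 * x) by ring, abs_mul, abs_of_pos hrz]
        have e2 : ((L * m : ℕ) : ℤ) + (r:ℤ) = (r:ℤ) * ((L:ℤ) * M2 + 1) := by
          rw [hm]; push_cast; ring
        rw [e1, e2] at hx
        exact le_of_mul_le_mul_left hx hrz
      exact ⟨key _ g1, key _ g2⟩
    obtain ⟨P, hP⟩ : ∃ P : ℝ, P = PQ q (boxE (16 * L * m))
      (fun F => H12S.Plus (4 * L * m) m (16 * L * m) (e0 β) ↑F) := ⟨_, rfl⟩
    rw [← hP, ← hK]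
    have s1 : a4b q (4 * L * m) β ≤ PQ q (SR L m)
        (fun F => A4 (-(2 * L * m : ℕ)) (2 * L * m : ℕ) (-m) m (e0 β) ↑F) :=
      thin_ge h0 h1 hL hm64 (x := 0) (y := 0) (b := β)
        (kc_e0_mem hm64 β)
    have s2 := hex2 q (16 * L * m) hW m hmM (by nlinarith) (e0 β) (kc_e0_mem hm64 β)
    rw [hmr] at s2
    have s3 : ∀ p ∈ prs L m r N, PQ q (SR L m) (fun F =>
        Sev L m r (m / M1) p.1.1 (2 * r * p.1.2) p.2.1 (2 * r * p.2.2) (e0 β) ↑F) ≤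
        P / c' + ε / (32 * K * cd) * a4 q (m / 8) := by
      intro p hp
      have g1 := hglue q (16 * L * m) hW r m hr1 hm le_rfl p.1.1 p.2.1 p.1.2 p.2.2
        (hcell p hp).1 (hcell p hp).2 β
      rw [← hP] at g1
      rw [mul_comm, ← le_div_iff₀ hc'] at g1
      linarith
    have hcard : ((prs L m r N).card : ℝ) ≤ cd := by
      rw [hcd]
      exact_mod_cast kc_prs_card L m r N
    have hP0 : 0 ≤ P := by
      rw [hP]
      exact Pr_nonneg ok _ _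
    have s4 : ∑ p ∈ prs L m r N, PQ q (SR L m) (fun F =>
        Sev L m r (m / M1) p.1.1 (2 * r * p.1.2) p.2.1 (2 * r * p.2.2) (e0 β) ↑F) ≤
        cd * (P / c' + ε / (32 * K * cd) * a4 q (m / 8)) := by
      refine (Finset.sum_le_card_nsmul _ _ _ s3).trans ?_
      rw [nsmul_eq_mul]
      exact mul_le_mul_of_nonneg_right hcard (by positivity)
    have e1 : cd * (ε / (32 * K * cd) * a4 q (m / 8)) = ε / (32 * K) * a4 q (m / 8) := by
      field_simp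
    have e2 : C * Real.exp (-c * L) ≤ ε / (32 * K) := by
      rw [div_mul_eq_div_div, le_div_iff₀ hK0]
      have h3 : C / ε * Real.exp (-c * L) * K = (C * Real.exp (-c * L) * K) / ε := by ring
      rw [h3, div_le_iff₀ hε] at hLK
      linarith
    have e3 : C * Real.exp (-c * L) * a4 q (m / 8) ≤ ε / (32 * K) * a4 q (m / 8) :=
      mul_le_mul_of_nonneg_right e2 ha8
    have e4 : 3 * ε / (32 * K) * a4 q (m / 8) = ε / (32 * K) * a4 q (m / 8) +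
      ε / (32 * K) * a4 q (m / 8) + ε / (32 * K) * a4 q (m / 8) := by ring
    rw [e4]
    have s5 := s1.trans s2
    rw [mul_add, e1] at s4
    rw [add_mul] at s5
    have e5 : (cd:ℝ) * (P / c') = cd / c' * P := by ring
    rw [e5] at s4
    linarith


/-- The two orientations have the same four-arm probability. -/
theorem a4b_sym (q : ℝ) (k : ℕ) : a4b q k true = a4b q k false := by
  have hbx : (boxE k) = tps.mp (boxE k) := by
    unfold boxE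
    rw [tps_RE]
  unfold a4b PQ
  conv_lhs => rw [hbx]
  rw [LSym.pr]
  apply Pr_congr
  intro F _
  have e1 : ((↑(tps.mp F) : Set Edg) ∩ ↑(RE (-(k:ℤ)) k (-k) k)) \ {e0 true} =
      tps.φ '' (((↑F : Set Edg) ∩ ↑(RE (-(k:ℤ)) k (-k) k)) \ {e0 false}) := by
    rw [Set.image_sdiff tps.φ.injective, Set.image_inter tps.φ.injective, ← LSym.coe_mp,
      ← LSym.coe_mp, tps_RE, Set.image_singleton]
    rfl
  have e2 : ∀ w : Vtx, tps.ψ w ∈ bdR (-(k:ℤ)) k (-k) k ↔ w ∈ bdR (-(k:ℤ)) k (-k) k := by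
    rintro ⟨x, y⟩
    rw [tps_ψ]
    unfold bdR inR
    simp only [Set.mem_ofPred_eq]
    omega
  have key : ∀ a : Vtx, (∃ w ∈ bdR (-(k:ℤ)) k (-k) k,
      Reach (tps.φ '' (((↑F : Set Edg) ∩ ↑(RE (-(k:ℤ)) k (-k) k)) \ {e0 false})) (tps.ψ a) w) ↔
      ∃ w ∈ bdR (-(k:ℤ)) k (-k) k,
        Reach (((↑F : Set Edg) ∩ ↑(RE (-(k:ℤ)) k (-k) k)) \ {e0 false}) a w := by
    intro a
    constructor
    · rintro ⟨w, hw, h⟩
      refine ⟨tps.ψ.symm w, ?_, ?_⟩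
      · rw [← e2, Equiv.apply_symm_apply]; exact hw
      · rw [← tps.reach_iff, Equiv.apply_symm_apply]; exact h
    · rintro ⟨w, hw, h⟩
      exact ⟨tps.ψ w, (e2 w).2 hw, tps.reach h⟩
  unfold A4
  rw [e1]
  have s1 : src (e0 true) = tps.ψ (src (e0 false)) := rfl
  have s2 : tgt (e0 true) = tps.ψ (tgt (e0 false)) := rfl
  rw [s1, s2, key, key, tps.reach_iff]

/-- Plus events in the near-critical window. -/
theorem plus_near : ∃ (L M : ℕ) (κ b c : ℝ), 2 ≤ L ∧ 64 ≤ M ∧ 0 < κ ∧ 0 < b ∧ 0 < c ∧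
    ∀ r : ℕ, 1 ≤ r → ∀ q : ℝ,
      |q - 1/2| ≤ b * (((16 * L * (M * r) : ℕ)) : ℝ) ^ (-(3/4 : ℝ)) →
      Win q κ (16 * L * (M * r)) ∧ ∀ β : Bool, c * ((M * r : ℕ) : ℝ) ^ (-(5/4) : ℝ) ≤
        PQ q (boxE (16 * L * (M * r)))
          (fun F => Plus (4 * L * (M * r)) (M * r) (16 * L * (M * r)) (e0 β) ↑F) := by
  obtain ⟨κ, b, c0, C0, hκ, hb, hc0, hC0, hn⟩ := Pool.Agent.W424.NC.nearS
  obtain ⟨L, M, K, hL, hM, hK, hone⟩ := one_scale_small κ hκ (c0 / C0) (by positivity)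
  have hL0 : (0:ℝ) < L := by
    have : 0 < L := by omega
    exact_mod_cast this
  refine ⟨L, M, κ, b, c0 / 4 * (4 * L : ℝ) ^ (-(5/4) : ℝ) / K, hL, hM, hκ, hb, by positivity, ?_⟩
  intro r hr q hq
  obtain ⟨m, hm⟩ : ∃ m : ℕ, m = M * r := ⟨_, rfl⟩
  have hm64 : 64 ≤ m := by
    rw [hm]
    exact hM.trans (Nat.le_mul_of_pos_right _ hr)
  have hm0 : (0:ℝ) < m := by
    have : 0 < m := by omega
    exact_mod_cast this
  rw [← hm] at hq ⊢
  have hLm : m ≤ L * m := Nat.le_mul_of_pos_left m (by omega)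
  have e16 : 16 * L * m = 16 * (L * m) := by ring
  have e4 : 4 * L * m = 4 * (L * m) := by ring
  obtain ⟨hW, ha⟩ := hn (16 * L * m) (by omega) q hq
  refine ⟨hW, fun β => ?_⟩
  have hx := hone r hr q (by rw [← hm]; exact hW) β
  rw [← hm] at hx
  obtain ⟨P1, hP1⟩ : ∃ P : ℝ, P = PQ q (boxE (16 * L * m))
    (fun F => H12S.Plus (4 * L * m) m (16 * L * m) (e0 β) ↑F) := ⟨_, rfl⟩
  rw [← hP1] at hx ⊢
  have h3 := (ha (4 * L * m) (by omega) (by omega)).1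
  rw [a4_eq] at h3
  have hsym : a4b q (4 * L * m) true + a4b q (4 * L * m) false = 2 * a4b q (4 * L * m) β := by
    have := a4b_sym q (4 * L * m)
    cases β <;> linarith
  rw [hsym] at h3
  have h4 := (ha (m / 8) (by omega) (by omega)).2
  have hmp : 0 < (m:ℝ) ^ (-(5/4) : ℝ) := by positivity
  have e1 : ((4 * L * m : ℕ) : ℝ) ^ (-(5/4) : ℝ) =
      (4 * L : ℝ) ^ (-(5/4) : ℝ) * (m:ℝ) ^ (-(5/4) : ℝ) := by
    push_cast
    rw [Real.mul_rpow (by positivity) (by positivity)]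
  have e2 : ((m / 8 : ℕ) : ℝ) ^ (-(5/4) : ℝ) ≤
      (48:ℝ) ^ (5/4 : ℝ) * (m:ℝ) ^ (-(5/4) : ℝ) := by
    have g1 : (m:ℝ) / 48 ≤ ((m / 8 : ℕ) : ℝ) := by
      have g2 : m ≤ 48 * (m / 8) := by omega
      rw [div_le_iff₀ (by norm_num)]
      have : (m:ℝ) ≤ ((48 * (m / 8) : ℕ) : ℝ) := by exact_mod_cast g2
      push_cast at this
      linarith
    calc ((m / 8 : ℕ) : ℝ) ^ (-(5/4) : ℝ) ≤ ((m:ℝ) / 48) ^ (-(5/4) : ℝ) :=
          Real.rpow_le_rpow_of_nonpos (by positivity) g1 (by norm_num)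
      _ = (48:ℝ) ^ (5/4 : ℝ) * (m:ℝ) ^ (-(5/4) : ℝ) := by
          rw [Real.div_rpow hm0.le (by norm_num), Real.rpow_neg (by norm_num : (0:ℝ) ≤ 48)]
          field_simp
  have e3 : (192 * L : ℝ) ^ (5/4 : ℝ) = (48:ℝ) ^ (5/4 : ℝ) * (4 * L : ℝ) ^ (5/4 : ℝ) := by
    rw [← Real.mul_rpow (by norm_num) (by positivity)]
    congr 1
    ring
  have h5 : 3 * (c0 / C0) / (32 * (192 * L : ℝ) ^ (5/4 : ℝ)) * a4 q (m / 8) ≤
      c0 / 4 * ((4 * L : ℝ) ^ (-(5/4) : ℝ) * (m:ℝ) ^ (-(5/4) : ℝ)) := by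
    have k1 : 0 < (48:ℝ) ^ (5/4 : ℝ) := by positivity
    have k2 : 0 < (4 * L : ℝ) ^ (5/4 : ℝ) := by positivity
    calc 3 * (c0 / C0) / (32 * (192 * L : ℝ) ^ (5/4 : ℝ)) * a4 q (m / 8) ≤
          3 * (c0 / C0) / (32 * (192 * L : ℝ) ^ (5/4 : ℝ)) *
            (C0 * ((48:ℝ) ^ (5/4 : ℝ) * (m:ℝ) ^ (-(5/4) : ℝ))) := by
          apply mul_le_mul_of_nonneg_left _ (by positivity)
          exact h4.trans (mul_le_mul_of_nonneg_left e2 hC0.le)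
      _ = 3 / 32 * c0 * ((4 * L : ℝ) ^ (-(5/4) : ℝ) * (m:ℝ) ^ (-(5/4) : ℝ)) := by
          rw [e3, Real.rpow_neg (show (0:ℝ) ≤ 4 * L by positivity)]
          field_simp
      _ ≤ _ := by
          have k3 : 0 < (4 * L : ℝ) ^ (-(5/4) : ℝ) * (m:ℝ) ^ (-(5/4) : ℝ) := by positivity
          have k4 := mul_pos hc0 k3
          nlinarith
  rw [e1] at h3
  have h6 : c0 / 4 * ((4 * L : ℝ) ^ (-(5/4) : ℝ) * (m:ℝ) ^ (-(5/4) : ℝ)) ≤ K * P1 := by
    nlinarith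
  obtain ⟨A, hA⟩ : ∃ A : ℝ, A = (4 * L : ℝ) ^ (-(5/4) : ℝ) * (m:ℝ) ^ (-(5/4) : ℝ) := ⟨_, rfl⟩
  rw [← hA] at h6
  have h7 : c0 / 4 * (4 * L : ℝ) ^ (-(5/4) : ℝ) / K * (m:ℝ) ^ (-(5/4) : ℝ) = c0 / 4 * A / K := by
    rw [hA]; ring
  rw [h7, div_le_iff₀ hK]
  linarith

end Pool.Agent.W2helper75.EC
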