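import Pool.Agent.W2helper75.EC.Geo
import Pool.Agent.W2helper75.EC.Plus
import Pool.Agent.W2helper77.TP.Long
import Pool.Agent.H974R2.Infinite

/-!
Lower bound for the probability that two edges are jointly pivotal, at one scale.
-/

set_option autoImplicit false
set_option maxHeartbeats 1000000

namespace Pool.Agent.W2helper75.EC

open H974 H12S Finset MeasureTheory
open Pool.Agent.W92.DP Pool.Agent.W52.DPOne

/-! ### products -/

theorem hstep {q : ℝ} (h0 : 0 ≤ q) (h1 : q ≤ 1) {S : Finset Edg} {A B : Finset Edg → Prop}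
    (hA : ∀ F G : Finset Edg, F ⊆ G → A F → A G) (hB : ∀ F G : Finset Edg, F ⊆ G → B F → B G)
    {x y : ℝ} (hx : 0 ≤ x) (hy : 0 ≤ y) (h2 : x ≤ PQ q S A) (h3 : y ≤ PQ q S B) :
    x * y ≤ PQ q S (fun F => A F ∧ B F) :=
  (mul_le_mul h2 h3 hy (hx.trans h2)).trans
    (Pr_harris (okq h0 h1) (fun _ _ h _ hF => hA _ _ h hF) (fun _ _ h _ hF => hB _ _ h hF))

theorem dstep {q : ℝ} (h0 : 0 ≤ q) (h1 : q ≤ 1) {S : Finset Edg} {A B : Finset Edg → Prop}
    (hA : ∀ F G : Finset Edg, F ⊆ G → A G → A F) (hB : ∀ F G : Finset Edg, F ⊆ G → B G → B F)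
    {x y : ℝ} (hx : 0 ≤ x) (hy : 0 ≤ y) (h2 : x ≤ PQ q S A) (h3 : y ≤ PQ q S B) :
    x * y ≤ PQ q S (fun F => A F ∧ B F) :=
  (mul_le_mul h2 h3 hy (hx.trans h2)).trans
    (harris_decr (okq h0 h1) (fun _ _ h _ hF => fun hc => hF (hA _ _ h hc))
      (fun _ _ h _ hF => fun hc => hF (hB _ _ h hc)))

theorem pr_DTB {q : ℝ} (h0 : 0 ≤ q) (h1 : q ≤ 1) {a b c d : ℤ} {S : Finset Edg}
    (hS : LRE a b c d ⊆ S) (hab : a < b) (hcd : c ≤ d) {x : ℝ}
    (hx : x ≤ hh (1 - q) (d - c + 1) (b - a - 1)) : x ≤ PQ q S (DTB a b c d) := by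
  have e1 := pr_LRc q hS
  have e2 := hh_dual (q := q) (w := b - a) (h := d - c) (by omega) (by omega)
  have e3 : PQ q S (fun F => ¬ LRc a b c d F) ≤ PQ q S (DTB a b c d) :=
    Pr_mono (okq h0 h1) (fun F _ h => DTB_of hab.le hcd h)
  refine le_trans ?_ e3
  unfold PQ
  rw [Pr_not, e1, e2]
  linarith

theorem pr_DLR {q : ℝ} (h0 : 0 ≤ q) (h1 : q ≤ 1) {a b c d : ℤ} {S : Finset Edg}
    (hS : TBE a b c d ⊆ S) (hab : a ≤ b) (hcd : c < d) {x : ℝ}
    (hx : x ≤ hh (1 - q) (b - a + 1) (d - c - 1)) : x ≤ PQ q S (DLR a b c d) := by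
  have e1 := pr_TBc q hS
  have e2 := hh_dual (q := q) (w := d - c) (h := b - a) (by omega) (by omega)
  have e3 : PQ q S (fun F => ¬ TBc a b c d F) ≤ PQ q S (DLR a b c d) :=
    Pr_mono (okq h0 h1) (fun F _ h => DLR_of hab hcd.le h)
  refine le_trans ?_ e3
  unfold PQ
  rw [Pr_not, e1, e2]
  linarith

/-! ### regions -/

/-- The region of the open corridors. -/
noncomputable def Ro (U v1 v2 yl yh : ℤ) : Finset Edg :=
  (RE (-(8 * U)) (8 * U) (-(14 * U)) (-(10 * U)) ∪ (RE (-(8 * U)) (8 * U) (yl - 32 * U) (-(8 * U)) ∪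
  (RE (-(8 * U)) (v1 + 8 * U) (yl - 32 * U) (yl - 24 * U) ∪
  (RE (v1 - 8 * U) (v1 + 8 * U) (yl - 32 * U) (v2 - 8 * U) ∪
  RE (v1 - 8 * U) (v1 + 8 * U) (v2 - 14 * U) (v2 - 10 * U))))) ∪
  (RE (-(8 * U)) (8 * U) (10 * U) (14 * U) ∪ (RE (-(8 * U)) (8 * U) (8 * U) (yh + 32 * U) ∪
  (RE (-(8 * U)) (v1 + 8 * U) (yh + 24 * U) (yh + 32 * U) ∪
  (RE (v1 - 8 * U) (v1 + 8 * U) (v2 + 8 * U) (yh + 32 * U) ∪
  RE (v1 - 8 * U) (v1 + 8 * U) (v2 + 10 * U) (v2 + 14 * U)))))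

/-- The region of the dual corridors. -/
noncomputable def Rd (U v1 v2 yl yh : ℤ) : Finset Edg :=
  (RE (10 * U) (14 * U) (-(4 * U)) (4 * U) ∪ (RE (9 * U) (48 * U) (-(4 * U)) (4 * U) ∪
  (RE (40 * U) (48 * U) (yl - 4 * U) (yh + 4 * U) ∪
  (RE (40 * U) (v1 - 9 * U) (v2 - 4 * U) (v2 + 4 * U) ∪
  RE (v1 - 14 * U) (v1 - 10 * U) (v2 - 4 * U) (v2 + 4 * U))))) ∪
  (RE (-(14 * U)) (-(10 * U)) (-(4 * U)) (yh + 48 * U) ∪
  (RE (-(15 * U)) (v1 + 15 * U) (yh + 40 * U) (yh + 48 * U) ∪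
  RE (v1 + 10 * U) (v1 + 14 * U) (v2 - 4 * U) (yh + 48 * U)))

/-- The open part of the event. -/
def EO (U v1 v2 yl yh : ℤ) (F : Finset Edg) : Prop := OB U v1 v2 yl F ∧ OT U v1 v2 yh F

/-- The dual part of the event. -/
def ED (U v1 v2 yl yh : ℤ) (F : Finset Edg) : Prop := DM U v1 v2 yl yh F ∧ DO U v1 v2 yh F

theorem EO_incr {U v1 v2 yl yh : ℤ} (F G : Finset Edg) (h : F ⊆ G) (hF : EO U v1 v2 yl yh F) :
    EO U v1 v2 yl yh G :=
  ⟨⟨hF.1.1.mono h, hF.1.2.1.mono h, hF.1.2.2.1.mono h, hF.1.2.2.2.1.mono h, hF.1.2.2.2.2.mono h⟩,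
    ⟨hF.2.1.mono h, hF.2.2.1.mono h, hF.2.2.2.1.mono h, hF.2.2.2.2.1.mono h,
      hF.2.2.2.2.2.mono h⟩⟩

theorem ED_decr {U v1 v2 yl yh : ℤ} (F G : Finset Edg) (h : F ⊆ G) (hF : ED U v1 v2 yl yh G) :
    ED U v1 v2 yl yh F :=
  ⟨⟨DTB_decr h hF.1.1, DLR_decr h hF.1.2.1, DTB_decr h hF.1.2.2.1, DLR_decr h hF.1.2.2.2.1,
    DTB_decr h hF.1.2.2.2.2⟩, ⟨DTB_decr h hF.2.1, DLR_decr h hF.2.2.1, DTB_decr h hF.2.2.2⟩⟩

theorem EO_local {U v1 v2 yl yh : ℤ} (F : Finset Edg) :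
    EO U v1 v2 yl yh F ↔ EO U v1 v2 yl yh (F ∩ Ro U v1 v2 yl yh) := by
  have key : ∀ {a b c d : ℤ}, RE a b c d ⊆ Ro U v1 v2 yl yh →
      (LRc a b c d F ↔ LRc a b c d (F ∩ Ro U v1 v2 yl yh)) ∧
      (TBc a b c d F ↔ TBc a b c d (F ∩ Ro U v1 v2 yl yh)) :=
    fun h => ⟨LRc_local (LRE_subset_RE.trans h), TBc_local (TBE_subset_RE.trans h)⟩
  unfold EO OB OT
  rw [← (key (a := -(8 * U)) (b := 8 * U) (c := -(14 * U)) (d := -(10 * U)) ?_).1,
    ← (key (a := -(8 * U)) (b := 8 * U) (c := yl - 32 * U) (d := -(8 * U)) ?_).2,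
    ← (key (a := -(8 * U)) (b := v1 + 8 * U) (c := yl - 32 * U) (d := yl - 24 * U) ?_).1,
    ← (key (a := v1 - 8 * U) (b := v1 + 8 * U) (c := yl - 32 * U) (d := v2 - 8 * U) ?_).2,
    ← (key (a := v1 - 8 * U) (b := v1 + 8 * U) (c := v2 - 14 * U) (d := v2 - 10 * U) ?_).1,
    ← (key (a := -(8 * U)) (b := 8 * U) (c := 10 * U) (d := 14 * U) ?_).1,
    ← (key (a := -(8 * U)) (b := 8 * U) (c := 8 * U) (d := yh + 32 * U) ?_).2,
    ← (key (a := -(8 * U)) (b := v1 + 8 * U) (c := yh + 24 * U) (d := yh + 32 * U) ?_).1,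
    ← (key (a := v1 - 8 * U) (b := v1 + 8 * U) (c := v2 + 8 * U) (d := yh + 32 * U) ?_).2,
    ← (key (a := v1 - 8 * U) (b := v1 + 8 * U) (c := v2 + 10 * U) (d := v2 + 14 * U) ?_).1]
  all_goals
    unfold Ro
    intro g hg
    simp only [Finset.mem_union, hg, true_or, or_true]

theorem ED_local {U v1 v2 yl yh : ℤ} (F : Finset Edg) :
    ED U v1 v2 yl yh F ↔ ED U v1 v2 yl yh (F ∩ Rd U v1 v2 yl yh) := by
  have key : ∀ {a b c d : ℤ}, RE a b c d ⊆ Rd U v1 v2 yl yh →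
      (DTB a b c d F ↔ DTB a b c d (F ∩ Rd U v1 v2 yl yh)) ∧
      (DLR a b c d F ↔ DLR a b c d (F ∩ Rd U v1 v2 yl yh)) :=
    fun h => ⟨Pool.Agent.W52.DPInd.DTB_local (LRE_subset_RE.trans h) F,
      Pool.Agent.W52.DPInd.DLR_local (TBE_subset_RE.trans h) F⟩
  unfold ED DM DO
  rw [← (key (a := 10 * U) (b := 14 * U) (c := -(4 * U)) (d := 4 * U) ?_).1,
    ← (key (a := 9 * U) (b := 48 * U) (c := -(4 * U)) (d := 4 * U) ?_).2,
    ← (key (a := 40 * U) (b := 48 * U) (c := yl - 4 * U) (d := yh + 4 * U) ?_).1,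
    ← (key (a := 40 * U) (b := v1 - 9 * U) (c := v2 - 4 * U) (d := v2 + 4 * U) ?_).2,
    ← (key (a := v1 - 14 * U) (b := v1 - 10 * U) (c := v2 - 4 * U) (d := v2 + 4 * U) ?_).1,
    ← (key (a := -(14 * U)) (b := -(10 * U)) (c := -(4 * U)) (d := yh + 48 * U) ?_).1,
    ← (key (a := -(15 * U)) (b := v1 + 15 * U) (c := yh + 40 * U) (d := yh + 48 * U) ?_).2,
    ← (key (a := v1 + 10 * U) (b := v1 + 14 * U) (c := v2 - 4 * U) (d := yh + 48 * U) ?_).1]
  all_goals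
    unfold Rd
    intro g hg
    simp only [Finset.mem_union, hg, true_or, or_true]

theorem Ro_Rd {U v1 v2 yl yh : ℤ} (P : Pm U v1 v2 yl yh) {g : Edg}
    (hg : g ∈ Ro U v1 v2 yl yh) : g ∉ Rd U v1 v2 yl yh := by
  obtain ⟨U2, pv, pl1, pl2, pl3, ph1, ph2, ph3⟩ := P
  unfold Ro at hg
  unfold Rd
  obtain ⟨x, y, _ | _⟩ := g
  · simp only [Finset.mem_union, mem_RE_false] at hg ⊢
    rcases hg with (h | h | h | h | h) | (h | h | h | h | h) <;> omega
  · simp only [Finset.mem_union, mem_RE_true] at hg ⊢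
    rcases hg with (h | h | h | h | h) | (h | h | h | h | h) <;> omega

theorem XV_Rd {U v1 v2 yl yh : ℤ} (P : Pm U v1 v2 yl yh) {b w N : ℕ}
    (hb : (b : ℤ) = 4 * U) (hw : (w : ℤ) ≤ U) (hN : (N : ℤ) = 16 * U) {g : Edg}
    (hg : g ∈ XV b w N) : sh (0, 0) g ∉ Rd U v1 v2 yl yh ∧ sh (v1, v2) g ∉ Rd U v1 v2 yl yh := by
  obtain ⟨U2, pv, pl1, pl2, pl3, ph1, ph2, ph3⟩ := P
  unfold XV boxE at hg
  unfold Rd sh
  obtain ⟨x, y, _ | _⟩ := g
  · simp only [Finset.mem_union, mem_RE_false] at hg ⊢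
    rcases hg with h | h <;> constructor <;> omega
  · simp only [Finset.mem_union, mem_RE_true] at hg ⊢
    rcases hg with h | h <;> constructor <;> omega

theorem XH_Ro {U v1 v2 yl yh : ℤ} (P : Pm U v1 v2 yl yh) {b w N : ℕ}
    (hb : (b : ℤ) = 4 * U) (hw : (w : ℤ) ≤ U) (hN : (N : ℤ) = 16 * U) {g : Edg}
    (hg : g ∈ XH b w N) : sh (0, 0) g ∉ Ro U v1 v2 yl yh ∧ sh (v1, v2) g ∉ Ro U v1 v2 yl yh := by
  obtain ⟨U2, pv, pl1, pl2, pl3, ph1, ph2, ph3⟩ := P
  unfold XH boxE at hg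
  unfold Ro sh
  obtain ⟨x, y, _ | _⟩ := g
  · simp only [Finset.mem_union, mem_RE_false] at hg ⊢
    rcases hg with h | h <;> constructor <;> omega
  · simp only [Finset.mem_union, mem_RE_true] at hg ⊢
    rcases hg with h | h <;> constructor <;> omega

theorem Ro_sub {U v1 v2 yl yh : ℤ} (P : Pm U v1 v2 yl yh) {R : ℕ} (hR : (R : ℤ) = v1) :
    Ro U v1 v2 yl yh ⊆ boxE (2 * R) := by
  obtain ⟨U2, pv, pl1, pl2, pl3, ph1, ph2, ph3⟩ := P
  intro g hg
  unfold Ro at hg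
  unfold boxE
  obtain ⟨x, y, _ | _⟩ := g
  · simp only [Finset.mem_union, mem_RE_false] at hg ⊢
    rcases hg with (h | h | h | h | h) | (h | h | h | h | h) <;> (push_cast; omega)
  · simp only [Finset.mem_union, mem_RE_true] at hg ⊢
    rcases hg with (h | h | h | h | h) | (h | h | h | h | h) <;> (push_cast; omega)

theorem Rd_sub {U v1 v2 yl yh : ℤ} (P : Pm U v1 v2 yl yh) {R : ℕ} (hR : (R : ℤ) = v1) :
    Rd U v1 v2 yl yh ⊆ boxE (2 * R) := by
  obtain ⟨U2, pv, pl1, pl2, pl3, ph1, ph2, ph3⟩ := P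
  intro g hg
  unfold Rd at hg
  unfold boxE
  obtain ⟨x, y, _ | _⟩ := g
  · simp only [Finset.mem_union, mem_RE_false] at hg ⊢
    rcases hg with (h | h | h | h | h) | (h | h | h) <;> (push_cast; omega)
  · simp only [Finset.mem_union, mem_RE_true] at hg ⊢
    rcases hg with (h | h | h | h | h) | (h | h | h) <;> (push_cast; omega)

theorem pr_EO {q x : ℝ} (h0 : 0 ≤ q) (h1 : q ≤ 1) (hx0 : 0 ≤ x) {U v1 v2 yl yh : ℤ}
    (P : Pm U v1 v2 yl yh) {S : Finset Edg} (hS : Ro U v1 v2 yl yh ⊆ S)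
    (hx : ∀ w h : ℤ, 1 ≤ w → w ≤ 2 * v1 + 100 * U → U ≤ h → x ≤ hh q w h) :
    x ^ 10 ≤ PQ q S (EO U v1 v2 yl yh) := by
  obtain ⟨U2, pv, pl1, pl2, pl3, ph1, ph2, ph3⟩ := P
  have L : ∀ {a b c d : ℤ}, RE a b c d ⊆ Ro U v1 v2 yl yh → 1 ≤ b - a →
      b - a ≤ 2 * v1 + 100 * U → U ≤ d - c → x ≤ PQ q S (LRc a b c d) := by
    intro a b c d k1 k2 k3 k4
    have e := pr_LRc q ((LRE_subset_RE.trans k1).trans hS)
    unfold PQ
    rw [e]
    exact hx _ _ k2 k3 k4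
  have T : ∀ {a b c d : ℤ}, RE a b c d ⊆ Ro U v1 v2 yl yh → 1 ≤ d - c →
      d - c ≤ 2 * v1 + 100 * U → U ≤ b - a → x ≤ PQ q S (TBc a b c d) := by
    intro a b c d k1 k2 k3 k4
    have e := pr_TBc q ((TBE_subset_RE.trans k1).trans hS)
    unfold PQ
    rw [e]
    exact hx _ _ k2 k3 k4
  have mL : ∀ {a b c d : ℤ} (F G : Finset Edg), F ⊆ G → LRc a b c d F → LRc a b c d G :=
    fun F G h hF => hF.mono h
  have mT : ∀ {a b c d : ℤ} (F G : Finset Edg), F ⊆ G → TBc a b c d F → TBc a b c d G :=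
    fun F G h hF => hF.mono h
  have mA : ∀ {A B : Finset Edg → Prop}, (∀ F G : Finset Edg, F ⊆ G → A F → A G) →
      (∀ F G : Finset Edg, F ⊆ G → B F → B G) →
      (∀ F G : Finset Edg, F ⊆ G → (A F ∧ B F) → (A G ∧ B G)) :=
    fun hA hB F G h hF => ⟨hA F G h hF.1, hB F G h hF.2⟩
  have e : x ^ 10 = (x * (x * (x * (x * x)))) * (x * (x * (x * (x * x)))) := by ring
  rw [e]
  unfold EO
  have sub : ∀ {a b c d : ℤ}, (∀ g, g ∈ RE a b c d → g ∈ Ro U v1 v2 yl yh) →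
      RE a b c d ⊆ Ro U v1 v2 yl yh := fun h g hg => h g hg
  refine hstep h0 h1 ?_ ?_ (by positivity) (by positivity) ?_ ?_
  · exact mA mL (mA mT (mA mL (mA mT mL)))
  · exact mA mL (mA mT (mA mL (mA mT mL)))
  · refine hstep h0 h1 mL (mA mT (mA mL (mA mT mL))) (by positivity) (by positivity)
      (L ?_ (by omega) (by omega) (by omega)) ?_
    · unfold Ro; intro g hg; simp only [Finset.mem_union, hg, true_or, or_true]
    refine hstep h0 h1 mT (mA mL (mA mT mL)) (by positivity) (by positivity)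
      (T ?_ (by omega) (by omega) (by omega)) ?_
    · unfold Ro; intro g hg; simp only [Finset.mem_union, hg, true_or, or_true]
    refine hstep h0 h1 mL (mA mT mL) (by positivity) (by positivity)
      (L ?_ (by omega) (by omega) (by omega)) ?_
    · unfold Ro; intro g hg; simp only [Finset.mem_union, hg, true_or, or_true]
    refine hstep h0 h1 mT mL (by positivity) (by positivity)
      (T ?_ (by omega) (by omega) (by omega)) (L ?_ (by omega) (by omega) (by omega))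
    · unfold Ro; intro g hg; simp only [Finset.mem_union, hg, true_or, or_true]
    · unfold Ro; intro g hg; simp only [Finset.mem_union, hg, true_or, or_true]
  · refine hstep h0 h1 mL (mA mT (mA mL (mA mT mL))) (by positivity) (by positivity)
      (L ?_ (by omega) (by omega) (by omega)) ?_
    · unfold Ro; intro g hg; simp only [Finset.mem_union, hg, true_or, or_true]
    refine hstep h0 h1 mT (mA mL (mA mT mL)) (by positivity) (by positivity)
      (T ?_ (by omega) (by omega) (by omega)) ?_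
    · unfold Ro; intro g hg; simp only [Finset.mem_union, hg, true_or, or_true]
    refine hstep h0 h1 mL (mA mT mL) (by positivity) (by positivity)
      (L ?_ (by omega) (by omega) (by omega)) ?_
    · unfold Ro; intro g hg; simp only [Finset.mem_union, hg, true_or, or_true]
    refine hstep h0 h1 mT mL (by positivity) (by positivity)
      (T ?_ (by omega) (by omega) (by omega)) (L ?_ (by omega) (by omega) (by omega))
    · unfold Ro; intro g hg; simp only [Finset.mem_union, hg, true_or, or_true]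
    · unfold Ro; intro g hg; simp only [Finset.mem_union, hg, true_or, or_true]

theorem pr_ED {q x : ℝ} (h0 : 0 ≤ q) (h1 : q ≤ 1) (hx0 : 0 ≤ x) {U v1 v2 yl yh : ℤ}
    (P : Pm U v1 v2 yl yh) {S : Finset Edg} (hS : Rd U v1 v2 yl yh ⊆ S)
    (hx : ∀ w h : ℤ, 1 ≤ w → w ≤ 2 * v1 + 100 * U → U ≤ h → x ≤ hh (1 - q) w h) :
    x ^ 8 ≤ PQ q S (ED U v1 v2 yl yh) := by
  obtain ⟨U2, pv, pl1, pl2, pl3, ph1, ph2, ph3⟩ := P
  have T : ∀ {a b c d : ℤ}, RE a b c d ⊆ Rd U v1 v2 yl yh → c ≤ d →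
      d - c + 1 ≤ 2 * v1 + 100 * U → U ≤ b - a - 1 → x ≤ PQ q S (DTB a b c d) := by
    intro a b c d k1 k2 k3 k4
    exact pr_DTB h0 h1 ((LRE_subset_RE.trans k1).trans hS) (by omega) k2
      (hx _ _ (by omega) k3 k4)
  have L : ∀ {a b c d : ℤ}, RE a b c d ⊆ Rd U v1 v2 yl yh → a ≤ b →
      b - a + 1 ≤ 2 * v1 + 100 * U → U ≤ d - c - 1 → x ≤ PQ q S (DLR a b c d) := by
    intro a b c d k1 k2 k3 k4
    exact pr_DLR h0 h1 ((TBE_subset_RE.trans k1).trans hS) k2 (by omega)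
      (hx _ _ (by omega) k3 k4)
  have mT : ∀ {a b c d : ℤ} (F G : Finset Edg), F ⊆ G → DTB a b c d G → DTB a b c d F :=
    fun F G h hF => DTB_decr h hF
  have mL : ∀ {a b c d : ℤ} (F G : Finset Edg), F ⊆ G → DLR a b c d G → DLR a b c d F :=
    fun F G h hF => DLR_decr h hF
  have mA : ∀ {A B : Finset Edg → Prop}, (∀ F G : Finset Edg, F ⊆ G → A G → A F) →
      (∀ F G : Finset Edg, F ⊆ G → B G → B F) →
      (∀ F G : Finset Edg, F ⊆ G → (A G ∧ B G) → (A F ∧ B F)) :=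
    fun hA hB F G h hF => ⟨hA F G h hF.1, hB F G h hF.2⟩
  have e : x ^ 8 = (x * (x * (x * (x * x)))) * (x * (x * x)) := by ring
  rw [e]
  unfold ED
  refine dstep h0 h1 ?_ ?_ (by positivity) (by positivity) ?_ ?_
  · exact mA mT (mA mL (mA mT (mA mL mT)))
  · exact mA mT (mA mL mT)
  · refine dstep h0 h1 mT (mA mL (mA mT (mA mL mT))) (by positivity) (by positivity)
      (T ?_ (by omega) (by omega) (by omega)) ?_
    · unfold Rd; intro g hg; simp only [Finset.mem_union, hg, true_or, or_true]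
    refine dstep h0 h1 mL (mA mT (mA mL mT)) (by positivity) (by positivity)
      (L ?_ (by omega) (by omega) (by omega)) ?_
    · unfold Rd; intro g hg; simp only [Finset.mem_union, hg, true_or, or_true]
    refine dstep h0 h1 mT (mA mL mT) (by positivity) (by positivity)
      (T ?_ (by omega) (by omega) (by omega)) ?_
    · unfold Rd; intro g hg; simp only [Finset.mem_union, hg, true_or, or_true]
    refine dstep h0 h1 mL mT (by positivity) (by positivity)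
      (L ?_ (by omega) (by omega) (by omega)) (T ?_ (by omega) (by omega) (by omega))
    · unfold Rd; intro g hg; simp only [Finset.mem_union, hg, true_or, or_true]
    · unfold Rd; intro g hg; simp only [Finset.mem_union, hg, true_or, or_true]
  · refine dstep h0 h1 mT (mA mL mT) (by positivity) (by positivity)
      (T ?_ (by omega) (by omega) (by omega)) ?_
    · unfold Rd; intro g hg; simp only [Finset.mem_union, hg, true_or, or_true]
    refine dstep h0 h1 mL mT (by positivity) (by positivity)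
      (L ?_ (by omega) (by omega) (by omega)) (T ?_ (by omega) (by omega) (by omega))
    · unfold Rd; intro g hg; simp only [Finset.mem_union, hg, true_or, or_true]
    · unfold Rd; intro g hg; simp only [Finset.mem_union, hg, true_or, or_true]

end Pool.Agent.W2helper75.EC
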