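import Pool.Agent.H974R2.Plan4
import Pool.Agent.H12R2.Sep.Defs

/-!
An open path and a dual path which both join the ends of an edge off this edge share an edge.
Gluing inequalities for events which are monotone in a part of the edges.
-/

set_option autoImplicit false
set_option maxHeartbeats 400000

namespace Pool.Agent.W2helper75.EC

open H974 H12S Finset

theorem cycle_path {a b c d : ℤ} {Z : Edg → ZMod 2} (hZ : ∀ e, Z e ≠ 0 → e ∈ RE a b c d)
    (hbd : ∀ x y, bd Z x y = 0) {G : Set Edg} (hG : G ⊆ ↑(RE a b c d))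
    (hGZ : ∀ e ∈ G, Z e = 0) {e : Edg} (he : e ∈ RE a b c d)
    (h : Reach G (src e) (tgt e)) : Z e = 0 := by
  have hZ0 : ∀ e, e ∉ RE a b c d → Z e = 0 := by
    intro e he
    by_contra h
    exact he (hZ e h)
  set s : ℤ → ℤ → ZMod 2 := fun x y => ∑ i ∈ Finset.Ico a x, Z (i, y, true) with hs
  have sH : ∀ x y, a ≤ x → s (x + 1) y = s x y + Z (x, y, true) := by
    intro x y hx
    simp only [hs]
    rw [sum_Ico_int_succ hx]
  have hleft : ∀ y, Z (a, y, false) = 0 := by
    intro y
    have h := hbd (a - 1) y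
    unfold bd at h
    rw [hZ0 (a - 1, y, true) (by simp), hZ0 (a - 1, y + 1, true) (by simp),
      hZ0 (a - 1, y, false) (by simp), sub_add_cancel] at h
    simpa using h
  have sV : ∀ (n : ℕ) (y : ℤ), s (a + n) (y + 1) + s (a + n) y = Z (a + n, y, false) := by
    intro n y
    induction n with
    | zero =>
      have : Z (a + ((0:ℕ):ℤ), y, false) = 0 := by
        have := hleft y
        simpa using this
      rw [this]
      simp [hs]
    | succ n ih =>
      have e1 : a + ((n + 1 : ℕ) : ℤ) = (a + n) + 1 := by push_cast; ring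
      rw [e1, sH _ _ (by omega), sH _ _ (by omega)]
      have h3 := hbd (a + n) y
      unfold bd at h3
      have h5 := zmod2_add_self (Z (a + n + 1, y, false))
      linear_combination ih + h3 - h5
  have sV' : ∀ x y, a ≤ x → s x (y + 1) = s x y + Z (x, y, false) := by
    intro x y hx
    obtain ⟨n, hn⟩ := Int.eq_ofNat_of_zero_le (sub_nonneg.mpr hx)
    have e1 : x = a + n := by omega
    have h3 := sV n y
    rw [← e1] at h3
    have h4 := zmod2_add_self (s x y)
    linear_combination h3 - h4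
  have hpath : ∀ w w' : Vtx, a ≤ w.1 → Reach G w w' → a ≤ w'.1 ∧ s w'.1 w'.2 = s w.1 w.2 := by
    intro w w' hw hr
    induction hr with
    | refl => exact ⟨hw, rfl⟩
    | @tail w' w'' _ hstep ih =>
      obtain ⟨⟨x0, y0, bo⟩, heG, hcase⟩ := hstep
      have hZe := hGZ _ heG
      have heR := hG heG
      cases bo
      · have hm : a ≤ x0 ∧ x0 ≤ b ∧ c ≤ y0 ∧ y0 < d := by simpa using heR
        have h3 := sV' x0 y0 hm.1
        rw [hZe, add_zero] at h3
        simp only [src_mk, tgt_false] at hcase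
        rcases hcase with ⟨h4, h5⟩ | ⟨h4, h5⟩
        · rw [← h4] at ih; rw [← h5]
          exact ⟨hm.1, h3.trans ih.2⟩
        · rw [← h5] at ih; rw [← h4]
          exact ⟨hm.1, h3.symm.trans ih.2⟩
      · have hm : a ≤ x0 ∧ x0 < b ∧ c ≤ y0 ∧ y0 ≤ d := by simpa using heR
        have h3 := sH x0 y0 hm.1
        rw [hZe, add_zero] at h3
        simp only [src_mk, tgt_true] at hcase
        rcases hcase with ⟨h4, h5⟩ | ⟨h4, h5⟩
        · rw [← h4] at ih; rw [← h5]
          exact ⟨by simp only; omega, h3.trans ih.2⟩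
        · rw [← h5] at ih; rw [← h4]
          exact ⟨hm.1, h3.symm.trans ih.2⟩
  obtain ⟨x0, y0, bo⟩ := e
  cases bo
  · have hm : a ≤ x0 ∧ x0 ≤ b ∧ c ≤ y0 ∧ y0 < d := by simpa using he
    have k1 := (hpath _ _ (by simpa using hm.1) h).2
    simp only [src_mk, tgt_false] at k1
    have h3 := sV' x0 y0 hm.1
    rw [k1] at h3
    simpa using h3.symm
  · have hm : a ≤ x0 ∧ x0 < b ∧ c ≤ y0 ∧ y0 ≤ d := by simpa using he
    have k1 := (hpath _ _ (by simpa using hm.1) h).2
    simp only [src_mk, tgt_true] at k1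
    have h3 := sH x0 y0 hm.1
    rw [k1] at h3
    simpa using h3.symm

/-- Planar duality off an edge. -/
theorem no_loop {a b c d : ℤ} {F G : Set Edg} (hF : F ⊆ ↑(RE a b c d))
    (hG : G ⊆ ↑(RE a b c d)) (hd : ∀ g ∈ G, g ∉ F) {e : Edg} (he : e ∈ RE a b c d)
    (heF : e ∉ F) (heG : e ∉ G) (h1 : Reach F (src e) (tgt e))
    (h2 : DReach G (dsrc e) (dtgt e)) : False := by
  obtain ⟨Z, hZ1, hZ2⟩ := chain_of_dreach h2
  have h3 : Z e + b2 (e = e) = 0 := by
    apply cycle_path (Z := fun e' => Z e' + b2 (e' = e)) (a := a) (b := b) (c := c) (d := d)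
        (G := F) _ _ hF _ he h1
    · intro e' h'
      by_cases hee : e' = e
      · rw [hee]; exact he
      · have h'' : Z e' + b2 (e' = e) ≠ 0 := h'
        rw [b2_not_of hee, add_zero] at h''
        exact hG (hZ1 e' h'')
    · intro x y
      rw [bd_add, hZ2, bd_single]
      exact zmod2_add_self _
    · intro e' he'
      have hee : e' ≠ e := fun h => heF (h ▸ he')
      have hz : Z e' = 0 := by
        by_contra hcon
        exact hd e' (hZ1 e' hcon) he'
      simp only [hz, b2_not_of hee, add_zero]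
  have h4 : Z e = 0 := by
    by_contra hcon
    exact heG (hZ1 e hcon)
  rw [h4, b2_of (rfl : e = e), zero_add] at h3
  exact one_ne_zero h3

section Glue

variable {E : Type*} [DecidableEq E] {p : E → ℝ}

theorem glue_aux (hp : Ok p) {S U : Finset E} (hU : U ⊆ S) {A B : Finset E → Prop}
    (hB : ∀ F, B F ↔ B (F ∩ U))
    (hH : ∀ G, G ⊆ S \ U → Pr p U (fun H => A (G ∪ H)) * Pr p U B ≤
        Pr p U (fun H => A (G ∪ H) ∧ B H)) :
    Pr p S A * Pr p S B ≤ Pr p S (fun F => A F ∧ B F) := by
  have key : ∀ A : Finset E → Prop, Pr p S A = Ex p (S \ U)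
      (fun G => Ex p U (fun H => ind (A (G ∪ H)))) := by
    intro A
    have h1 : S = (S \ U) ∪ U := by rw [Finset.sdiff_union_of_subset hU]
    have h2 : Disjoint (S \ U) U := Finset.sdiff_disjoint
    unfold Pr
    conv_lhs => rw [h1]
    rw [Ex_union h2]
  have hBl : Pr p S B = Pr p U B := Pr_local hU (fun F _ => hB F)
  have hGB : ∀ G, G ⊆ S \ U → ∀ H, H ⊆ U → (B (G ∪ H) ↔ B H) := by
    intro G hG H hH
    rw [hB (G ∪ H), hB H]
    have e : (G ∪ H) ∩ U = H ∩ U := by
      ext x
      simp only [Finset.mem_inter, Finset.mem_union]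
      constructor
      · rintro ⟨h | h, h2⟩
        · exact absurd h2 (Finset.mem_sdiff.mp (hG h)).2
        · exact ⟨h, h2⟩
      · rintro ⟨h, h2⟩; exact ⟨Or.inr h, h2⟩
    rw [e]
  rw [hBl, key A, key (fun F => A F ∧ B F), ← Ex_mul_right]
  apply Ex_mono hp
  intro G hG
  refine (hH G hG).trans (le_of_eq ?_)
  unfold Pr
  apply Ex_congr
  intro H hH
  apply ind_congr
  rw [hGB G hG H hH]

/-- Harris' inequality for `A` increasing in the edges of `U` and `B` increasing, local in `U`. -/
theorem glue_incr (hp : Ok p) {S U : Finset E} {A B : Finset E → Prop} (hU : U ⊆ S)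
    (hA : ∀ F G, F ⊆ S → F ⊆ G → G ⊆ F ∪ U → A F → A G)
    (hB : ∀ F G : Finset E, F ⊆ G → B F → B G) (hBl : ∀ F, B F ↔ B (F ∩ U)) :
    Pr p S A * Pr p S B ≤ Pr p S (fun F => A F ∧ B F) := by
  apply glue_aux hp hU hBl
  intro G hG
  apply Pr_harris hp
  · intro H K hHK hK hAH
    refine hA (G ∪ H) (G ∪ K) ?_ ?_ ?_ hAH
    · exact Finset.union_subset (hG.trans Finset.sdiff_subset) ((hHK.trans hK).trans hU)
    · exact Finset.union_subset_union_right hHK
    · intro e he
      rw [Finset.mem_union] at he ⊢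
      rcases he with he | he
      · exact Or.inl (Finset.mem_union_left _ he)
      · exact Or.inr (hK he)
  · intro H K hHK _ hBH
    exact hB H K hHK hBH

theorem harris_decr (hp : Ok p) {U : Finset E} {A B : Finset E → Prop}
    (hA : IncrE U (fun F => ¬ A F)) (hB : IncrE U (fun F => ¬ B F)) :
    Pr p U A * Pr p U B ≤ Pr p U (fun F => A F ∧ B F) := by
  have h := Pr_harris_decr hp hA hB
  rw [Pr_not] at h
  have h2 : Pr p U B = Pr p U (fun F => ¬ A F ∧ B F) + Pr p U (fun F => A F ∧ B F) := by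
    unfold Pr
    rw [← Ex_add]
    apply Ex_congr
    intro F _
    rw [ind_and, ind_and, ind_not]
    ring
  nlinarith [h, h2]

/-- The same for decreasing events. -/
theorem glue_decr (hp : Ok p) {S U : Finset E} {A B : Finset E → Prop} (hU : U ⊆ S)
    (hA : ∀ F G, F ⊆ S → G ⊆ F → F ⊆ G ∪ U → A F → A G)
    (hB : ∀ F G : Finset E, F ⊆ G → B G → B F) (hBl : ∀ F, B F ↔ B (F ∩ U)) :
    Pr p S A * Pr p S B ≤ Pr p S (fun F => A F ∧ B F) := by
  apply glue_aux hp hU hBl
  intro G hG
  apply harris_decr hp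
  · intro H K hHK hK hAH hAK
    apply hAH
    refine hA (G ∪ K) (G ∪ H) ?_ ?_ ?_ hAK
    · exact Finset.union_subset (hG.trans Finset.sdiff_subset) (hK.trans hU)
    · exact Finset.union_subset_union_right hHK
    · intro e he
      rw [Finset.mem_union] at he ⊢
      rcases he with he | he
      · exact Or.inl (Finset.mem_union_left _ he)
      · exact Or.inr (hK he)
  · intro H K hHK _ hBH hBK
    exact hBH (hB H K hHK hBK)

end Glue

end Pool.Agent.W2helper75.EC
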