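import Pool.Agent.W2helper75.EC.Sm
import Pool.Agent.W2helper75.AU.Fin

/-!
The series for the second derivative of the mean cluster density.
-/

set_option autoImplicit false
set_option maxHeartbeats 1000000

namespace Pool.Agent.W2helper75.EC

open H974 H973N H12S Finset MeasureTheory Filter Topology
open Pool.Agent.W2helper75.AU

/-! ### Russo's formula -/

theorem JP_self (e : Edg) (F : Set Edg) : ¬ JP e e F := by
  rintro ⟨h1, h2⟩
  apply h2
  refine h1.mono ?_
  rintro x ⟨k1, k2⟩
  refine ⟨?_, ?_⟩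
  · rcases k1 with k1 | k1
    · exact absurd k1 k2
    · exact k1
  · rintro (k3 | k3)
    · exact k2 k3
    · exact k2 k3

theorem jp_self (p : unitInterval) (e : Edg) : jp p e e = 0 := by
  unfold jp
  have : {ω : sqLattice.edgeSet → Bool | JP e e (opn ω)} = ∅ := by
    ext ω
    simp only [Set.mem_ofPred_eq, Set.mem_empty_iff_false, iff_false]
    exact JP_self e _
  rw [this]
  simp

theorem JP_congr {e g : Edg} {F G : Set Edg} (h : ∀ x, x ≠ g → (x ∈ F ↔ x ∈ G)) :
    JP e g F ↔ JP e g G := by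
  have e1 : insert g F \ {e} = insert g G \ {e} := by
    ext x
    by_cases hx : x = g
    · simp [hx]
    · simp only [Set.mem_sdiff, Set.mem_insert_iff, hx, false_or, h x hx]
  have e2 : F \ {e, g} = G \ {e, g} := by
    ext x
    by_cases hx : x = g
    · simp [hx]
    · simp only [Set.mem_sdiff, h x hx]
  unfold JP
  rw [e1, e2]

theorem hP_deriv (m : ℕ) (b : Bool) (q : ℝ) :
    HasDerivAt (hP m b) (∑ f ∈ boxE m, PQ q (boxE m) (fun F => JP (e0 b) f ↑F)) q := by
  have h := Ex_hasDerivAt (E := Edg) (fun q _ => q) (fun _ => (1:ℝ)) q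
    (fun _ => hasDerivAt_id q) (boxE m) (fun F => ind (RP m b F))
  have hs : (∑ f ∈ boxE m, (1:ℝ) * Ex (fun _ => q) ((boxE m).erase f)
        (fun F => ind (RP m b (insert f F)) - ind (RP m b F))) =
      ∑ f ∈ boxE m, PQ q (boxE m) (fun F => JP (e0 b) f ↑F) := by
    apply Finset.sum_congr rfl
    intro f hf
    rw [one_mul]
    have e1 : PQ q (boxE m) (fun F => JP (e0 b) f ↑F) =
        PQ q ((boxE m).erase f) (fun F => JP (e0 b) f ↑F) := by
      refine Pr_local (Finset.erase_subset f _) ?_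
      intro F hF
      apply JP_congr
      intro x hx
      simp only [Finset.mem_coe, Finset.mem_inter, Finset.mem_erase]
      exact ⟨fun h => ⟨h, hx, hF h⟩, fun h => h.1⟩
    rw [e1]
    unfold PQ Pr
    apply Ex_congr
    intro F hF
    have hfF : f ∉ F := fun h => (Finset.mem_erase.1 (hF h)).1 rfl
    have hFm : F ⊆ boxE m := hF.trans (Finset.erase_subset _ _)
    have k1 : RP m b (insert f F) ↔ Reach (insert f (↑F : Set Edg) \ {e0 b}) (src (e0 b))
        (tgt (e0 b)) := by
      unfold RP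
      have : ((↑(insert f F) : Set Edg) ∩ ↑(boxE m)) \ {e0 b} = insert f (↑F : Set Edg) \ {e0 b} := by
        rw [Finset.coe_insert]
        congr 1
        rw [Set.inter_eq_left]
        apply Set.insert_subset (Finset.mem_coe.2 hf)
        exact_mod_cast hFm
      rw [this]
    have k2 : RP m b F ↔ Reach ((↑F : Set Edg) \ {e0 b, f}) (src (e0 b)) (tgt (e0 b)) := by
      unfold RP
      have : ((↑F : Set Edg) ∩ ↑(boxE m)) \ {e0 b} = (↑F : Set Edg) \ {e0 b, f} := by
        ext x
        simp only [Set.mem_sdiff, Set.mem_inter_iff, Finset.mem_coe, Set.mem_singleton_iff,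
          Set.mem_insert_iff, not_or]
        constructor
        · rintro ⟨⟨h1, _⟩, h2⟩
          exact ⟨h1, h2, fun h3 => hfF (h3 ▸ h1)⟩
        · rintro ⟨h1, h2, _⟩
          exact ⟨⟨h1, hFm h1⟩, h2⟩
      rw [this]
    have k3 : RP m b F → RP m b (insert f F) := by
      intro h3
      unfold RP at h3 ⊢
      refine h3.mono ?_
      rintro x ⟨⟨h1, h2⟩, h4⟩
      refine ⟨⟨?_, h2⟩, h4⟩
      rw [Finset.mem_coe, Finset.mem_insert]
      exact Or.inr h1
    have k4 : JP (e0 b) f (↑F : Set Edg) ↔ RP m b (insert f F) ∧ ¬ RP m b F := by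
      unfold JP
      rw [k1, k2]
    rw [ind_congr k4]
    by_cases h4 : RP m b F
    · rw [ind_of h4, ind_of (k3 h4), ind_not_of (fun h => h.2 h4)]
      ring
    · rw [ind_not_of h4]
      by_cases h5 : RP m b (insert f F)
      · rw [ind_of h5, ind_of ⟨h5, h4⟩]
        ring
      · rw [ind_not_of h5, ind_not_of (fun h => h5 h.1)]
        ring
  rw [← hs]
  exact h

/-! ### convergence of the connection probability -/

theorem hI_hP {m : ℕ} (hm : 1 ≤ m) (b : Bool) {q : ℝ} (h0 : 0 ≤ q) (h1 : q ≤ 1) :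
    |hI q - hP m b q| ≤ arm (1/2) m := by
  have ht : Tendsto (fun n => |hn n q - hP m b q|) atTop (𝓝 (|hI q - hP m b q|)) :=
    ((hn_tend h0 h1).sub_const _).abs
  refine le_of_tendsto ht ?_
  filter_upwards [eventually_ge_atTop (2 * m)] with n hn'
  have k := hT_cmp (N := n + 1) hm (by omega) b h0 h1
  have e : hn n q = hT (n + 1) b q := by
    unfold hn
    cases b
    · exact hT_swap q
    · rfl
  have k2 := a4b_le_half h0 h1 hm b
  have k3 := a4b_nonneg h0 h1 m b
  rw [e, abs_le]
  constructor <;> linarith [k.1, k.2]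

/-! ### one pair in the box and in the plane -/

theorem exit_or {G : Set Edg} {a b c d : ℤ} {u v : Vtx} (hu : inR a b c d u) (h : Reach G u v) :
    (∃ w ∈ bdR a b c d, Reach (G ∩ ↑(RE a b c d)) u w) ∨ Reach (G ∩ ↑(RE a b c d)) u v := by
  have key : ∀ w, Reach G u w → (∃ w ∈ bdR a b c d, Reach (G ∩ ↑(RE a b c d)) u w) ∨
      (inR a b c d w ∧ Reach (G ∩ ↑(RE a b c d)) u w) := by
    intro w hw
    induction hw with
    | refl => exact Or.inr ⟨hu, Reach.refl _ _⟩
    | @tail w w' _ hs ih =>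
      rcases ih with ih | ⟨ih1, ih2⟩
      · exact Or.inl ih
      · by_cases hb : w ∈ bdR a b c d
        · exact Or.inl ⟨w, hb, ih2⟩
        · right
          obtain ⟨g, hg, hc⟩ := hs
          unfold bdR at hb
          simp only [Set.mem_ofPred_eq, not_and] at hb
          have hb' := hb ih1
          unfold inR at ih1 ⊢
          have hgR : g ∈ RE a b c d := by
            obtain ⟨x, y, _ | _⟩ := g
            · rw [mem_RE_false]
              simp only [src_mk, tgt_false] at hc
              rcases hc with ⟨h1, h2⟩ | ⟨h1, h2⟩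
              · rw [← h1] at ih1 hb'; simp only at ih1 hb'; omega
              · rw [← h2] at ih1 hb'; simp only at ih1 hb'; omega
            · rw [mem_RE_true]
              simp only [src_mk, tgt_true] at hc
              rcases hc with ⟨h1, h2⟩ | ⟨h1, h2⟩
              · rw [← h1] at ih1 hb'; simp only at ih1 hb'; omega
              · rw [← h2] at ih1 hb'; simp only at ih1 hb'; omega
          have hr : Reach (G ∩ ↑(RE a b c d)) w w' := Adj.reach ⟨g, ⟨hg, hgR⟩, hc⟩
          refine ⟨?_, ih2.trans hr⟩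
          have hends := ends_RE hgR
          unfold inR at hends
          rcases hc with ⟨h1, h2⟩ | ⟨h1, h2⟩
          · rw [← h2]; exact hends.2
          · rw [← h1]; exact hends.1
  rcases key v h with h | ⟨_, h⟩
  · exact Or.inl h
  · exact Or.inr h

theorem A4_of_exit {m : ℕ} (hm : 1 ≤ m) {b : Bool} {G : Set Edg}
    (h1 : Reach (G \ {e0 b}) (src (e0 b)) (tgt (e0 b)))
    (h2 : ¬ Reach ((G ∩ ↑(boxE m)) \ {e0 b}) (src (e0 b)) (tgt (e0 b))) :
    A4 (-(m:ℤ)) m (-m) m (e0 b) G := by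
  obtain ⟨hs, ht⟩ := ends_RE (e0_box hm b)
  have hsub : (G \ {e0 b}) ∩ ↑(RE (-(m:ℤ)) m (-m) m) ⊆ (G ∩ ↑(RE (-(m:ℤ)) m (-m) m)) \ {e0 b} := by
    rintro x ⟨⟨k1, k2⟩, k3⟩
    exact ⟨⟨k1, k3⟩, k2⟩
  refine ⟨?_, ?_, h2⟩
  · rcases exit_or hs h1 with ⟨w, hw, k⟩ | k
    · exact ⟨w, hw, k.mono hsub⟩
    · exact absurd (k.mono hsub) h2
  · rcases exit_or ht h1.symm with ⟨w, hw, k⟩ | k
    · exact ⟨w, hw, k.mono hsub⟩
    · exact absurd (k.symm.mono hsub) h2

theorem pr_insert {q : ℝ} (h0 : 0 ≤ q) (h1 : q ≤ 1) {S : Finset Edg} {f : Edg} (hf : f ∈ S)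
    (A : Finset Edg → Prop) : q * PQ q S (fun F => A (insert f F)) ≤ PQ q S A ∧
      (1 - q) * PQ q S (fun F => A (F.erase f)) ≤ PQ q S A := by
  have ok := okq h0 h1
  obtain ⟨S', hS'⟩ : ∃ S' : Finset Edg, S' = S.erase f := ⟨_, rfl⟩
  have hfS : f ∉ S' := by rw [hS']; exact Finset.notMem_erase f S
  have hS : S = insert f S' := by rw [hS', Finset.insert_erase hf]
  have e1 : PQ q S A = q * PQ q S' (fun F => A (insert f F)) + (1 - q) * PQ q S' A := by
    rw [hS]
    unfold PQ Pr
    rw [Ex_insert _ hfS]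
  have e2 : PQ q S (fun F => A (insert f F)) = PQ q S' (fun F => A (insert f F)) := by
    refine Pr_local (by rw [hS']; exact Finset.erase_subset _ _) ?_
    intro F hF
    have : insert f F = insert f (F ∩ S') := by
      ext x
      simp only [Finset.mem_insert, Finset.mem_inter]
      constructor
      · rintro (h | h)
        · exact Or.inl h
        · by_cases hx : x = f
          · exact Or.inl hx
          · exact Or.inr ⟨h, by rw [hS']; exact Finset.mem_erase.2 ⟨hx, hF h⟩⟩
      · rintro (h | h)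
        · exact Or.inl h
        · exact Or.inr h.1
    rw [← this]
  have e3 : PQ q S (fun F => A (F.erase f)) = PQ q S' A := by
    have : PQ q S (fun F => A (F.erase f)) = PQ q S' (fun F => A (F.erase f)) := by
      refine Pr_local (by rw [hS']; exact Finset.erase_subset _ _) ?_
      intro F hF
      have : F.erase f = (F ∩ S').erase f := by
        ext x
        simp only [Finset.mem_erase, Finset.mem_inter]
        constructor
        · rintro ⟨h1, h2⟩
          exact ⟨h1, h2, by rw [hS']; exact Finset.mem_erase.2 ⟨h1, hF h2⟩⟩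
        · rintro ⟨h1, h2, _⟩
          exact ⟨h1, h2⟩
      rw [← this]
    rw [this]
    apply Pr_congr
    intro F hF
    rw [Finset.erase_eq_of_notMem (fun h => hfS (hF h))]
  have n1 : 0 ≤ PQ q S' (fun F => A (insert f F)) := Pr_nonneg ok _ _
  have n2 : 0 ≤ PQ q S' A := Pr_nonneg ok _ _
  have n3 : 0 ≤ 1 - q := by linarith
  constructor
  · rw [e2, e1]
    have := mul_nonneg n3 n2
    linarith
  · rw [e3, e1]
    have := mul_nonneg h0 n1
    linarith

theorem jp_box (p : unitInterval) (hp1 : 1/4 ≤ (p:ℝ)) (hp2 : (p:ℝ) ≤ 3/4) {m : ℕ} (hm : 1 ≤ m)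
    (b : Bool) {f : Edg} (hf : f ∈ boxE m) :
    |PQ p (boxE m) (fun F => JP (e0 b) f ↑F) - jp p (e0 b) f| ≤ 4 * a4b p m b := by
  have h0 := p.2.1
  have h1 := p.2.2
  have ok := okq h0 h1
  obtain ⟨P, hP⟩ : ∃ P : Set (sqLattice.edgeSet → Bool),
      P = {ω | JP (e0 b) f ↑(FF (boxE m) ω)} := ⟨_, rfl⟩
  obtain ⟨Q, hQ⟩ : ∃ Q : Set (sqLattice.edgeSet → Bool),
      Q = {ω | JP (e0 b) f (opn ω)} := ⟨_, rfl⟩
  have eP : PQ p (boxE m) (fun F => JP (e0 b) f ↑F) = (bondLaw p).real P := by
    rw [hP]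
    exact (law_event p (boxE m) (fun F => JP (e0 b) f ↑F)).symm
  have eQ : jp p (e0 b) f = (bondLaw p).real Q := by rw [hQ]; rfl
  have hsub : ∀ ω, (↑(FF (boxE m) ω) : Set Edg) ⊆ opn ω := by
    intro ω
    rw [FF_coe]
    exact Set.inter_subset_left
  -- the two error events
  have d1 : (bondLaw p).real (Q \ P) ≤ 4 * a4b p m b := by
    have k1 : (bondLaw p).real (Q \ P) ≤ PQ p (boxE m)
        (fun F => A4 (-(m:ℤ)) m (-m) m (e0 b) (↑(insert f F) : Set Edg)) := by
      unfold PQ
      rw [← law_event p (boxE m)]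
      refine measureReal_mono ?_
      rintro ω ⟨hq, hnp⟩
      rw [hQ] at hq
      rw [hP] at hnp
      obtain ⟨r1, r2⟩ := hq
      have r3 : ¬ Reach (insert f (↑(FF (boxE m) ω) : Set Edg) \ {e0 b}) (src (e0 b))
          (tgt (e0 b)) := by
        intro hc
        apply hnp
        refine ⟨hc, fun h => r2 (h.mono ?_)⟩
        exact Set.sdiff_subset_sdiff_left (hsub ω)
      have e1 : insert f (↑(FF (boxE m) ω) : Set Edg) = insert f (opn ω) ∩ ↑(boxE m) := by
        rw [FF_coe]
        ext x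
        simp only [Set.mem_insert_iff, Set.mem_inter_iff]
        constructor
        · rintro (h | ⟨h, h'⟩)
          · exact ⟨Or.inl h, by rw [h]; exact Finset.mem_coe.2 hf⟩
          · exact ⟨Or.inr h, h'⟩
        · rintro ⟨h | h, h'⟩
          · exact Or.inl h
          · exact Or.inr ⟨h, h'⟩
      rw [e1] at r3
      have r4 := A4_of_exit hm r1 r3
      show A4 (-(m:ℤ)) m (-m) m (e0 b) (↑(insert f (FF (boxE m) ω)) : Set Edg)
      refine A4_local ?_ r4
      rw [Finset.coe_insert, e1, Set.inter_assoc]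
      congr 1
      congr 1
      exact (Set.inter_self _).symm
    have k2 := (pr_insert h0 h1 hf (fun F => A4 (-(m:ℤ)) m (-m) m (e0 b) (↑F : Set Edg))).1
    have k3 : PQ p (boxE m) (fun F => A4 (-(m:ℤ)) m (-m) m (e0 b) (↑F : Set Edg)) = a4b p m b := rfl
    rw [k3] at k2
    have k4 : 0 ≤ PQ p (boxE m) (fun F => A4 (-(m:ℤ)) m (-m) m (e0 b) (↑(insert f F) : Set Edg)) :=
      Pr_nonneg ok _ _
    nlinarith
  have d2 : (bondLaw p).real (P \ Q) ≤ 4 * a4b p m b := by
    have k1 : (bondLaw p).real (P \ Q) ≤ PQ p (boxE m)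
        (fun F => A4 (-(m:ℤ)) m (-m) m (e0 b) (↑(F.erase f) : Set Edg)) := by
      unfold PQ
      rw [← law_event p (boxE m)]
      refine measureReal_mono ?_
      rintro ω ⟨hp, hnq⟩
      rw [hP] at hp
      rw [hQ] at hnq
      obtain ⟨r1, r2⟩ := hp
      have r3 : Reach (opn ω \ {e0 b, f}) (src (e0 b)) (tgt (e0 b)) := by
        by_contra hc
        apply hnq
        refine ⟨r1.mono ?_, hc⟩
        exact Set.sdiff_subset_sdiff_left (Set.insert_subset_insert (hsub ω))
      have e2 : opn ω \ {e0 b, f} = (opn ω \ {f}) \ {e0 b} := by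
        ext x
        simp only [Set.mem_sdiff, Set.mem_insert_iff, Set.mem_singleton_iff, not_or]
        tauto
      have e1 : (↑(FF (boxE m) ω) : Set Edg) \ {e0 b, f} =
          ((opn ω \ {f}) ∩ ↑(boxE m)) \ {e0 b} := by
        rw [FF_coe]
        ext x
        simp only [Set.mem_sdiff, Set.mem_inter_iff, Set.mem_insert_iff, Set.mem_singleton_iff,
          not_or]
        tauto
      rw [e1] at r2
      rw [e2] at r3
      have r4 := A4_of_exit hm r3 r2
      show A4 (-(m:ℤ)) m (-m) m (e0 b) (↑((FF (boxE m) ω).erase f) : Set Edg)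
      refine A4_local ?_ r4
      rw [Finset.coe_erase, FF_coe]
      ext x
      simp only [Set.mem_sdiff, Set.mem_inter_iff, Set.mem_singleton_iff]
      constructor
      · rintro ⟨⟨⟨g1, g2⟩, g3⟩, g4⟩
        exact ⟨⟨⟨⟨g1, g3⟩, g2⟩, g3⟩, g4⟩
      · rintro ⟨⟨⟨⟨g1, _⟩, g2⟩, g3⟩, g4⟩
        exact ⟨⟨⟨g1, g2⟩, g3⟩, g4⟩
    have k2 := (pr_insert h0 h1 hf (fun F => A4 (-(m:ℤ)) m (-m) m (e0 b) (↑F : Set Edg))).2
    have k3 : PQ p (boxE m) (fun F => A4 (-(m:ℤ)) m (-m) m (e0 b) (↑F : Set Edg)) = a4b p m b := rfl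
    rw [k3] at k2
    have k4 : 0 ≤ PQ p (boxE m) (fun F => A4 (-(m:ℤ)) m (-m) m (e0 b) (↑(F.erase f) : Set Edg)) :=
      Pr_nonneg ok _ _
    nlinarith
  have u1 : (bondLaw p).real Q ≤ (bondLaw p).real P + (bondLaw p).real (Q \ P) := by
    refine (measureReal_mono (show Q ⊆ P ∪ (Q \ P) from ?_)).trans (measureReal_union_le _ _)
    rw [Set.union_sdiff_self]
    exact Set.subset_union_right
  have u2 : (bondLaw p).real P ≤ (bondLaw p).real Q + (bondLaw p).real (P \ Q) := by
    refine (measureReal_mono (show P ⊆ Q ∪ (P \ Q) from ?_)).trans (measureReal_union_le _ _)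
    rw [Set.union_sdiff_self]
    exact Set.subset_union_right
  rw [eP, eQ, abs_le]
  constructor <;> linarith

end Pool.Agent.W2helper75.EC
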