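import Pool.Agent.W2helper75.EC.Ser

/-!
The series for the second derivative of the mean cluster density: convergence.
-/

set_option autoImplicit false
set_option maxHeartbeats 1000000

namespace Pool.Agent.W2helper75.EC

open H974 H973N H12S Finset MeasureTheory Filter Topology
open Pool.Agent.W2helper75.AU

theorem jpm_gen {q : ℝ} (h0 : 0 ≤ q) (h1 : q ≤ 1) {S : Finset Edg} {e g : Edg} {k l : ℕ}
    (hk : 1 ≤ k) (hl : 1 ≤ l) (s1 : ebx e k ⊆ S) (s2 : ebx g l ⊆ S)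
    (hd : Disjoint (ebx e k) (ebx g l)) (hk' : k + 1 ≤ de e g) (hl' : l + 1 ≤ de e g) :
    PQ q S (fun F => JP e g ↑F) ≤ a4 q k * a4 q l := by
  have ok := okq h0 h1
  have hne : e ≠ g := by
    rintro rfl
    unfold de at hk'
    simp at hk'
  have g1 : PQ q S (fun F => JP e g ↑F) ≤ PQ q S (fun F => A4e k e ↑F ∧ A4e l g ↑F) := by
    apply Pr_mono ok
    intro F _ h
    exact ⟨JP_A4e' hk hk' h, JP_A4e' (e := g) (g := e) hl (by rw [de_comm]; exact hl')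
      ((JP_comm hne).1 h)⟩
  have g2 : PQ q S (fun F => A4e k e ↑F ∧ A4e l g ↑F) ≤ a4 q k * PQ q S (fun F => A4e l g ↑F) := by
    refine pr_A4e_and h0 h1 s1 s2 hd (B := fun F => A4e l g ↑F) ?_
    intro F _
    apply A4e_local
    rw [Finset.coe_inter, Set.inter_assoc, Set.inter_self]
  have g3 := pr_A4e h0 h1 s2
  exact g1.trans (g2.trans (mul_le_mul_of_nonneg_left g3 (a4_nonneg h0 h1 k)))

theorem jpm_one {q : ℝ} (h0 : 0 ≤ q) (h1 : q ≤ 1) {S : Finset Edg} {e g : Edg} {k : ℕ}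
    (hk : 1 ≤ k) (s1 : ebx e k ⊆ S) (hk' : k + 1 ≤ de e g) :
    PQ q S (fun F => JP e g ↑F) ≤ a4 q k := by
  have ok := okq h0 h1
  have g1 : PQ q S (fun F => JP e g ↑F) ≤ PQ q S (fun F => A4e k e ↑F) := by
    apply Pr_mono ok
    intro F _ h
    exact JP_A4e' hk hk' h
  exact g1.trans (pr_A4e h0 h1 s1)

theorem rho_box {m : ℕ} {f : Edg} (hf : f ∈ boxE m) : rho f ≤ m := by
  unfold boxE at hf
  unfold rho
  obtain ⟨x, y, _ | _⟩ := f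
  · rw [mem_RE_false] at hf; simp only; omega
  · rw [mem_RE_true] at hf; simp only; omega

theorem ebx_box {f : Edg} {k m : ℕ} (h : rho f + k ≤ m) : ebx f k ⊆ boxE m := by
  unfold ebx boxE
  unfold rho at h
  apply RE_subset <;> omega

theorem rho_e0 (b : Bool) : rho (e0 b) = 0 := by
  unfold rho e0
  simp

theorem jpm_inner {q : ℝ} (h0 : 0 ≤ q) (h1 : q ≤ 1) {m : ℕ} {b : Bool} {f : Edg}
    (h4 : 4 ≤ rho f) (hm : 8 * rho f ≤ 5 * m) :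
    PQ q (boxE m) (fun F => JP (e0 b) f ↑F) ≤ a4 q (rho f / 4) * a4 q (rho f / 4) := by
  have e1 := de_e0 b f
  apply jpm_gen h0 h1 (by omega) (by omega) (ebx_box (by rw [rho_e0]; omega))
    (ebx_box (by omega)) ?_ (by omega) (by omega)
  rw [Finset.disjoint_left]
  obtain ⟨r, hr⟩ : ∃ r : ℕ, r = rho f := ⟨_, rfl⟩
  rw [← hr] at h4 hm ⊢
  unfold ebx e0
  obtain ⟨x', y', b'⟩ := f
  unfold rho at hr
  simp only at hr
  rintro ⟨x, y, _ | _⟩ g1 g2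
  · rw [mem_RE_false] at g1 g2; simp only at g1 g2; omega
  · rw [mem_RE_true] at g1 g2; simp only at g1 g2; omega

theorem jpm_outer {q : ℝ} (h0 : 0 ≤ q) (h1 : q ≤ 1) {m : ℕ} (hm8 : 8 ≤ m) {b : Bool} {f : Edg}
    (hf : f ∈ boxE m) (hm : 5 * m < 8 * rho f) (hlt : rho f < m) :
    PQ q (boxE m) (fun F => JP (e0 b) f ↑F) ≤ a4 q (m / 8) * a4 q (m - rho f) := by
  have e1 := de_e0 b f
  apply jpm_gen h0 h1 (by omega) (by omega) (ebx_box (by rw [rho_e0]; omega))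
    (ebx_box (by omega)) ?_ (by omega) (by omega)
  rw [Finset.disjoint_left]
  obtain ⟨r, hr⟩ : ∃ r : ℕ, r = rho f := ⟨_, rfl⟩
  rw [← hr] at hm hlt ⊢
  unfold ebx e0
  obtain ⟨x', y', b'⟩ := f
  unfold rho at hr
  simp only at hr
  rintro ⟨x, y, _ | _⟩ g1 g2
  · rw [mem_RE_false] at g1 g2; simp only at g1 g2; omega
  · rw [mem_RE_true] at g1 g2; simp only at g1 g2; omega

theorem jpm_outer0 {q : ℝ} (h0 : 0 ≤ q) (h1 : q ≤ 1) {m : ℕ} (hm8 : 8 ≤ m) {b : Bool} {f : Edg}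
    (hm : 5 * m < 8 * rho f) :
    PQ q (boxE m) (fun F => JP (e0 b) f ↑F) ≤ a4 q (m / 8) := by
  have e1 := de_e0 b f
  exact jpm_one h0 h1 (by omega) (ebx_box (by rw [rho_e0]; omega)) (by omega)

/-- Bounds for one pair in the box, in terms of the distance. -/
theorem jpm_bounds {C : ℝ} (hC : 0 < C) {q : ℝ} (h0 : 0 ≤ q) (h1 : q ≤ 1)
    (ha : ∀ k : ℕ, 1 ≤ k → a4 q k ≤ C * (k:ℝ) ^ (-(5/4) : ℝ)) {m : ℕ} (hm8 : 8 ≤ m) {b : Bool}
    {f : Edg} (hf : f ∈ boxE m) (h4 : 4 ≤ rho f) :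
    PQ q (boxE m) (fun F => JP (e0 b) f ↑F) ≤ 512 * C ^ 2 * (rho f : ℝ) ^ (-(5/2) : ℝ) +
      128 * (C * (C + 1)) * (m:ℝ) ^ (-(5/4) : ℝ) *
        ((((m - rho f : ℕ)) : ℝ) + 1) ^ (-(5/4) : ℝ) := by
  obtain ⟨r, hr⟩ : ∃ r : ℕ, r = rho f := ⟨_, rfl⟩
  have hr0 : (0:ℝ) < r := by
    have : 0 < r := by omega
    exact_mod_cast this
  have hm0 : (0:ℝ) < m := by
    have : 0 < m := by omega
    exact_mod_cast this
  have hj0 : (0:ℝ) < (((m - r : ℕ)) : ℝ) + 1 := by positivity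
  have n1 : 0 ≤ 512 * C ^ 2 * (r : ℝ) ^ (-(5/2) : ℝ) := by positivity
  have n2 : 0 ≤ 128 * (C * (C + 1)) * (m:ℝ) ^ (-(5/4) : ℝ) *
        ((((m - r : ℕ)) : ℝ) + 1) ^ (-(5/4) : ℝ) := by positivity
  rcases le_or_gt (8 * rho f) (5 * m) with h | h
  · have h5 := jpm_inner h0 h1 (b := b) h4 h
    rw [← hr] at h5 h4 h ⊢
    have hk : 1 ≤ r / 4 := by omega
    have hk0 : (0:ℝ) < ((r / 4 : ℕ) : ℝ) := by exact_mod_cast hk
    have h6 := ha (r / 4) hk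
    have h7 : a4 q (r / 4) * a4 q (r / 4) ≤ (C * ((r / 4 : ℕ) : ℝ) ^ (-(5/4) : ℝ)) *
        (C * ((r / 4 : ℕ) : ℝ) ^ (-(5/4) : ℝ)) :=
      mul_le_mul h6 h6 (a4_nonneg h0 h1 _) (by positivity)
    have e1 : (C * ((r / 4 : ℕ) : ℝ) ^ (-(5/4) : ℝ)) * (C * ((r / 4 : ℕ) : ℝ) ^ (-(5/4) : ℝ)) =
        C ^ 2 * ((r / 4 : ℕ) : ℝ) ^ (-(5/2) : ℝ) := by
      have : ((r / 4 : ℕ) : ℝ) ^ (-(5/4) : ℝ) * ((r / 4 : ℕ) : ℝ) ^ (-(5/4) : ℝ) =
          ((r / 4 : ℕ) : ℝ) ^ (-(5/2) : ℝ) := by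
        rw [← Real.rpow_add hk0]
        norm_num
      calc _ = C ^ 2 * (((r / 4 : ℕ) : ℝ) ^ (-(5/4) : ℝ) * ((r / 4 : ℕ) : ℝ) ^ (-(5/4) : ℝ)) := by
            ring
        _ = _ := by rw [this]
    have e2 : ((r / 4 : ℕ) : ℝ) ^ (-(5/2) : ℝ) ≤ 512 * (r:ℝ) ^ (-(5/2) : ℝ) := by
      have g1 : (r:ℝ) / 8 ≤ ((r / 4 : ℕ) : ℝ) := by
        rw [div_le_iff₀ (by norm_num)]
        have : r ≤ (r / 4) * 8 := by omega
        exact_mod_cast this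
      calc ((r / 4 : ℕ) : ℝ) ^ (-(5/2) : ℝ) ≤ ((r:ℝ) / 8) ^ (-(5/2) : ℝ) :=
            Real.rpow_le_rpow_of_nonpos (by positivity) g1 (by norm_num)
        _ = (8:ℝ) ^ (5/2 : ℝ) * (r:ℝ) ^ (-(5/2) : ℝ) := by
            rw [Real.div_rpow hr0.le (by norm_num), Real.rpow_neg (by norm_num : (0:ℝ) ≤ 8)]
            field_simp
        _ ≤ 512 * (r:ℝ) ^ (-(5/2) : ℝ) := by
            apply mul_le_mul_of_nonneg_right _ (by positivity)
            calc (8:ℝ) ^ (5/2 : ℝ) ≤ (8:ℝ) ^ (3:ℝ) :=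
                  Real.rpow_le_rpow_of_exponent_le (by norm_num) (by norm_num)
              _ = 512 := by norm_num
    rw [e1] at h7
    have h8 := mul_le_mul_of_nonneg_left e2 (sq_nonneg C)
    linarith
  · have hk : 1 ≤ m / 8 := by omega
    have hk0 : (0:ℝ) < ((m / 8 : ℕ) : ℝ) := by exact_mod_cast hk
    have e2 : ((m / 8 : ℕ) : ℝ) ^ (-(5/4) : ℝ) ≤ 32 * (m:ℝ) ^ (-(5/4) : ℝ) := by
      have g1 : (m:ℝ) / 16 ≤ ((m / 8 : ℕ) : ℝ) := by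
        rw [div_le_iff₀ (by norm_num)]
        have : m ≤ (m / 8) * 16 := by omega
        exact_mod_cast this
      calc ((m / 8 : ℕ) : ℝ) ^ (-(5/4) : ℝ) ≤ ((m:ℝ) / 16) ^ (-(5/4) : ℝ) :=
            Real.rpow_le_rpow_of_nonpos (by positivity) g1 (by norm_num)
        _ = (16:ℝ) ^ (5/4 : ℝ) * (m:ℝ) ^ (-(5/4) : ℝ) := by
            rw [Real.div_rpow hm0.le (by norm_num), Real.rpow_neg (by norm_num : (0:ℝ) ≤ 16)]
            field_simp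
        _ = 32 * (m:ℝ) ^ (-(5/4) : ℝ) := by
            have : (16:ℝ) ^ (5/4 : ℝ) = 32 := by
              have h16 : (16:ℝ) = 2 ^ (4:ℝ) := by norm_num
              rw [h16, ← Real.rpow_mul (by norm_num)]
              norm_num
            rw [this]
    have h6 : a4 q (m / 8) ≤ 32 * C * (m:ℝ) ^ (-(5/4) : ℝ) := by
      refine (ha (m / 8) hk).trans ?_
      have := mul_le_mul_of_nonneg_left e2 hC.le
      linarith
    rcases eq_or_lt_of_le (rho_box hf) with h9 | h9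
    · have h5 := jpm_outer0 h0 h1 hm8 (b := b) h
      rw [h9, Nat.sub_self, Nat.cast_zero, zero_add, Real.one_rpow, mul_one]
      rw [← h9, ← hr] at h5
      have h10 : PQ q (boxE r) (fun F => JP (e0 b) f ↑F) ≤ 32 * C * (r:ℝ) ^ (-(5/4) : ℝ) := by
        refine h5.trans ?_
        have := h6
        rw [← h9, ← hr] at this
        exact this
      rw [← h9, ← hr]
      have n3 : 0 ≤ (r:ℝ) ^ (-(5/4) : ℝ) := by positivity
      nlinarith [mul_nonneg hC.le n3, mul_nonneg (mul_nonneg hC.le hC.le) n3]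
    · have h5 := jpm_outer h0 h1 hm8 (b := b) hf h h9
      rw [← hr] at h5 h9 ⊢
      have hl : 1 ≤ m - r := by omega
      have hl0 : (0:ℝ) < ((m - r : ℕ) : ℝ) := by exact_mod_cast hl
      have e3 : ((m - r : ℕ) : ℝ) ^ (-(5/4) : ℝ) ≤
          4 * ((((m - r : ℕ)) : ℝ) + 1) ^ (-(5/4) : ℝ) := by
        have g1 : ((((m - r : ℕ)) : ℝ) + 1) / 2 ≤ ((m - r : ℕ) : ℝ) := by
          have : (1:ℝ) ≤ ((m - r : ℕ) : ℝ) := by exact_mod_cast hl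
          linarith
        calc ((m - r : ℕ) : ℝ) ^ (-(5/4) : ℝ) ≤ (((((m - r : ℕ)) : ℝ) + 1) / 2) ^ (-(5/4) : ℝ) :=
              Real.rpow_le_rpow_of_nonpos (by positivity) g1 (by norm_num)
          _ = (2:ℝ) ^ (5/4 : ℝ) * ((((m - r : ℕ)) : ℝ) + 1) ^ (-(5/4) : ℝ) := by
              rw [Real.div_rpow hj0.le (by norm_num), Real.rpow_neg (by norm_num : (0:ℝ) ≤ 2)]
              field_simp
          _ ≤ 4 * ((((m - r : ℕ)) : ℝ) + 1) ^ (-(5/4) : ℝ) := by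
              apply mul_le_mul_of_nonneg_right _ (by positivity)
              calc (2:ℝ) ^ (5/4 : ℝ) ≤ (2:ℝ) ^ (2:ℝ) :=
                    Real.rpow_le_rpow_of_exponent_le (by norm_num) (by norm_num)
                _ = 4 := by norm_num
      have h7 : a4 q (m - r) ≤ 4 * (C + 1) * ((((m - r : ℕ)) : ℝ) + 1) ^ (-(5/4) : ℝ) := by
        refine (ha (m - r) hl).trans ?_
        have g1 := mul_le_mul_of_nonneg_left e3 hC.le
        have g2 : 0 ≤ ((((m - r : ℕ)) : ℝ) + 1) ^ (-(5/4) : ℝ) := by positivity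
        nlinarith
      have h8 : a4 q (m / 8) * a4 q (m - r) ≤ (32 * C * (m:ℝ) ^ (-(5/4) : ℝ)) *
          (4 * (C + 1) * ((((m - r : ℕ)) : ℝ) + 1) ^ (-(5/4) : ℝ)) :=
        mul_le_mul h6 h7 (a4_nonneg h0 h1 _) (by positivity)
      have e4 : (32 * C * (m:ℝ) ^ (-(5/4) : ℝ)) *
          (4 * (C + 1) * ((((m - r : ℕ)) : ℝ) + 1) ^ (-(5/4) : ℝ)) =
          128 * (C * (C + 1)) * (m:ℝ) ^ (-(5/4) : ℝ) *
            ((((m - r : ℕ)) : ℝ) + 1) ^ (-(5/4) : ℝ) := by ring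
      rw [e4] at h8
      linarith

/-- The sum of the summable series used below. -/
noncomputable def ZZ : ℝ := ∑' j : ℕ, ((j:ℝ) + 1) ^ (-(5/4) : ℝ)

theorem summ_ZZ : Summable (fun j : ℕ => ((j:ℝ) + 1) ^ (-(5/4) : ℝ)) := by
  have h := (summable_nat_add_iff 1).2
    (Real.summable_nat_rpow (p := -(5/4)).2 (by norm_num))
  refine h.congr fun j => ?_
  push_cast
  rfl

theorem sum_ZZ (m : ℕ) : ∑ r ∈ Finset.range (m + 1), ((((m - r : ℕ)) : ℝ) + 1) ^ (-(5/4) : ℝ) ≤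
    ZZ := by
  have h : ∑ r ∈ Finset.range (m + 1), ((((m - r : ℕ)) : ℝ) + 1) ^ (-(5/4) : ℝ) =
      ∑ j ∈ Finset.range (m + 1), ((j:ℝ) + 1) ^ (-(5/4) : ℝ) := by
    rw [← Finset.sum_range_reflect]
    apply Finset.sum_congr rfl
    intro r hr
    have := Finset.mem_range.1 hr
    have e : m - (m + 1 - 1 - r) = r := by omega
    rw [e]
  rw [h]
  exact summ_ZZ.sum_le_tsum _ (fun j _ => by positivity)

theorem ZZ_nonneg : 0 ≤ ZZ := tsum_nonneg fun j => by positivity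

/-- The sum over the far edges of the box. -/
theorem sum_box_far {C : ℝ} (hC : 0 < C) {q : ℝ} (h0 : 0 ≤ q) (h1 : q ≤ 1)
    (ha : ∀ k : ℕ, 1 ≤ k → a4 q k ≤ C * (k:ℝ) ^ (-(5/4) : ℝ)) {m : ℕ} (hm8 : 8 ≤ m) {b : Bool}
    {K : ℕ} (hK : 4 ≤ K) {T : Finset Edg} (hT : ∀ f ∈ T, f ∈ boxE m ∧ K ≤ rho f) :
    ∑ f ∈ T, PQ q (boxE m) (fun F => JP (e0 b) f ↑F) ≤
      65536 * C ^ 2 * (K:ℝ) ^ (-(1/2) : ℝ) +
        4096 * (C * (C + 1)) * ZZ * (m:ℝ) ^ (-(1/4) : ℝ) := by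
  have hm0 : (0:ℝ) < m := by
    have : 0 < m := by omega
    exact_mod_cast this
  have s1 : ∑ f ∈ T, PQ q (boxE m) (fun F => JP (e0 b) f ↑F) ≤
      ∑ f ∈ T, (512 * C ^ 2 * (rho f : ℝ) ^ (-(5/2) : ℝ)) +
      ∑ f ∈ T, (128 * (C * (C + 1)) * (m:ℝ) ^ (-(5/4) : ℝ) *
        ((((m - rho f : ℕ)) : ℝ) + 1) ^ (-(5/4) : ℝ)) := by
    rw [← Finset.sum_add_distrib]
    apply Finset.sum_le_sum
    intro f hf
    exact jpm_bounds hC h0 h1 ha hm8 (hT f hf).1 (hK.trans (hT f hf).2)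
  have s2 := sum_far (G := fun r => 512 * C ^ 2 * (r : ℝ) ^ (-(5/2) : ℝ)) (fun r => by positivity)
    (A := 512 * C ^ 2) (R := K) (by omega) (fun r _ => le_rfl) (T := T) (fun f hf => (hT f hf).2)
  have s3 := sum_rho (G := fun r => 128 * (C * (C + 1)) * (m:ℝ) ^ (-(5/4) : ℝ) *
        ((((m - r : ℕ)) : ℝ) + 1) ^ (-(5/4) : ℝ)) (fun r => by positivity) (T := T)
        (R := Finset.range (m + 1)) (fun f hf => Finset.mem_range.2 (by
          have := rho_box (hT f hf).1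
          omega))
  have s4 : ∑ r ∈ Finset.range (m + 1), 16 * ((r:ℝ) + 1) * (128 * (C * (C + 1)) *
      (m:ℝ) ^ (-(5/4) : ℝ) * ((((m - r : ℕ)) : ℝ) + 1) ^ (-(5/4) : ℝ)) ≤
      4096 * (C * (C + 1)) * ZZ * (m:ℝ) ^ (-(1/4) : ℝ) := by
    have t1 : ∀ r ∈ Finset.range (m + 1), 16 * ((r:ℝ) + 1) * (128 * (C * (C + 1)) *
        (m:ℝ) ^ (-(5/4) : ℝ) * ((((m - r : ℕ)) : ℝ) + 1) ^ (-(5/4) : ℝ)) ≤
        (4096 * (C * (C + 1)) * (m:ℝ) ^ (-(1/4) : ℝ)) *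
          ((((m - r : ℕ)) : ℝ) + 1) ^ (-(5/4) : ℝ) := by
      intro r hr
      have hr' : (r:ℝ) ≤ m := by exact_mod_cast (Nat.lt_succ_iff.1 (Finset.mem_range.1 hr))
      have hm1 : (1:ℝ) ≤ m := by
        have : 1 ≤ m := by omega
        exact_mod_cast this
      have e1 : (m:ℝ) ^ (-(1/4) : ℝ) = m * (m:ℝ) ^ (-(5/4) : ℝ) := by
        rw [← Real.rpow_one_add' hm0.le (by norm_num)]
        norm_num
      rw [e1]
      have n1 : 0 ≤ (C * (C + 1)) * (m:ℝ) ^ (-(5/4) : ℝ) *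
        ((((m - r : ℕ)) : ℝ) + 1) ^ (-(5/4) : ℝ) := by positivity
      have e2 : 16 * ((r:ℝ) + 1) * (128 * (C * (C + 1)) *
          (m:ℝ) ^ (-(5/4) : ℝ) * ((((m - r : ℕ)) : ℝ) + 1) ^ (-(5/4) : ℝ)) =
          (2048 * ((r:ℝ) + 1)) * ((C * (C + 1)) * (m:ℝ) ^ (-(5/4) : ℝ) *
            ((((m - r : ℕ)) : ℝ) + 1) ^ (-(5/4) : ℝ)) := by ring
      have e3 : (4096 * (C * (C + 1)) * (m * (m:ℝ) ^ (-(5/4) : ℝ))) *
          ((((m - r : ℕ)) : ℝ) + 1) ^ (-(5/4) : ℝ) =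
          (4096 * m) * ((C * (C + 1)) * (m:ℝ) ^ (-(5/4) : ℝ) *
            ((((m - r : ℕ)) : ℝ) + 1) ^ (-(5/4) : ℝ)) := by ring
      rw [e2, e3]
      apply mul_le_mul_of_nonneg_right _ n1
      linarith
    refine (Finset.sum_le_sum t1).trans ?_
    rw [← Finset.mul_sum]
    have := mul_le_mul_of_nonneg_left (sum_ZZ m)
      (show 0 ≤ 4096 * (C * (C + 1)) * (m:ℝ) ^ (-(1/4) : ℝ) by positivity)
    linarith
  have s5 := s3.trans s4
  have e5 : 128 * (512 * C ^ 2) * (K:ℝ) ^ (-(1/2) : ℝ) = 65536 * C ^ 2 * (K:ℝ) ^ (-(1/2) : ℝ) := by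
    ring
  rw [e5] at s2
  linarith

end Pool.Agent.W2helper75.EC
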