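import Pool.Agent.W2helper75.EC.Ser2

/-!
The second derivative of the mean cluster density near the critical point, as a series.
-/

set_option autoImplicit false
set_option maxHeartbeats 1000000

namespace Pool.Agent.W2helper75.EC

open H974 H973N H12S Finset MeasureTheory Filter Topology
open Pool.Agent.W2helper75.AU

theorem box_rho {m : ℕ} {f : Edg} (h : rho f < m) : f ∈ boxE m := by
  unfold rho at h
  unfold boxE
  obtain ⟨x, y, _ | _⟩ := f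
  · rw [mem_RE_false]; simp only at h; omega
  · rw [mem_RE_true]; simp only at h; omega

/-- Finite sums over far edges. -/
theorem jp_sum_far {p : unitInterval} {C : ℝ} (b : Bool)
    (hj : ∀ f : Edg, 1 ≤ rho f → jp p (e0 b) f ≤ C * (rho f : ℝ) ^ (-(5/2) : ℝ)) (hC : 0 ≤ C)
    {K : ℕ} (hK : 1 ≤ K) {T : Finset Edg} (hT : ∀ f ∈ T, K ≤ rho f) :
    ∑ f ∈ T, jp p (e0 b) f ≤ 128 * C * (K:ℝ) ^ (-(1/2) : ℝ) := by
  refine le_trans (Finset.sum_le_sum fun f hf => hj f (hK.trans (hT f hf))) ?_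
  exact sum_far (G := fun r => C * (r:ℝ) ^ (-(5/2) : ℝ)) (fun r => by positivity) (A := C) hK
    (fun r _ => le_rfl) hT

theorem card_low (K : ℕ) {T : Finset Edg} (hT : ∀ f ∈ T, rho f < K) :
    (T.card : ℝ) ≤ 16 * (K:ℝ) ^ 2 := by
  have h1 := sum_rho (G := fun _ => (1:ℝ)) (fun _ => zero_le_one) (T := T) (R := Finset.range K)
    (fun f hf => Finset.mem_range.2 (hT f hf))
  rw [Finset.sum_const, nsmul_eq_mul, mul_one] at h1
  refine h1.trans ?_
  have h2 : ∀ r ∈ Finset.range K, 16 * ((r:ℝ) + 1) * 1 ≤ 16 * (K:ℝ) := by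
    intro r hr
    have : (r:ℝ) + 1 ≤ K := by exact_mod_cast (Finset.mem_range.1 hr)
    linarith
  refine (Finset.sum_le_sum h2).trans ?_
  rw [Finset.sum_const, nsmul_eq_mul, Finset.card_range]
  nlinarith

theorem jp_sum_le {p : unitInterval} {C : ℝ} (b : Bool)
    (hj : ∀ f : Edg, 1 ≤ rho f → jp p (e0 b) f ≤ C * (rho f : ℝ) ^ (-(5/2) : ℝ)) (hC : 0 ≤ C)
    (T : Finset Edg) : ∑ f ∈ T, jp p (e0 b) f ≤ 16 + 128 * C := by
  classical
  rw [← Finset.sum_filter_add_sum_filter_not T (fun f => rho f < 1)]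
  have h1 : ∑ f ∈ T with rho f < 1, jp p (e0 b) f ≤ 16 := by
    refine (Finset.sum_le_card_nsmul _ _ 1 fun f _ => jp_le_one p (e0 b) f).trans ?_
    rw [nsmul_eq_mul, mul_one]
    have := card_low 1 (T := T.filter (fun f => rho f < 1)) (fun f hf => (Finset.mem_filter.1 hf).2)
    simpa using this
  have h2 : ∑ f ∈ T with ¬ rho f < 1, jp p (e0 b) f ≤ 128 * C * ((1:ℕ):ℝ) ^ (-(1/2) : ℝ) :=
    jp_sum_far b hj hC le_rfl (fun f hf => not_lt.1 (Finset.mem_filter.1 hf).2)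
  rw [Nat.cast_one, Real.one_rpow, mul_one] at h2
  linarith

theorem jp_summ {p : unitInterval} {C : ℝ} (b : Bool)
    (hj : ∀ f : Edg, 1 ≤ rho f → jp p (e0 b) f ≤ C * (rho f : ℝ) ^ (-(5/2) : ℝ)) (hC : 0 ≤ C) :
    Summable (fun f => jp p (e0 b) f) :=
  summable_of_sum_le (fun f => jp_nonneg p (e0 b) f) (jp_sum_le b hj hC)

/-- **Quantitative convergence** of the derivative in the box to the series. -/
theorem conv {C C' : ℝ} (hC : 0 < C) (hC' : 0 ≤ C') {p : unitInterval} (hp1 : 1/4 ≤ (p:ℝ))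
    (hp2 : (p:ℝ) ≤ 3/4) (ha : ∀ k : ℕ, 1 ≤ k → a4 p k ≤ C * (k:ℝ) ^ (-(5/4) : ℝ)) (b : Bool)
    (hj : ∀ f : Edg, 1 ≤ rho f → jp p (e0 b) f ≤ C' * (rho f : ℝ) ^ (-(5/2) : ℝ))
    {K m : ℕ} (hK : 4 ≤ K) (hm8 : 8 ≤ m) (hKm : K ≤ m) :
    |(∑ f ∈ boxE m, PQ p (boxE m) (fun F => JP (e0 b) f ↑F)) - ∑' f, jp p (e0 b) f| ≤
      64 * C * (K:ℝ) ^ 2 * (m:ℝ) ^ (-(5/4) : ℝ) +
      4096 * (C * (C + 1)) * ZZ * (m:ℝ) ^ (-(1/4) : ℝ) +
      (65536 * C ^ 2 + 128 * C') * (K:ℝ) ^ (-(1/2) : ℝ) := by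
  classical
  have h0 := p.2.1
  have h1 := p.2.2
  have ok := okq h0 h1
  have hsum := jp_summ b hj hC'
  obtain ⟨B, hB⟩ : ∃ B : Finset Edg, B = (boxE m).filter (fun f => rho f < K) := ⟨_, rfl⟩
  have hBm : B ⊆ boxE m := by rw [hB]; exact Finset.filter_subset _ _
  have hBK : ∀ f ∈ B, rho f < K := by
    intro f hf
    rw [hB] at hf
    exact (Finset.mem_filter.1 hf).2
  have hnB : ∀ f, f ∉ B → K ≤ rho f := by
    intro f hf
    by_contra hcon
    push Not at hcon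
    apply hf
    rw [hB, Finset.mem_filter]
    exact ⟨box_rho (by omega), hcon⟩
  -- the near part
  have n1 : |∑ f ∈ B, PQ p (boxE m) (fun F => JP (e0 b) f ↑F) - ∑ f ∈ B, jp p (e0 b) f| ≤
      64 * C * (K:ℝ) ^ 2 * (m:ℝ) ^ (-(5/4) : ℝ) := by
    rw [← Finset.sum_sub_distrib]
    refine (Finset.abs_sum_le_sum_abs _ _).trans ?_
    have t1 : ∀ f ∈ B, |PQ p (boxE m) (fun F => JP (e0 b) f ↑F) - jp p (e0 b) f| ≤
        4 * (C * (m:ℝ) ^ (-(5/4) : ℝ)) := by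
      intro f hf
      refine (jp_box p hp1 hp2 (by omega) b (hBm hf)).trans ?_
      have := (a4b_le h0 h1 m b).trans (ha m (by omega))
      linarith
    refine (Finset.sum_le_card_nsmul _ _ _ t1).trans ?_
    rw [nsmul_eq_mul]
    have t2 := card_low K hBK
    have t3 : 0 ≤ 4 * (C * (m:ℝ) ^ (-(5/4) : ℝ)) := by positivity
    have := mul_le_mul_of_nonneg_right t2 t3
    linarith
  -- the far part in the box
  have n2 : ∑ f ∈ (boxE m) \ B, PQ p (boxE m) (fun F => JP (e0 b) f ↑F) ≤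
      65536 * C ^ 2 * (K:ℝ) ^ (-(1/2) : ℝ) +
        4096 * (C * (C + 1)) * ZZ * (m:ℝ) ^ (-(1/4) : ℝ) := by
    apply sum_box_far hC h0 h1 ha hm8 hK
    intro f hf
    rw [Finset.mem_sdiff] at hf
    exact ⟨hf.1, hnB f hf.2⟩
  have n2' : 0 ≤ ∑ f ∈ (boxE m) \ B, PQ p (boxE m) (fun F => JP (e0 b) f ↑F) :=
    Finset.sum_nonneg fun f _ => Pr_nonneg ok _ _
  -- the far part of the series
  have n3 : ∑' f, jp p (e0 b) f ≤ ∑ f ∈ B, jp p (e0 b) f + 128 * C' * (K:ℝ) ^ (-(1/2) : ℝ) := by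
    refine hsum.tsum_le_of_sum_le fun U => ?_
    rw [← Finset.sum_inter_add_sum_sdiff U B]
    have t1 : ∑ f ∈ U ∩ B, jp p (e0 b) f ≤ ∑ f ∈ B, jp p (e0 b) f :=
      Finset.sum_le_sum_of_subset_of_nonneg Finset.inter_subset_right
        (fun f _ _ => jp_nonneg p (e0 b) f)
    have t2 := jp_sum_far b hj hC' (by omega : 1 ≤ K) (T := U \ B)
      (fun f hf => hnB f (Finset.mem_sdiff.1 hf).2)
    linarith
  have n4 : ∑ f ∈ B, jp p (e0 b) f ≤ ∑' f, jp p (e0 b) f :=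
    hsum.sum_le_tsum B (fun f _ => jp_nonneg p (e0 b) f)
  have e1 : ∑ f ∈ boxE m, PQ p (boxE m) (fun F => JP (e0 b) f ↑F) =
      ∑ f ∈ (boxE m) \ B, PQ p (boxE m) (fun F => JP (e0 b) f ↑F) +
        ∑ f ∈ B, PQ p (boxE m) (fun F => JP (e0 b) f ↑F) :=
    (Finset.sum_sdiff hBm).symm
  rw [e1]
  have n1' := abs_le.1 n1
  have q1 : 0 ≤ 65536 * C ^ 2 * (K:ℝ) ^ (-(1/2) : ℝ) := by positivity
  have q2 : 0 ≤ 4096 * (C * (C + 1)) * ZZ * (m:ℝ) ^ (-(1/4) : ℝ) := by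
    have := ZZ_nonneg
    positivity
  have q3 : 0 ≤ 128 * C' * (K:ℝ) ^ (-(1/2) : ℝ) := by positivity
  have e2 : (65536 * C ^ 2 + 128 * C') * (K:ℝ) ^ (-(1/2) : ℝ) =
      65536 * C ^ 2 * (K:ℝ) ^ (-(1/2) : ℝ) + 128 * C' * (K:ℝ) ^ (-(1/2) : ℝ) := by ring
  rw [e2, abs_le]
  constructor <;> linarith [n1'.1, n1'.2]

/-- The parameter as an element of the unit interval. -/
noncomputable def pI (q : ℝ) : unitInterval := Set.projIcc (0:ℝ) 1 zero_le_one q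

theorem pI_eq {q : ℝ} (h0 : 0 ≤ q) (h1 : q ≤ 1) : ((pI q : unitInterval) : ℝ) = q := by
  unfold pI
  rw [Set.projIcc_of_mem zero_le_one ⟨h0, h1⟩]

theorem pI_coe (p : unitInterval) : pI (p:ℝ) = p := Set.projIcc_val zero_le_one p

/-- The near-critical inputs. -/
theorem inputs : ∃ δ C C' k : ℝ, 0 < δ ∧ 0 < C ∧ 0 < C' ∧ 0 < k ∧ δ ≤ 1/4 ∧
    ∀ p : unitInterval, |(p:ℝ) - 1/2| ≤ δ →
      (∀ k : ℕ, 1 ≤ k → a4 p k ≤ C * (k:ℝ) ^ (-(5/4) : ℝ)) ∧
      (∀ e g : Edg, 1 ≤ de e g → jp p e g ≤ C' * (de e g : ℝ) ^ (-(5/2) : ℝ) *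
        Real.exp (-(k * (de e g * |(p:ℝ) - 1/2| ^ (4/3 : ℝ))))) := by
  obtain ⟨δ1, C1, k1, hδ1, hC1, hk1, h14, h1⟩ := a4_glob
  obtain ⟨δ2, C2, k2, hδ2, hC2, hk2, h24, h2⟩ := jp_upper
  refine ⟨min δ1 δ2, 2 * C1, C2, k2, lt_min hδ1 hδ2, by positivity, hC2, hk2,
    (min_le_left _ _).trans h14, ?_⟩
  intro p hp
  refine ⟨?_, fun e g hg => h2 p (hp.trans (min_le_right _ _)) e g hg⟩
  intro k hk
  have key : ∀ b : Bool, a4b p k b ≤ C1 * (k:ℝ) ^ (-(5/4) : ℝ) := by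
    intro b
    refine (h1 p (hp.trans (min_le_left _ _)) k b hk).trans ?_
    apply mul_le_of_le_one_right (by positivity)
    rw [Real.exp_le_one_iff]
    have : 0 ≤ k1 * (k * |(p:ℝ) - 1/2| ^ (4/3 : ℝ)) := by positivity
    linarith
  rw [a4_eq]
  linarith [key true, key false]

/-- **The derivative of the connection probability.** -/
theorem hI_deriv : ∃ δ : ℝ, 0 < δ ∧ δ ≤ 1/4 ∧ (∀ p : unitInterval, |(p:ℝ) - 1/2| ≤ δ →
    ∀ b : Bool, Summable (fun f => jp p (e0 b) f)) ∧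
    ∀ q : ℝ, |q - 1/2| < δ → ∀ b : Bool, HasDerivAt hI (∑' f, jp (pI q) (e0 b) f) q := by
  obtain ⟨δ, C, C', k, hδ, hC, hC', hk, h14, h⟩ := inputs
  have hjj : ∀ p : unitInterval, |(p:ℝ) - 1/2| ≤ δ → ∀ (b : Bool) (f : Edg), 1 ≤ rho f →
      jp p (e0 b) f ≤ C' * (rho f : ℝ) ^ (-(5/2) : ℝ) := by
    intro p hp b f hf
    have h2 := (h p hp).2 (e0 b) f (by rw [de_e0]; exact hf)
    rw [de_e0] at h2
    refine h2.trans ?_
    apply mul_le_of_le_one_right (by positivity)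
    rw [Real.exp_le_one_iff]
    have : 0 ≤ k * (rho f * |(p:ℝ) - 1/2| ^ (4/3 : ℝ)) := by positivity
    linarith
  refine ⟨δ, hδ, h14, fun p hp b => jp_summ b (hjj p hp b) hC'.le, ?_⟩
  intro q hq b
  obtain ⟨s, hs⟩ : ∃ s : Set ℝ, s = Set.Ioo (1/2 - δ) (1/2 + δ) := ⟨_, rfl⟩
  have hmem : ∀ x ∈ s, |x - 1/2| ≤ δ ∧ 0 ≤ x ∧ x ≤ 1 ∧ 1/4 ≤ x ∧ x ≤ 3/4 := by
    intro x hx
    rw [hs] at hx
    obtain ⟨a1, a2⟩ := hx
    refine ⟨abs_le.2 ⟨by linarith, by linarith⟩, by linarith, by linarith, by linarith,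
      by linarith⟩
  have hunif : TendstoUniformlyOn
      (fun (m : ℕ) (x : ℝ) => ∑ f ∈ boxE m, PQ x (boxE m) (fun F => JP (e0 b) f ↑F))
      (fun x => ∑' f, jp (pI x) (e0 b) f) atTop s := by
    rw [Metric.tendstoUniformlyOn_iff]
    intro ε hε
    have t1 : Tendsto (fun K : ℕ => (65536 * C ^ 2 + 128 * C') * (K:ℝ) ^ (-(1/2) : ℝ)) atTop
        (𝓝 ((65536 * C ^ 2 + 128 * C') * 0)) :=
      ((tendsto_rpow_neg_atTop (by norm_num)).comp tendsto_natCast_atTop_atTop).const_mul _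
    rw [mul_zero] at t1
    obtain ⟨K, hK1, hK2⟩ := ((t1.eventually (gt_mem_nhds (show 0 < ε / 2 by positivity))).and
      (eventually_ge_atTop 4)).exists
    have t2 : Tendsto (fun m : ℕ => 64 * C * (K:ℝ) ^ 2 * (m:ℝ) ^ (-(5/4) : ℝ) +
        4096 * (C * (C + 1)) * ZZ * (m:ℝ) ^ (-(1/4) : ℝ)) atTop
        (𝓝 (64 * C * (K:ℝ) ^ 2 * 0 + 4096 * (C * (C + 1)) * ZZ * 0)) :=
      (((tendsto_rpow_neg_atTop (by norm_num)).comp tendsto_natCast_atTop_atTop).const_mul _).add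
      (((tendsto_rpow_neg_atTop (by norm_num)).comp tendsto_natCast_atTop_atTop).const_mul _)
    rw [mul_zero, mul_zero, add_zero] at t2
    filter_upwards [t2.eventually (gt_mem_nhds (show 0 < ε / 2 by positivity)),
      eventually_ge_atTop (max 8 K)] with m hm1 hm2 x hx
    obtain ⟨c1, c2, c3, c4, c5⟩ := hmem x hx
    have e1 := pI_eq c2 c3
    rw [dist_comm, Real.dist_eq]
    have k1 := conv (p := pI x) hC hC'.le (by rw [e1]; exact c4) (by rw [e1]; exact c5)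
      (h (pI x) (by rw [e1]; exact c1)).1 b (hjj (pI x) (by rw [e1]; exact c1) b) hK2
      ((le_max_left _ _).trans hm2) ((le_max_right _ _).trans hm2)
    rw [e1] at k1
    linarith
  refine hasDerivAt_of_tendstoUniformlyOn (l := atTop) (s := s) (f := fun m x => hP m b x)
    (f' := fun (m : ℕ) (x : ℝ) => ∑ f ∈ boxE m, PQ x (boxE m) (fun F => JP (e0 b) f ↑F))
    (g' := fun x => ∑' f, jp (pI x) (e0 b) f) (by rw [hs]; exact isOpen_Ioo) hunif
    (Eventually.of_forall fun m x _ => hP_deriv m b x) ?_ ?_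
  · intro x hx
    obtain ⟨c1, c2, c3, c4, c5⟩ := hmem x hx
    rw [tendsto_iff_dist_tendsto_zero]
    refine squeeze_zero' (Eventually.of_forall fun m => dist_nonneg) ?_ arm_tend
    filter_upwards [eventually_ge_atTop 1] with m hm
    rw [dist_comm, Real.dist_eq]
    exact hI_hP hm b c2 c3
  · rw [hs]
    have := abs_lt.1 hq
    constructor <;> linarith [this.1, this.2]

/-- Sums over all partners of an edge do not depend on the position of the edge. -/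
theorem tsum_trl (p : unitInterval) (x y : ℤ) (b : Bool) :
    ∑' f, jp p (x, y, b) f = ∑' f, jp p (e0 b) f := by
  rw [← Equiv.tsum_eq (trl x y).φ]
  apply tsum_congr
  intro f
  have h := jp_sym (trl x y) p (e0 b) f
  have e1 : (trl x y).φ (e0 b) = (x, y, b) := by simp [e0]
  rw [e1] at h
  exact h

theorem summ_trl (p : unitInterval) (x y : ℤ) (b : Bool) (h : Summable (fun f => jp p (e0 b) f)) :
    Summable (fun f => jp p (x, y, b) f) := by
  rw [← Equiv.summable_iff (trl x y).φ]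
  refine h.congr fun f => ?_
  have h := jp_sym (trl x y) p (e0 b) f
  have e1 : (trl x y).φ (e0 b) = (x, y, b) := by simp [e0]
  rw [e1] at h
  exact h.symm

/-- **The second derivative of the mean cluster density.** -/
theorem kap_second : ∃ δ : ℝ, 0 < δ ∧ δ ≤ 1/4 ∧ (∀ p : unitInterval, |(p:ℝ) - 1/2| ≤ δ →
    ∀ e : Edg, Summable (fun f => jp p e f)) ∧
    ∀ p : unitInterval, |(p:ℝ) - 1/2| < δ → ∀ e : Edg,
      HasDerivAt (deriv kap') (2 * ∑' f, jp p e f) p := by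
  obtain ⟨δ, hδ, h14, hs, hd⟩ := hI_deriv
  refine ⟨δ, hδ, h14, ?_, ?_⟩
  · rintro p hp ⟨x, y, b⟩
    exact summ_trl p x y b (hs p hp b)
  · rintro p hp ⟨x, y, b⟩
    rw [tsum_trl]
    have h1 := hd p hp b
    rw [pI_coe] at h1
    have hp' := abs_lt.1 hp
    have hev : deriv kap' =ᶠ[𝓝 (p:ℝ)] fun q => -2 * (1 - hI q) := by
      filter_upwards [Ioo_mem_nhds (show (0:ℝ) < p by linarith [hp'.1])
        (show (p:ℝ) < 1 by linarith [hp'.2])] with q hq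
      exact (kap_deriv hq.1 hq.2).deriv
    have h2 := ((h1.const_sub 1).const_mul (-2))
    have e1 : -2 * -(∑' f, jp p (e0 b) f) = 2 * ∑' f, jp p (e0 b) f := by ring
    rw [e1] at h2
    exact h2.congr_of_eventuallyEq hev

end Pool.Agent.W2helper75.EC
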