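import Pool.Agent.W2helper75.EC.Up

/-!
Sums over the edges by distance.
-/

set_option autoImplicit false
set_option maxHeartbeats 1000000

namespace Pool.Agent.W2helper75.EC

open H974 H12S Finset MeasureTheory Filter Topology

/-- The distance of an edge to the origin. -/
def rho (f : Edg) : ℕ := max f.1.natAbs f.2.1.natAbs

theorem de_e0 (b : Bool) (f : Edg) : de (e0 b) f = rho f := by
  unfold de rho e0
  simp

/-- The edges at distance `r`. -/
noncomputable def shell (r : ℕ) : Finset Edg :=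
  (({-(r:ℤ), (r:ℤ)} : Finset ℤ) ×ˢ (Finset.Icc (-(r:ℤ)) r ×ˢ (Finset.univ : Finset Bool))) ∪
    (Finset.Icc (-(r:ℤ)) r ×ˢ (({-(r:ℤ), (r:ℤ)} : Finset ℤ) ×ˢ (Finset.univ : Finset Bool)))

theorem mem_shell (f : Edg) : f ∈ shell (rho f) := by
  obtain ⟨x, y, b⟩ := f
  unfold shell rho
  simp only [Finset.mem_union, Finset.mem_product, Finset.mem_insert, Finset.mem_singleton,
    Finset.mem_Icc, Finset.mem_univ, and_true]
  omega

theorem card_shell (r : ℕ) : ((shell r).card : ℝ) ≤ 16 * (r + 1) := by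
  have h : (shell r).card ≤ 16 * (r + 1) := by
    unfold shell
    refine (Finset.card_union_le _ _).trans ?_
    simp only [Finset.card_product, Finset.card_univ, Fintype.card_bool, Int.card_Icc]
    have h2 : (({-(r:ℤ), (r:ℤ)} : Finset ℤ)).card ≤ 2 := Finset.card_le_two
    have h3 : ((r:ℤ) + 1 - -(r:ℤ)).toNat = 2 * r + 1 := by omega
    rw [h3]
    nlinarith
  exact_mod_cast h

theorem sum_rho {G : ℕ → ℝ} (hG : ∀ r, 0 ≤ G r) {T : Finset Edg} {R : Finset ℕ}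
    (hR : ∀ f ∈ T, rho f ∈ R) : ∑ f ∈ T, G (rho f) ≤ ∑ r ∈ R, 16 * ((r:ℝ) + 1) * G r := by
  classical
  rw [← Finset.sum_fiberwise_of_maps_to hR]
  apply Finset.sum_le_sum
  intro r _
  have h1 : ∑ f ∈ T with rho f = r, G (rho f) = ((T.filter (fun f => rho f = r)).card : ℝ) * G r := by
    rw [← nsmul_eq_mul]
    apply Finset.sum_eq_card_nsmul
    intro f hf
    rw [(Finset.mem_filter.1 hf).2]
  rw [h1]
  apply mul_le_mul_of_nonneg_right _ (hG r)
  refine le_trans ?_ (card_shell r)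
  have h2 : T.filter (fun f => rho f = r) ⊆ shell r := by
    intro f hf
    have h3 := (Finset.mem_filter.1 hf).2
    rw [← h3]
    exact mem_shell f
  exact_mod_cast Finset.card_le_card h2

/-- Telescoping bound. -/
theorem tele {r : ℕ} (hr : 1 ≤ r) : (r:ℝ) ^ (-(3/2) : ℝ) ≤
    4 * ((r:ℝ) ^ (-(1/2) : ℝ) - ((r:ℝ) + 1) ^ (-(1/2) : ℝ)) := by
  have hr0 : (0:ℝ) < r := by exact_mod_cast hr
  have hr1 : (1:ℝ) ≤ r := by exact_mod_cast hr
  obtain ⟨a, ha⟩ : ∃ a : ℝ, a = Real.sqrt r := ⟨_, rfl⟩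
  obtain ⟨c, hc⟩ : ∃ c : ℝ, c = Real.sqrt (r + 1) := ⟨_, rfl⟩
  have ha0 : 0 < a := by rw [ha]; exact Real.sqrt_pos.2 hr0
  have hc0 : 0 < c := by rw [hc]; exact Real.sqrt_pos.2 (by linarith)
  have ha2 : a ^ 2 = r := by rw [ha]; exact Real.sq_sqrt hr0.le
  have hc2 : c ^ 2 = r + 1 := by rw [hc]; exact Real.sq_sqrt (by linarith)
  have e1 : (r:ℝ) ^ (-(1/2) : ℝ) = 1 / a := by
    rw [Real.rpow_neg hr0.le, ha, Real.sqrt_eq_rpow]
    exact (one_div _).symm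
  have e2 : ((r:ℝ) + 1) ^ (-(1/2) : ℝ) = 1 / c := by
    rw [Real.rpow_neg (by linarith), hc, Real.sqrt_eq_rpow]
    exact (one_div _).symm
  have e3 : (r:ℝ) ^ (-(3/2) : ℝ) = 1 / a ^ 3 := by
    have : a ^ 3 = (r:ℝ) ^ (3/2 : ℝ) := by
      rw [ha, Real.sqrt_eq_rpow, ← Real.rpow_natCast ((r:ℝ) ^ (1/2 : ℝ)), ← Real.rpow_mul hr0.le]
      norm_num
    rw [Real.rpow_neg hr0.le, this, one_div]
  rw [e1, e2, e3]
  have hac : a ≤ c := by
    rw [ha, hc]
    exact Real.sqrt_le_sqrt (by linarith)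
  have ha1 : 1 ≤ a := by
    rw [ha]
    exact Real.one_le_sqrt.2 hr1
  have hc32 : c ≤ 3 / 2 * a := by
    have : c ^ 2 ≤ (3 / 2 * a) ^ 2 := by
      rw [hc2, mul_pow, ha2]
      nlinarith
    exact le_of_sq_le_sq this (by positivity)
  have e4 : 1 / a - 1 / c = 1 / (a * c * (c + a)) := by
    have h1 : c ^ 2 - a ^ 2 = 1 := by rw [ha2, hc2]; ring
    have h2 : (c - a) * (c + a) = 1 := by nlinarith
    field_simp
    nlinarith
  rw [e4]
  rw [mul_one_div, div_le_div_iff₀ (by positivity) (by positivity), one_mul]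
  have h5 : a * c * (c + a) ≤ a * (3 / 2 * a) * (3 / 2 * a + a) := by
    apply mul_le_mul
    · exact mul_le_mul_of_nonneg_left hc32 ha0.le
    · linarith
    · positivity
    · positivity
  nlinarith [pow_pos ha0 3]

theorem sum_tele {R M : ℕ} (hR : 1 ≤ R) :
    ∑ r ∈ Finset.Ico R M, (r:ℝ) ^ (-(3/2) : ℝ) ≤ 4 * (R:ℝ) ^ (-(1/2) : ℝ) := by
  rcases le_or_gt M R with h | h
  · rw [Finset.Ico_eq_empty (by omega), Finset.sum_empty]
    positivity
  · have h1 : ∀ M : ℕ, R ≤ M → ∑ r ∈ Finset.Ico R M, (r:ℝ) ^ (-(3/2) : ℝ) ≤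
        4 * ((R:ℝ) ^ (-(1/2) : ℝ) - (M:ℝ) ^ (-(1/2) : ℝ)) := by
      intro M hM
      induction M, hM using Nat.le_induction with
      | base => simp
      | succ M hM ih =>
        rw [Finset.sum_Ico_succ_top hM]
        have := tele (hR.trans hM)
        push_cast
        linarith
    have h2 := h1 M h.le
    have h3 : 0 ≤ (M:ℝ) ^ (-(1/2) : ℝ) := by positivity
    linarith

/-- Tail of the sum over the edges, finite version. -/
theorem sum_far {G : ℕ → ℝ} (hG : ∀ r, 0 ≤ G r) {A : ℝ} {R : ℕ} (hR : 1 ≤ R)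
    (hGA : ∀ r, R ≤ r → G r ≤ A * (r:ℝ) ^ (-(5/2) : ℝ)) {T : Finset Edg}
    (hT : ∀ f ∈ T, R ≤ rho f) : ∑ f ∈ T, G (rho f) ≤ 128 * A * (R:ℝ) ^ (-(1/2) : ℝ) := by
  have hA : 0 ≤ A := by
    have h1 := (hG R).trans (hGA R le_rfl)
    have h2 : 0 < (R:ℝ) ^ (-(5/2) : ℝ) := by
      have : (0:ℝ) < R := by exact_mod_cast hR
      positivity
    by_contra hcon
    push Not at hcon
    nlinarith
  obtain ⟨M, hM⟩ : ∃ M : ℕ, ∀ f ∈ T, rho f < M := by
    refine ⟨T.sup rho + 1, fun f hf => ?_⟩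
    exact Nat.lt_succ_of_le (Finset.le_sup hf)
  refine (sum_rho hG (R := Finset.Ico R M) (fun f hf => Finset.mem_Ico.2 ⟨hT f hf, hM f hf⟩)).trans ?_
  have h1 : ∀ r ∈ Finset.Ico R M, 16 * ((r:ℝ) + 1) * G r ≤ 32 * A * (r:ℝ) ^ (-(3/2) : ℝ) := by
    intro r hr
    have hrR := (Finset.mem_Ico.1 hr).1
    have hr1 : (1:ℝ) ≤ r := by exact_mod_cast hR.trans hrR
    have hr0 : (0:ℝ) < r := by linarith
    have e1 : (r:ℝ) ^ (-(3/2) : ℝ) = r * (r:ℝ) ^ (-(5/2) : ℝ) := by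
      rw [← Real.rpow_one_add' hr0.le (by norm_num)]
      norm_num
    rw [e1]
    have h2 := hGA r hrR
    have h3 : 0 ≤ (r:ℝ) ^ (-(5/2) : ℝ) := by positivity
    calc 16 * ((r:ℝ) + 1) * G r ≤ 16 * ((r:ℝ) + 1) * (A * (r:ℝ) ^ (-(5/2) : ℝ)) :=
          mul_le_mul_of_nonneg_left h2 (by positivity)
      _ ≤ (32 * r) * (A * (r:ℝ) ^ (-(5/2) : ℝ)) := by
          apply mul_le_mul_of_nonneg_right _ (by positivity)
          linarith
      _ = _ := by ring
  refine (Finset.sum_le_sum h1).trans ?_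
  rw [← Finset.mul_sum]
  have h2 := mul_le_mul_of_nonneg_left (sum_tele (M := M) hR) (show 0 ≤ 32 * A by positivity)
  linarith

end Pool.Agent.W2helper75.EC
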