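import Pool.Agent.W2helper75.EC.Ser3

/-!
The part of the series which comes from far pairs of edges.
-/

set_option autoImplicit false
set_option maxHeartbeats 1000000

namespace Pool.Agent.W2helper75.EC

open H974 H973N H12S Finset MeasureTheory Filter Topology
open Pool.Agent.W2helper75.AU

/-- The sum over the edges at distance at least `r`. -/
noncomputable def tl (p : unitInterval) (e : Edg) (r : ℕ) : ℝ :=
  ∑' f : Edg, if r ≤ de e f then jp p e f else 0

theorem de_trl (x y : ℤ) (b : Bool) (f : Edg) :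
    de (x, y, b) ((trl x y).φ f) = rho f := by
  obtain ⟨u, v, c⟩ := f
  unfold de rho
  rw [trl_φ]
  simp only
  congr 1 <;> omega

theorem tl_trl (p : unitInterval) (x y : ℤ) (b : Bool) (r : ℕ) :
    tl p (x, y, b) r = tl p (e0 b) r := by
  unfold tl
  rw [← Equiv.tsum_eq (trl x y).φ]
  apply tsum_congr
  intro f
  have h := jp_sym (trl x y) p (e0 b) f
  have e1 : (trl x y).φ (e0 b) = (x, y, b) := by simp [e0]
  rw [e1] at h
  rw [h, de_trl, de_e0]

theorem tl_summ {p : unitInterval} {e : Edg} (h : Summable (fun f => jp p e f)) (r : ℕ) :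
    Summable (fun f : Edg => if r ≤ de e f then jp p e f else 0) := by
  refine Summable.of_nonneg_of_le (fun f => ?_) (fun f => ?_) h
  · split_ifs
    · exact jp_nonneg p e f
    · exact le_rfl
  · split_ifs
    · exact le_rfl
    · exact jp_nonneg p e f

theorem tl_anti {p : unitInterval} {e : Edg} (h : Summable (fun f => jp p e f)) {r s : ℕ}
    (hrs : r ≤ s) : tl p e s ≤ tl p e r := by
  refine (tl_summ h s).tsum_le_tsum (fun f => ?_) (tl_summ h r)
  split_ifs with h1 h2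
  · exact le_rfl
  · omega
  · exact jp_nonneg p e f
  · exact le_rfl

/-- Upper bound for the far part. -/
theorem tl_upper {C k : ℝ} (hC : 0 < C) (hk : 0 ≤ k) {p : unitInterval} {t : ℝ} (ht : 0 ≤ t)
    (b : Bool) (hj : ∀ f : Edg, 1 ≤ rho f → jp p (e0 b) f ≤ C * (rho f : ℝ) ^ (-(5/2) : ℝ) *
      Real.exp (-(k * (rho f * t)))) {r : ℕ} (hr : 1 ≤ r) :
    tl p (e0 b) r ≤ 128 * C * (r:ℝ) ^ (-(1/2) : ℝ) * Real.exp (-(k * (r * t))) := by
  classical
  unfold tl
  apply Real.tsum_le_of_sum_le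
  · intro f
    show 0 ≤ if r ≤ de (e0 b) f then jp p (e0 b) f else 0
    split_ifs
    · exact jp_nonneg p (e0 b) f
    · exact le_rfl
  · intro U
    rw [← Finset.sum_filter]
    have hT : ∀ f ∈ U.filter (fun f => r ≤ de (e0 b) f), r ≤ rho f := by
      intro f hf
      have := (Finset.mem_filter.1 hf).2
      rwa [de_e0] at this
    have h1 : ∀ f ∈ U.filter (fun f => r ≤ de (e0 b) f), jp p (e0 b) f ≤
        (fun n : ℕ => (C * Real.exp (-(k * (r * t)))) * (n:ℝ) ^ (-(5/2) : ℝ)) (rho f) := by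
      intro f hf
      have h2 := hT f hf
      have h3 := hj f (hr.trans h2)
      refine h3.trans ?_
      have h4 : Real.exp (-(k * (rho f * t))) ≤ Real.exp (-(k * (r * t))) := by
        apply Real.exp_le_exp.mpr
        have h5 : (r:ℝ) ≤ rho f := by exact_mod_cast h2
        have h6 := mul_le_mul_of_nonneg_right h5 ht
        have h7 := mul_le_mul_of_nonneg_left h6 hk
        linarith
      have h5 : 0 ≤ C * (rho f : ℝ) ^ (-(5/2) : ℝ) := by positivity
      have h6 := mul_le_mul_of_nonneg_left h4 h5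
      simp only
      linarith
    refine (Finset.sum_le_sum h1).trans ?_
    refine (sum_far (G := fun n : ℕ => (C * Real.exp (-(k * (r * t)))) * (n:ℝ) ^ (-(5/2) : ℝ))
      (fun n => by positivity) (A := C * Real.exp (-(k * (r * t)))) hr (fun _ _ => le_rfl)
      hT).trans (le_of_eq ?_)
    ring

/-- Lower bound for the far part. -/
theorem tl_lower {c K : ℝ} (hc : 0 < c) (hK : 0 ≤ K) {p : unitInterval} {t : ℝ} (ht : 0 ≤ t)
    (b : Bool) (hs : Summable (fun f => jp p (e0 b) f)) {R0 : ℕ}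
    (hj : ∀ f : Edg, R0 ≤ rho f → c * (rho f : ℝ) ^ (-(5/2) : ℝ) *
      Real.exp (-(K * (rho f * t))) ≤ jp p (e0 b) f) {r : ℕ} (hr : 1 ≤ r) (hr0 : R0 ≤ r) :
    c / 8 * (r:ℝ) ^ (-(1/2) : ℝ) * Real.exp (-(2 * K * (r * t))) ≤ tl p (e0 b) r := by
  classical
  obtain ⟨B, hB⟩ : ∃ B : Finset Edg, B = (Finset.Icc (r:ℤ) (2 * r)) ×ˢ
    ((Finset.Icc (0:ℤ) r) ×ˢ (Finset.univ : Finset Bool)) := ⟨_, rfl⟩
  have hBr : ∀ f ∈ B, r ≤ rho f ∧ rho f ≤ 2 * r := by
    rintro ⟨x, y, c⟩ hf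
    rw [hB] at hf
    simp only [Finset.mem_product, Finset.mem_Icc, Finset.mem_univ, and_true] at hf
    unfold rho
    simp only
    omega
  have hcard : 2 * (r:ℝ) ^ 2 ≤ (B.card : ℝ) := by
    have h1 : B.card = (r + 1) * ((r + 1) * 2) := by
      rw [hB, Finset.card_product, Finset.card_product, Int.card_Icc, Int.card_Icc,
        Finset.card_univ, Fintype.card_bool]
      have e1 : (2 * (r:ℤ) + 1 - r).toNat = r + 1 := by omega
      have e2 : ((r:ℤ) + 1 - 0).toNat = r + 1 := by omega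
      rw [e1, e2]
    rw [h1]
    push_cast
    have : (0:ℝ) ≤ r := Nat.cast_nonneg r
    nlinarith
  have h1 : ∑ f ∈ B, jp p (e0 b) f ≤ tl p (e0 b) r := by
    have h2 := (tl_summ hs r).sum_le_tsum B (fun f _ => by
      split_ifs
      · exact jp_nonneg p (e0 b) f
      · exact le_rfl)
    have h3 : ∑ f ∈ B, (if r ≤ de (e0 b) f then jp p (e0 b) f else 0) =
        ∑ f ∈ B, jp p (e0 b) f := by
      apply Finset.sum_congr rfl
      intro f hf
      rw [if_pos]
      rw [de_e0]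
      exact (hBr f hf).1
    rw [h3] at h2
    exact h2
  refine le_trans ?_ h1
  have hr1 : (0:ℝ) < r := by exact_mod_cast hr
  have h4 : ∀ f ∈ B, c * ((2 * r : ℝ)) ^ (-(5/2) : ℝ) * Real.exp (-(2 * K * (r * t))) ≤
      jp p (e0 b) f := by
    intro f hf
    obtain ⟨g1, g2⟩ := hBr f hf
    refine le_trans ?_ (hj f (hr0.trans g1))
    have g3 : (rho f : ℝ) ≤ 2 * r := by exact_mod_cast g2
    have g4 : (0:ℝ) < rho f := by
      have : 0 < rho f := by omega
      exact_mod_cast this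
    have g5 : ((2 * r : ℝ)) ^ (-(5/2) : ℝ) ≤ (rho f : ℝ) ^ (-(5/2) : ℝ) :=
      Real.rpow_le_rpow_of_nonpos g4 g3 (by norm_num)
    have g6 : Real.exp (-(2 * K * (r * t))) ≤ Real.exp (-(K * (rho f * t))) := by
      apply Real.exp_le_exp.mpr
      have k1 := mul_le_mul_of_nonneg_right g3 ht
      have k2 := mul_le_mul_of_nonneg_left k1 hK
      linarith
    apply mul_le_mul _ g6 (Real.exp_pos _).le (by positivity)
    exact mul_le_mul_of_nonneg_left g5 hc.le
  have h5 := Finset.card_nsmul_le_sum B _ _ h4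
  rw [nsmul_eq_mul] at h5
  refine le_trans ?_ h5
  have e1 : (2 * r : ℝ) ^ (-(5/2) : ℝ) = (2:ℝ) ^ (-(5/2) : ℝ) * (r:ℝ) ^ (-(5/2) : ℝ) :=
    Real.mul_rpow (by norm_num) hr1.le
  have e2 : (r:ℝ) ^ (-(1/2) : ℝ) = (r:ℝ) ^ 2 * (r:ℝ) ^ (-(5/2) : ℝ) := by
    rw [← Real.rpow_natCast, ← Real.rpow_add hr1]
    norm_num
  have e3 : (1:ℝ) / 8 ≤ (2:ℝ) ^ (-(5/2) : ℝ) := by
    calc (1:ℝ) / 8 = (2:ℝ) ^ (-3 : ℝ) := by
          rw [Real.rpow_neg (by norm_num)]
          norm_num
      _ ≤ (2:ℝ) ^ (-(5/2) : ℝ) := Real.rpow_le_rpow_of_exponent_le (by norm_num) (by norm_num)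
  rw [e1, e2]
  obtain ⟨X, hX⟩ : ∃ X : ℝ, X = c * (r:ℝ) ^ (-(5/2) : ℝ) * Real.exp (-(2 * K * (r * t))) :=
    ⟨_, rfl⟩
  have hX0 : 0 ≤ X := by rw [hX]; positivity
  calc c / 8 * ((r:ℝ) ^ 2 * (r:ℝ) ^ (-(5/2) : ℝ)) * Real.exp (-(2 * K * (r * t)))
      = (r:ℝ) ^ 2 * (1 / 8) * X := by rw [hX]; ring
    _ ≤ (B.card : ℝ) * (2:ℝ) ^ (-(5/2) : ℝ) * X := by
        apply mul_le_mul_of_nonneg_right _ hX0
        apply mul_le_mul _ e3 (by norm_num) (by positivity)
        have : 0 ≤ (r:ℝ) ^ 2 := by positivity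
        linarith
    _ = _ := by rw [hX]; ring

/-- **All together.** -/
theorem main : ∃ (δ c C : ℝ) (n₀ : ℕ), 0 < δ ∧ 0 < c ∧ 0 < C ∧ δ ≤ 1/4 ∧
    (∀ p : unitInterval, |(p:ℝ) - 1/2| ≤ δ → ∀ e f : Edg,
      (1 ≤ de e f → jp p e f ≤ C * (de e f : ℝ) ^ (-(5/2) : ℝ) *
        Real.exp (-(c * de e f * |(p:ℝ) - 1/2| ^ (4/3 : ℝ)))) ∧
      (n₀ ≤ de e f → c * (de e f : ℝ) ^ (-(5/2) : ℝ) *
        Real.exp (-(C * de e f * |(p:ℝ) - 1/2| ^ (4/3 : ℝ))) ≤ jp p e f)) ∧
    (∀ p : unitInterval, |(p:ℝ) - 1/2| < δ → ∀ e : Edg, Summable (fun f => jp p e f) ∧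
      HasDerivAt (deriv kap') (2 * ∑' f, jp p e f) p) ∧
    (∀ p : unitInterval, |(p:ℝ) - 1/2| < δ → ∀ (e : Edg) (n : ℕ), 1 ≤ n →
      c * (n:ℝ) ^ (-(1/2) : ℝ) * Real.exp (-(C * n * |(p:ℝ) - 1/2| ^ (4/3 : ℝ))) ≤ tl p e n ∧
      tl p e n ≤ C * (n:ℝ) ^ (-(1/2) : ℝ) * Real.exp (-(c * n * |(p:ℝ) - 1/2| ^ (4/3 : ℝ)))) := by
  obtain ⟨δ1, Ca, C1, k1, hδ1, hCa, hC1, hk1, h14, hin⟩ := inputs
  obtain ⟨δ2, c2, K2, R0, hδ2, hc2, hK2, hlow⟩ := jp_lower
  obtain ⟨δ3, hδ3, h34, hsum, hder⟩ := kap_second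
  obtain ⟨δ, hδ⟩ : ∃ δ : ℝ, δ = min δ1 (min δ2 δ3) := ⟨_, rfl⟩
  have d1 : δ ≤ δ1 := by rw [hδ]; exact min_le_left _ _
  have d2 : δ ≤ δ2 := by rw [hδ]; exact (min_le_right _ _).trans (min_le_left _ _)
  have d3 : δ ≤ δ3 := by rw [hδ]; exact (min_le_right _ _).trans (min_le_right _ _)
  have hδ0 : 0 < δ := by rw [hδ]; exact lt_min hδ1 (lt_min hδ2 hδ3)
  obtain ⟨R1, hR1⟩ : ∃ R1 : ℕ, R1 = max R0 1 := ⟨_, rfl⟩
  have hR11 : 1 ≤ R1 := by rw [hR1]; exact le_max_right _ _
  have hR10 : (0:ℝ) < R1 := by exact_mod_cast hR11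
  obtain ⟨c3, hc3⟩ : ∃ c3 : ℝ, c3 = c2 / 8 * (R1:ℝ) ^ (-(1/2) : ℝ) *
    Real.exp (-(2 * K2 * R1)) := ⟨_, rfl⟩
  have hc30 : 0 < c3 := by rw [hc3]; positivity
  obtain ⟨c, hc⟩ : ∃ c : ℝ, c = min (min c2 c3) (min k1 (c2 / 8)) := ⟨_, rfl⟩
  have b1 : c ≤ c2 := by rw [hc]; exact (min_le_left _ _).trans (min_le_left _ _)
  have b2 : c ≤ c3 := by rw [hc]; exact (min_le_left _ _).trans (min_le_right _ _)
  have b3 : c ≤ k1 := by rw [hc]; exact (min_le_right _ _).trans (min_le_left _ _)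
  have b4 : c ≤ c2 / 8 := by rw [hc]; exact (min_le_right _ _).trans (min_le_right _ _)
  have hc0 : 0 < c := by
    rw [hc]
    exact lt_min (lt_min hc2 hc30) (lt_min hk1 (by positivity))
  obtain ⟨C, hC⟩ : ∃ C : ℝ, C = 128 * C1 + 2 * K2 := ⟨_, rfl⟩
  have a1 : C1 ≤ C := by rw [hC]; linarith
  have a2 : 128 * C1 ≤ C := by rw [hC]; linarith
  have a3 : 2 * K2 ≤ C := by rw [hC]; linarith
  have a4' : K2 ≤ C := by rw [hC]; linarith
  refine ⟨δ, c, C, R0, hδ0, hc0, by rw [hC]; positivity, d1.trans h14, ?_, ?_, ?_⟩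
  · intro p hp e f
    obtain ⟨t, ht⟩ : ∃ t : ℝ, t = |(p:ℝ) - 1/2| ^ (4/3 : ℝ) := ⟨_, rfl⟩
    have ht0 : 0 ≤ t := by rw [ht]; positivity
    rw [← ht]
    constructor
    · intro h1
      have h2 := (hin p (hp.trans d1)).2 e f h1
      rw [← ht] at h2
      refine h2.trans ?_
      apply mul_le_mul _ _ (Real.exp_pos _).le (by
        have : 0 ≤ C := by linarith
        positivity)
      · exact mul_le_mul_of_nonneg_right a1 (by positivity)
      · apply Real.exp_le_exp.mpr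
        have h3 : 0 ≤ (de e f : ℝ) * t := by positivity
        have := mul_le_mul_of_nonneg_right b3 h3
        linarith
    · intro h1
      have h2 := hlow p (hp.trans d2) e f h1
      rw [← ht] at h2
      refine le_trans ?_ h2
      apply mul_le_mul _ _ (Real.exp_pos _).le (by positivity)
      · exact mul_le_mul_of_nonneg_right b1 (by positivity)
      · apply Real.exp_le_exp.mpr
        have h3 : 0 ≤ (de e f : ℝ) * t := by positivity
        have := mul_le_mul_of_nonneg_right a4' h3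
        linarith
  · intro p hp e
    exact ⟨hsum p (hp.le.trans d3) e, hder p (lt_of_lt_of_le hp d3) e⟩
  · rintro p hp ⟨x, y, b⟩ n hn
    rw [tl_trl]
    obtain ⟨t, ht⟩ : ∃ t : ℝ, t = |(p:ℝ) - 1/2| ^ (4/3 : ℝ) := ⟨_, rfl⟩
    have ht0 : 0 ≤ t := by rw [ht]; positivity
    have ht1 : t ≤ 1 := by
      rw [ht]
      exact Real.rpow_le_one (abs_nonneg _) (by linarith [hp.le, d1]) (by norm_num)
    rw [← ht]
    have hn0 : (0:ℝ) < n := by exact_mod_cast hn
    have hs := hsum p (hp.le.trans d3) (e0 b)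
    have hl : ∀ f : Edg, R0 ≤ rho f → c2 * (rho f : ℝ) ^ (-(5/2) : ℝ) *
        Real.exp (-(K2 * (rho f * t))) ≤ jp p (e0 b) f := by
      intro f hf
      have h2 := hlow p (hp.le.trans d2) (e0 b) f (by rw [de_e0]; exact hf)
      rw [de_e0, ← ht] at h2
      exact h2
    constructor
    · rcases le_or_gt R1 n with h1 | h1
      · have h2 := tl_lower hc2 hK2.le ht0 b hs hl hn ((le_max_left R0 1).trans (by
          rw [← hR1]; exact h1))
        refine le_trans ?_ h2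
        apply mul_le_mul _ _ (Real.exp_pos _).le (by positivity)
        · exact mul_le_mul_of_nonneg_right b4 (by positivity)
        · apply Real.exp_le_exp.mpr
          have h3 : 0 ≤ (n : ℝ) * t := by positivity
          have := mul_le_mul_of_nonneg_right a3 h3
          linarith
      · have h2 := tl_lower hc2 hK2.le ht0 b hs hl hR11 (by rw [hR1]; exact le_max_left _ _)
        refine le_trans ?_ (h2.trans (tl_anti hs h1.le))
        have e1 : c * (n:ℝ) ^ (-(1/2) : ℝ) * Real.exp (-(C * n * t)) ≤ c := by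
          have g1 : (n:ℝ) ^ (-(1/2) : ℝ) ≤ 1 := by
            apply Real.rpow_le_one_of_one_le_of_nonpos
            · exact_mod_cast hn
            · norm_num
          have g2 : Real.exp (-(C * n * t)) ≤ 1 := by
            rw [Real.exp_le_one_iff]
            have : 0 ≤ C * n * t := by
              have : 0 ≤ C := by linarith
              positivity
            linarith
          calc c * (n:ℝ) ^ (-(1/2) : ℝ) * Real.exp (-(C * n * t)) ≤ c * 1 * 1 := by
                apply mul_le_mul _ g2 (Real.exp_pos _).le (by positivity)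
                exact mul_le_mul_of_nonneg_left g1 hc0.le
            _ = c := by ring
        refine e1.trans (b2.trans ?_)
        rw [hc3]
        apply mul_le_mul_of_nonneg_left _ (by positivity)
        apply Real.exp_le_exp.mpr
        have h3 : (R1:ℝ) * t ≤ R1 * 1 := mul_le_mul_of_nonneg_left ht1 hR10.le
        have := mul_le_mul_of_nonneg_left h3 (show 0 ≤ 2 * K2 by positivity)
        linarith
    · have hu : ∀ f : Edg, 1 ≤ rho f → jp p (e0 b) f ≤ C1 * (rho f : ℝ) ^ (-(5/2) : ℝ) *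
          Real.exp (-(k1 * (rho f * t))) := by
        intro f hf
        have h2 := (hin p (hp.le.trans d1)).2 (e0 b) f (by rw [de_e0]; exact hf)
        rw [de_e0, ← ht] at h2
        exact h2
      refine (tl_upper hC1 hk1.le ht0 b hu hn).trans ?_
      apply mul_le_mul _ _ (Real.exp_pos _).le (by
        have : 0 ≤ C := by linarith
        positivity)
      · exact mul_le_mul_of_nonneg_right a2 (by positivity)
      · apply Real.exp_le_exp.mpr
        have h3 : 0 ≤ (n : ℝ) * t := by positivity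
        have := mul_le_mul_of_nonneg_right b3 h3
        linarith

end Pool.Agent.W2helper75.EC
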