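import Pool.Agent.W2helper75.EC.Inv
import Pool.Agent.H12R2.Sep.LocP

/-!
Upper bounds: the four-arm probability near the critical point at all scales, and joint
pivotality.
-/

set_option autoImplicit false
set_option maxHeartbeats 1000000

namespace Pool.Agent.W2helper75.EC

open H974 H12S H31K Finset MeasureTheory Filter Topology
open Pool.Agent.W92.DP Pool.Agent.W2helper77.TP

/-! ### four arms beyond the window -/

theorem circ_local' {R1 R2 : ℤ} (h0 : 0 ≤ R1) (h1 : R1 ≤ R2) {n : ℕ} (hn : (n:ℤ) < R1)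
    {S : Finset Edg} (hS : RE (-R2) R2 (-R2) R2 ⊆ S) (F : Finset Edg) :
    Circ R1 R2 F ↔ Circ R1 R2 (F ∩ (S \ boxE n)) := by
  have s1 : LRE (-R2) R2 R1 R2 ⊆ S :=
    LRE_subset_RE.trans ((RE_subset le_rfl le_rfl (by omega) le_rfl).trans hS)
  have s2 : LRE (-R2) R2 (-R2) (-R1) ⊆ S :=
    LRE_subset_RE.trans ((RE_subset le_rfl le_rfl le_rfl (by omega)).trans hS)
  have s3 : TBE R1 R2 (-R2) R2 ⊆ S :=
    TBE_subset_RE.trans ((RE_subset (by omega) le_rfl le_rfl le_rfl).trans hS)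
  have s4 : TBE (-R2) (-R1) (-R2) R2 ⊆ S :=
    TBE_subset_RE.trans ((RE_subset le_rfl (by omega) le_rfl le_rfl).trans hS)
  have key : ∀ {a b c d : ℤ}, ((n:ℤ) < a ∨ b < -(n:ℤ) ∨ (n:ℤ) < c ∨ d < -(n:ℤ)) →
      Disjoint (RE a b c d) (boxE n) := by
    intro a b c d h
    rw [Finset.disjoint_left]
    unfold boxE
    rintro ⟨x, y, _ | _⟩ k1 k2
    · rw [mem_RE_false] at k1 k2; omega
    · rw [mem_RE_true] at k1 k2; omega
  have t1 : LRE (-R2) R2 R1 R2 ⊆ S \ boxE n := by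
    intro e he
    exact Finset.mem_sdiff.2 ⟨s1 he, Finset.disjoint_left.1 (key (by omega)) (LRE_subset_RE he)⟩
  have t2 : LRE (-R2) R2 (-R2) (-R1) ⊆ S \ boxE n := by
    intro e he
    exact Finset.mem_sdiff.2 ⟨s2 he, Finset.disjoint_left.1 (key (by omega)) (LRE_subset_RE he)⟩
  have t3 : TBE R1 R2 (-R2) R2 ⊆ S \ boxE n := by
    intro e he
    exact Finset.mem_sdiff.2 ⟨s3 he, Finset.disjoint_left.1 (key (by omega)) (TBE_subset_RE he)⟩
  have t4 : TBE (-R2) (-R1) (-R2) R2 ⊆ S \ boxE n := by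
    intro e he
    exact Finset.mem_sdiff.2 ⟨s4 he, Finset.disjoint_left.1 (key (by omega)) (TBE_subset_RE he)⟩
  unfold Circ
  rw [LRc_local (F := F) t1, LRc_local (F := F) t2, TBc_local (F := F) t3,
    TBc_local (F := F) t4]

theorem e0_box {m : ℕ} (hm : 1 ≤ m) (b : Bool) : e0 b ∈ boxE m := by
  unfold e0 boxE
  cases b
  · rw [mem_RE_false]; omega
  · rw [mem_RE_true]; omega

theorem A4_not_circ {r m M : ℕ} (hm : 1 ≤ m) (hmM : m < M) (hM : 2 * M ≤ r) {b : Bool}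
    {F : Finset Edg} (hA : A4 (-(r:ℤ)) r (-r) r (e0 b) (↑F : Set Edg)) :
    ¬ Circ (M:ℤ) ((2 * M : ℕ) : ℤ) F := by
  intro hC
  have h0 : (0:ℤ) ≤ M := by positivity
  have h1 : (M:ℤ) < ((2 * M : ℕ) : ℤ) := by push_cast; omega
  have hr : ((2 * M : ℕ) : ℤ) ≤ r := by exact_mod_cast hM
  have he : e0 b ∈ boxE m := e0_box hm b
  have hC' : Circ (M:ℤ) ((2 * M : ℕ) : ℤ) (F.erase (e0 b)) := by
    rw [circ_local' (n := m) h0 h1.le (by exact_mod_cast hmM)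
      (Finset.Subset.refl (RE (-((2 * M : ℕ) : ℤ)) ((2 * M : ℕ) : ℤ) (-((2 * M : ℕ) : ℤ))
        ((2 * M : ℕ) : ℤ)))] at hC
    refine hC.mono ?_
    intro x hx
    rw [Finset.mem_inter, Finset.mem_sdiff] at hx
    rw [Finset.mem_erase]
    refine ⟨?_, hx.1⟩
    rintro rfl
    exact hx.2.2 he
  obtain ⟨z, hz⟩ := circ_meet h0 h1 hC'
  obtain ⟨⟨w, hw, k1⟩, ⟨w', hw', k2⟩, k3⟩ := hA
  have hsub : ((((↑F : Set Edg) ∩ ↑(RE (-(r:ℤ)) r (-r) r)) \ {e0 b}) ∩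
      ↑(RE (-((2 * M : ℕ) : ℤ)) ((2 * M : ℕ) : ℤ) (-((2 * M : ℕ) : ℤ)) ((2 * M : ℕ) : ℤ))) ⊆
      (↑(F.erase (e0 b)) : Set Edg) ∩
      ↑(RE (-((2 * M : ℕ) : ℤ)) ((2 * M : ℕ) : ℤ) (-((2 * M : ℕ) : ℤ)) ((2 * M : ℕ) : ℤ)) := by
    rintro x ⟨⟨⟨g1, g2⟩, g3⟩, g4⟩
    refine ⟨?_, g4⟩
    rw [Finset.mem_coe, Finset.mem_erase]
    exact ⟨g3, g1⟩
  have hs : inR (-((2 * M : ℕ) : ℤ)) ((2 * M : ℕ) : ℤ) (-((2 * M : ℕ) : ℤ)) ((2 * M : ℕ) : ℤ)
      (src (e0 b)) ∧ inR (-(M:ℤ)) M (-M) M (src (e0 b)) := by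
    unfold inR e0
    simp only [src_mk]
    push_cast
    omega
  have ht : inR (-((2 * M : ℕ) : ℤ)) ((2 * M : ℕ) : ℤ) (-((2 * M : ℕ) : ℤ)) ((2 * M : ℕ) : ℤ)
      (tgt (e0 b)) ∧ inR (-(M:ℤ)) M (-M) M (tgt (e0 b)) := by
    unfold inR e0
    cases b
    · simp only [tgt_false]; push_cast; omega
    · simp only [tgt_true]; push_cast; omega
  have hw2 := hw.2
  have hw2' := hw'.2
  obtain ⟨v, l1, l2, l3⟩ := first_exit hs.1 k1 (by omega)
  obtain ⟨v', l1', l2', l3'⟩ := first_exit ht.1 k2 (by omega)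
  have m1 := hz _ v hs.2 l2 (l3.mono hsub)
  have m2 := hz _ v' ht.2 l2' (l3'.mono hsub)
  apply k3
  refine (m1.trans m2.symm).mono ?_
  rintro x ⟨g1, g2⟩
  rw [Finset.mem_coe, Finset.mem_erase] at g1
  refine ⟨⟨g1.2, ?_⟩, g1.1⟩
  exact (Finset.mem_coe.2 (RE_subset (by omega) (by omega) (by omega) (by omega)
    (Finset.mem_coe.1 g2)))

theorem A4_not_blk {r M : ℕ} (hM2 : 2 ≤ M) (hM : 2 * M ≤ r) {b : Bool}
    {F : Finset Edg} (hA : A4 (-(r:ℤ)) r (-r) r (e0 b) (↑F : Set Edg)) :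
    ¬ Blk ((M:ℤ) - 1) (2 * (M:ℤ) - 1) F := by
  obtain ⟨⟨w, hw, k1⟩, -, -⟩ := hA
  have hw2 := hw.2
  refine not_blk_of_arm (v := w) (by omega) (by omega) (k1.mono (fun x hx => hx.1.1)) ?_
  omega

theorem a4_far_super {q : ℝ} (h0 : 0 ≤ q) (h1 : q ≤ 1) {N : ℕ} (hN : 2 ≤ N)
    (he : eps q N ≤ 1/100) (J : ℕ) {r m : ℕ} (hm : 1 ≤ m) (hmM : m < 2 ^ J * N)
    (hr : 2 * (2 ^ J * N) ≤ r) (b : Bool) : a4b q r b ≤ a4b q m b * (1/4) ^ (2 ^ J) := by
  have ok := okq h0 h1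
  obtain ⟨M, hM⟩ : ∃ M : ℕ, M = 2 ^ J * N := ⟨_, rfl⟩
  rw [← hM] at hmM hr
  have hM2 : 2 ≤ M := by
    rw [hM]; exact le_trans hN (Nat.le_mul_of_pos_left _ (by positivity))
  have hS : boxE (2 * M) ⊆ boxE r := boxE_mono hr
  have hbm : boxE m ⊆ boxE r := boxE_mono (by omega)
  have hR : RE (-((2 * M : ℕ) : ℤ)) ((2 * M : ℕ) : ℤ) (-((2 * M : ℕ) : ℤ))
      ((2 * M : ℕ) : ℤ) ⊆ boxE r := hS
  have g1 : a4b q r b ≤ PQ q (boxE r) (fun F =>
      A4 (-(m:ℤ)) m (-m) m (e0 b) (↑F : Set Edg) ∧ ¬ Circ (M:ℤ) ((2 * M : ℕ) : ℤ) F) := by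
    apply Pr_mono ok
    intro F _ hF
    exact ⟨A4_sub (by omega) (by omega) (by omega) (by omega) (e0_box hm b) hF,
      A4_not_circ hm hmM hr hF⟩
  have g2 : PQ q (boxE r) (fun F =>
      A4 (-(m:ℤ)) m (-m) m (e0 b) (↑F : Set Edg) ∧ ¬ Circ (M:ℤ) ((2 * M : ℕ) : ℤ) F) =
      PQ q (boxE r) (fun F => A4 (-(m:ℤ)) m (-m) m (e0 b) (↑F : Set Edg)) *
      PQ q (boxE r) (fun F => ¬ Circ (M:ℤ) ((2 * M : ℕ) : ℤ) F) := by
    refine Pr_indep (A := fun F => A4 (-(m:ℤ)) m (-m) m (e0 b) (↑F : Set Edg))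
      (B := fun F => ¬ Circ (M:ℤ) ((2 * M : ℕ) : ℤ) F) hbm
      (Finset.sdiff_subset (s := boxE r) (t := boxE m)) Finset.disjoint_sdiff
      (fun F _ => A4_inter (Finset.Subset.refl _)) ?_
    intro F _
    exact not_congr (circ_local' (by positivity) (by push_cast; omega) (by exact_mod_cast hmM)
      hR F)
  have g3 : PQ q (boxE r) (fun F => A4 (-(m:ℤ)) m (-m) m (e0 b) (↑F : Set Edg)) = a4b q m b :=
    Pr_local (S' := boxE m) hbm (fun F _ => A4_inter (Finset.Subset.refl _))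
  have g4 : PQ q (boxE r) (fun F => ¬ Circ (M:ℤ) ((2 * M : ℕ) : ℤ) F) ≤ (1/4) ^ (2 ^ J) := by
    have i1 := pr_circ_ge h0 h1 hM2 (S := boxE r) hS
    have h3 := eps_pow3 h0 h1 hN he J 0
    simp only [pow_zero, mul_one, one_mul] at h3
    rw [← hM] at h3
    unfold PQ
    rw [Pr_not]
    have h5 : (0:ℝ) < (1/4) ^ (2 ^ J) := by positivity
    linarith
  rw [g2, g3] at g1
  exact g1.trans (mul_le_mul_of_nonneg_left g4 (a4b_nonneg h0 h1 _ _))

theorem a4_far_sub {q : ℝ} (h0 : 0 ≤ q) (h1 : q ≤ 1) {N : ℕ} (hN : 2 ≤ N)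
    (he : eps (1 - q) N ≤ 1/100) (J : ℕ) {r m : ℕ} (hm : 1 ≤ m) (hmM : m < 2 ^ J * N)
    (hr : 2 * (2 ^ J * N) ≤ r) (b : Bool) : a4b q r b ≤ a4b q m b * (1/4) ^ (2 ^ J) := by
  have ok := okq h0 h1
  obtain ⟨M, hM⟩ : ∃ M : ℕ, M = 2 ^ J * N := ⟨_, rfl⟩
  rw [← hM] at hmM hr
  have hM2 : 2 ≤ M := by
    rw [hM]; exact le_trans hN (Nat.le_mul_of_pos_left _ (by positivity))
  have hbm : boxE m ⊆ boxE r := boxE_mono (by omega)
  have hR : RE (-(2 * (M:ℤ) - 1)) (2 * (M:ℤ) - 1) (-(2 * (M:ℤ) - 1)) (2 * (M:ℤ) - 1) ⊆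
      boxE r := by
    unfold boxE
    apply RE_subset <;> omega
  have g1 : a4b q r b ≤ PQ q (boxE r) (fun F =>
      A4 (-(m:ℤ)) m (-m) m (e0 b) (↑F : Set Edg) ∧ ¬ Blk ((M:ℤ) - 1) (2 * (M:ℤ) - 1) F) := by
    apply Pr_mono ok
    intro F _ hF
    exact ⟨A4_sub (by omega) (by omega) (by omega) (by omega) (e0_box hm b) hF,
      A4_not_blk hM2 hr hF⟩
  have g2 : PQ q (boxE r) (fun F =>
      A4 (-(m:ℤ)) m (-m) m (e0 b) (↑F : Set Edg) ∧ ¬ Blk ((M:ℤ) - 1) (2 * (M:ℤ) - 1) F) =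
      PQ q (boxE r) (fun F => A4 (-(m:ℤ)) m (-m) m (e0 b) (↑F : Set Edg)) *
      PQ q (boxE r) (fun F => ¬ Blk ((M:ℤ) - 1) (2 * (M:ℤ) - 1) F) := by
    refine Pr_indep (A := fun F => A4 (-(m:ℤ)) m (-m) m (e0 b) (↑F : Set Edg))
      (B := fun F => ¬ Blk ((M:ℤ) - 1) (2 * (M:ℤ) - 1) F) hbm
      (Finset.sdiff_subset (s := boxE r) (t := boxE m)) Finset.disjoint_sdiff
      (fun F _ => A4_inter (Finset.Subset.refl _)) ?_
    intro F _
    exact not_congr (blk_local' (by omega) (by omega) (by omega) hR F)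
  have g3 : PQ q (boxE r) (fun F => A4 (-(m:ℤ)) m (-m) m (e0 b) (↑F : Set Edg)) = a4b q m b :=
    Pr_local (S' := boxE m) hbm (fun F _ => A4_inter (Finset.Subset.refl _))
  have g4 : PQ q (boxE r) (fun F => ¬ Blk ((M:ℤ) - 1) (2 * (M:ℤ) - 1) F) ≤ (1/4) ^ (2 ^ J) :=
    pr_not_Blk2 h0 h1 hN he J hM hR
  rw [g2, g3] at g1
  exact g1.trans (mul_le_mul_of_nonneg_left g4 (a4b_nonneg h0 h1 _ _))

theorem rpow45 {C x : ℝ} (hC : 0 ≤ C) (hx : 0 < x) :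
    (C * x ^ (-(5/4) : ℝ)) ^ (4/5 : ℝ) = C ^ (4/5 : ℝ) * x ^ (-(1:ℝ)) := by
  rw [Real.mul_rpow hC (by positivity), ← Real.rpow_mul hx.le]
  norm_num

/-- **The four-arm probability near the critical point, at all scales.** -/
theorem a4_glob : ∃ δ C k : ℝ, 0 < δ ∧ 0 < C ∧ 0 < k ∧ δ ≤ 1/4 ∧ ∀ q : ℝ, |q - 1/2| ≤ δ →
    ∀ (m : ℕ) (b : Bool), 1 ≤ m →
      a4b q m b ≤ C * (m:ℝ) ^ (-(5/4) : ℝ) * Real.exp (-(k * (m * |q - 1/2| ^ (4/3 : ℝ)))) := by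
  obtain ⟨κ, b0, c0, C0, hκ, hb, hc0, hC0, hn⟩ := Pool.Agent.W424.NC.nearS
  obtain ⟨E, hE1, hfar⟩ := Pool.Agent.W424.NC.farS
  obtain ⟨B, hB⟩ : ∃ B : ℝ, B = b0 ^ (4/3 : ℝ) := ⟨_, rfl⟩
  have hB0 : 0 < B := by rw [hB]; positivity
  obtain ⟨β, hβ⟩ : ∃ β : ℝ, β = min (B/2) 1 := ⟨_, rfl⟩
  have hβ0 : 0 < β := by rw [hβ]; exact lt_min (by positivity) one_pos
  have hβ1 : β ≤ 1 := by rw [hβ]; exact min_le_right _ _
  have hβB : β ≤ B/2 := by rw [hβ]; exact min_le_left _ _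
  obtain ⟨E', hE'⟩ : ∃ E' : ℝ, E' = 2 * (E + B + 3) := ⟨_, rfl⟩
  obtain ⟨A1, hA1⟩ : ∃ A1 : ℝ, A1 = C0 ^ (4/5 : ℝ) + 1 := ⟨_, rfl⟩
  have hA1' : 1 ≤ A1 := by
    have : 0 ≤ C0 ^ (4/5 : ℝ) := by positivity
    rw [hA1]; linarith
  have hCA : C0 ^ (4/5 : ℝ) ≤ A1 := by rw [hA1]; linarith
  obtain ⟨C3, k3, hC3, hk3, hup⟩ := abs_up (A := A1) (a := 1) (β := β) (E := E') hA1'
    (by norm_num) (by norm_num) hβ0 hβ1 (by rw [hE']; linarith)
  refine ⟨min (b0/8) (1/4), C3 ^ (5/4 : ℝ) + C0, 5/4 * k3, lt_min (by positivity) (by norm_num),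
    by positivity, by positivity, min_le_right _ _, ?_⟩
  intro q hq r b hr
  obtain ⟨s, hs⟩ : ∃ s : ℝ, s = |q - 1/2| := ⟨_, rfl⟩
  rw [← hs] at hq ⊢
  have hsb : s ≤ b0/8 := hq.trans (min_le_left _ _)
  have hs4 : s ≤ 1/4 := hq.trans (min_le_right _ _)
  have hs0 : 0 ≤ s := by rw [hs]; exact abs_nonneg _
  have hq01 : 0 ≤ q ∧ q ≤ 1 := by
    rw [hs, abs_le] at hs4
    constructor <;> linarith [hs4.1, hs4.2]
  have h0 := hq01.1
  have h1 := hq01.2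
  have hr0 : (0:ℝ) < r := by exact_mod_cast hr
  have hC3' : 0 ≤ C3 ^ (5/4 : ℝ) := by positivity
  rcases eq_or_lt_of_le hs0 with hsz | hsp
  · have hz : s ^ (4/3 : ℝ) = 0 := by rw [← hsz]; exact Real.zero_rpow (by norm_num)
    rw [hz]
    simp only [mul_zero, neg_zero, Real.exp_zero, mul_one]
    have h2 := ((hn r hr q (by rw [← hs, ← hsz]; positivity)).2 r hr le_rfl).2
    refine (a4b_le h0 h1 r b).trans (h2.trans ?_)
    apply mul_le_mul_of_nonneg_right _ (by positivity)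
    linarith
  · obtain ⟨n, hn8, hwn, hnup, hnlow⟩ := scale hb hsp (by linarith)
    rw [← hB] at hnup hnlow
    obtain ⟨Λ, hΛ⟩ : ∃ Λ : ℝ, Λ = s ^ (-(4/3) : ℝ) := ⟨_, rfl⟩
    rw [← hΛ] at hnup hnlow
    have hΛ0 : 0 < Λ := by rw [hΛ]; positivity
    have hΛ1 : 1 ≤ Λ := by
      rw [hΛ]
      exact Real.one_le_rpow_of_pos_of_le_one_of_nonpos hsp (by linarith) (by norm_num)
    have hinv : (r:ℝ) * s ^ (4/3 : ℝ) = (r:ℝ)/Λ := by
      rw [hΛ, Real.rpow_neg hsp.le, div_inv_eq_mul]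
    have hW := hn n (by omega) q (by rw [← hs]; exact hwn)
    have hn0 : (0:ℝ) < n := by exact_mod_cast (by omega : 0 < n)
    have hβn : β * Λ ≤ n := by
      have := mul_le_mul_of_nonneg_right hβB hΛ0.le
      linarith
    obtain ⟨N, hN⟩ : ∃ N : ℕ, N = ⌈E * Λ⌉₊ + n + 2 := ⟨_, rfl⟩
    have hNE : E * Λ ≤ N := by
      have h2 := Nat.le_ceil (E * Λ)
      rw [hN]
      push_cast
      linarith
    have hNup : ((2 * N : ℕ):ℝ) ≤ E' * Λ := by
      have h2 := Nat.ceil_lt_add_one (show 0 ≤ E * Λ by positivity)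
      rw [hN, hE']
      push_cast
      nlinarith
    have hN2 : 2 ≤ N := by omega
    have hcase : eps q N ≤ 1/100 ∨ eps (1 - q) N ≤ 1/100 := by
      rcases lt_trichotomy q (1/2) with h | h | h
      · right
        apply hfar _ (by linarith) (by linarith)
        have e : 1 - q - 1/2 = s := by rw [hs, abs_of_neg (by linarith)]; ring
        rw [e, ← hΛ]
        exact hNE
      · exfalso
        rw [hs, h] at hsp
        simp at hsp
      · left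
        apply hfar _ h h1
        have e : q - 1/2 = s := by rw [hs, abs_of_pos (by linarith)]
        rw [e, ← hΛ]
        exact hNE
    have hT0 := a4b_nonneg h0 h1 r b
    have h3 := hup Λ n (2 * N) r ((a4b q r b) ^ (4/5 : ℝ)) hΛ1 hβn (by omega) (by omega) hNup hr
      (Real.rpow_le_one hT0 (a4b_le_one h0 h1 r b) (by norm_num)) (by
        intro m hm hmn hmr
        have h5 := (hW.2 m hm hmn).2
        have h6 := (a4b_anti h0 h1 hm (show m ≤ r by omega) b).trans ((a4b_le h0 h1 m b).trans h5)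
        have hm0 : (0:ℝ) < m := by exact_mod_cast hm
        refine (Real.rpow_le_rpow hT0 h6 (by norm_num)).trans ?_
        rw [rpow45 hC0.le hm0]
        exact mul_le_mul_of_nonneg_right hCA (by positivity)) (by
        intro J hJ
        have h5 := (hW.2 n (by omega) le_rfl).2
        have e1 : 2 ^ (J + 1) * N = 2 ^ J * (2 * N) := by ring
        have hle : N ≤ 2 ^ (J + 1) * N := Nat.le_mul_of_pos_left _ (by positivity)
        have h7 : a4b q r b ≤ a4b q n b * (1/4) ^ (2 ^ (J + 1)) := by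
          rcases hcase with hc | hc
          · exact a4_far_super h0 h1 hN2 hc (J + 1) (by omega) (by omega) (by omega) b
          · exact a4_far_sub h0 h1 hN2 hc (J + 1) (by omega) (by omega) (by omega) b
        have h8 : a4b q r b ≤ (C0 * (n:ℝ) ^ (-(5/4) : ℝ)) * (1/4) ^ (2 ^ (J + 1)) :=
          h7.trans (mul_le_mul_of_nonneg_right ((a4b_le h0 h1 n b).trans h5) (by positivity))
        refine (Real.rpow_le_rpow hT0 h8 (by norm_num)).trans ?_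
        rw [Real.mul_rpow (by positivity) (by positivity), rpow45 hC0.le hn0]
        have h9 : (((1:ℝ)/4) ^ (2 ^ (J + 1))) ^ (4/5 : ℝ) ≤ (1/4) ^ (2 ^ J) := by
          rw [← Real.rpow_natCast, ← Real.rpow_mul (by norm_num), ← Real.rpow_natCast]
          apply Real.rpow_le_rpow_of_exponent_ge (by norm_num) (by norm_num)
          push_cast
          rw [pow_succ]
          have : (0:ℝ) < 2 ^ J := by positivity
          nlinarith
        apply mul_le_mul _ h9 (by positivity) (by positivity)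
        exact mul_le_mul_of_nonneg_right hCA (by positivity))
    have h4 := Real.rpow_le_rpow (by positivity) h3 (by norm_num : (0:ℝ) ≤ 5/4)
    rw [← Real.rpow_mul hT0] at h4
    have e1 : (4/5 : ℝ) * (5/4) = 1 := by norm_num
    rw [e1, Real.rpow_one] at h4
    refine h4.trans ?_
    rw [Real.mul_rpow (by positivity) (Real.exp_pos _).le, Real.mul_rpow hC3.le (by positivity),
      ← Real.rpow_mul hr0.le, ← Real.exp_mul, hinv]
    have e2 : (-(1:ℝ)) * (5/4) = -(5/4) := by norm_num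
    have e3 : -(k3 * ((r:ℝ)/Λ)) * (5/4) = -(5/4 * k3 * ((r:ℝ)/Λ)) := by ring
    rw [e2, e3]
    apply mul_le_mul_of_nonneg_right _ (Real.exp_pos _).le
    apply mul_le_mul_of_nonneg_right _ (by positivity)
    linarith

/-! ### joint pivotality -/

theorem JP_A4e {e g : Edg} (hne : e ≠ g) {k : ℕ} (hk : 1 ≤ k) (hg : g ∉ ebx e k)
    (hs : ¬ (e.1 - k < (src g).1 ∧ (src g).1 < e.1 + k ∧ e.2.1 - k < (src g).2 ∧
      (src g).2 < e.2.1 + k))
    (ht : ¬ (e.1 - k < (tgt g).1 ∧ (tgt g).1 < e.1 + k ∧ e.2.1 - k < (tgt g).2 ∧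
      (tgt g).2 < e.2.1 + k)) {F : Set Edg} (h : JP e g F) : A4e k e F := by
  rw [JP_comm hne] at h
  obtain ⟨h1, h2⟩ := h
  have h3 : Pv {src g} {tgt g} e (F \ {g}) := by
    refine ⟨⟨_, rfl, _, rfl, h1.mono ?_⟩, ?_⟩
    · rintro x ⟨k1 | k1, k2⟩
      · exact Or.inl k1
      · exact Or.inr ⟨k1, k2⟩
    · rintro ⟨u, hu, v, hv, k⟩
      rw [Set.mem_singleton_iff] at hu hv
      rw [hu, hv] at k
      apply h2
      refine k.mono ?_
      rintro x ⟨⟨k1, k2⟩, k3⟩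
      refine ⟨k1, ?_⟩
      rintro (k4 | k4)
      · exact k2 k4
      · exact k3 k4
  have h4 : A4e k e (F \ {g}) := by
    unfold A4e
    refine loc_a4 (mem_ebx hk) ?_ h3
    rintro v (hv | hv)
    · rw [Set.mem_singleton_iff] at hv; rw [hv]; exact hs
    · rw [Set.mem_singleton_iff] at hv; rw [hv]; exact ht
  refine (A4e_local ?_).mp h4
  ext x
  constructor
  · rintro ⟨⟨k1, _⟩, k3⟩
    exact ⟨k1, k3⟩
  · rintro ⟨k1, k3⟩
    refine ⟨⟨k1, ?_⟩, k3⟩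
    rintro rfl
    exact hg (Finset.mem_coe.1 k3)

theorem JP_A4e' {e g : Edg} {k : ℕ} (hk : 1 ≤ k) (hd : k + 1 ≤ de e g) {F : Set Edg}
    (h : JP e g F) : A4e k e F := by
  have hne : e ≠ g := by
    rintro rfl
    unfold de at hd
    simp at hd
  have hd' : k + 1 ≤ (e.1 - g.1).natAbs ∨ k + 1 ≤ (e.2.1 - g.2.1).natAbs := by
    unfold de at hd
    exact le_max_iff.1 hd
  obtain ⟨x, y, b⟩ := e
  obtain ⟨x', y', b'⟩ := g
  simp only at hd'
  refine JP_A4e hne hk ?_ ?_ ?_ h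
  · unfold ebx
    cases b'
    · rw [mem_RE_false]; simp only; omega
    · rw [mem_RE_true]; simp only; omega
  · simp only [src_mk]; omega
  · cases b'
    · simp only [tgt_false]; omega
    · simp only [tgt_true]; omega

/-- A set which contains the boxes around two edges. -/
theorem jp_le_a4 (p : unitInterval) {e g : Edg} {k : ℕ} (hk : 1 ≤ k) (hd : 2 * k + 2 ≤ de e g) :
    jp p e g ≤ a4 p k ^ 2 := by
  have h0 := p.2.1
  have h1 := p.2.2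
  have ok := okq h0 h1
  obtain ⟨S, hS⟩ : ∃ S : Finset Edg, S = ebx e k ∪ ebx g k := ⟨_, rfl⟩
  have hd' : 2 * k + 2 ≤ (e.1 - g.1).natAbs ∨ 2 * k + 2 ≤ (e.2.1 - g.2.1).natAbs := by
    unfold de at hd
    exact le_max_iff.1 hd
  have hdis : Disjoint (ebx e k) (ebx g k) := by
    rw [Finset.disjoint_left]
    unfold ebx
    rintro ⟨x, y, _ | _⟩ g1 g2
    · rw [mem_RE_false] at g1 g2; omega
    · rw [mem_RE_true] at g1 g2; omega
  have g1 : jp p e g ≤ PQ p S (fun F => A4e k e ↑F ∧ A4e k g ↑F) := by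
    unfold jp PQ
    rw [← law_event p S]
    refine measureReal_mono ?_
    intro ω hω
    have k1 := JP_A4e' hk (by omega) hω
    have hne : e ≠ g := by
      rintro rfl
      unfold de at hd
      simp at hd
    have k2 := JP_A4e' (e := g) (g := e) hk (by rw [de_comm]; omega) ((JP_comm hne).1 hω)
    constructor
    · refine (A4e_local ?_).1 k1
      rw [FF_coe, Set.inter_assoc]
      congr 1
      rw [eq_comm, Set.inter_eq_right, hS]
      exact_mod_cast Finset.subset_union_left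
    · refine (A4e_local ?_).1 k2
      rw [FF_coe, Set.inter_assoc]
      congr 1
      rw [eq_comm, Set.inter_eq_right, hS]
      exact_mod_cast Finset.subset_union_right
  have s1 : ebx e k ⊆ S := by rw [hS]; exact Finset.subset_union_left
  have s2 : ebx g k ⊆ S := by rw [hS]; exact Finset.subset_union_right
  have g2 : PQ p S (fun F => A4e k e ↑F ∧ A4e k g ↑F) ≤ a4 p k * PQ p S (fun F => A4e k g ↑F) := by
    refine pr_A4e_and h0 h1 s1 s2 hdis (B := fun F => A4e k g ↑F) ?_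
    intro F _
    apply A4e_local
    rw [Finset.coe_inter, Set.inter_assoc, Set.inter_self]
  have g3 := pr_A4e h0 h1 s2
  rw [pow_two]
  exact g1.trans (g2.trans (mul_le_mul_of_nonneg_left g3 (a4_nonneg h0 h1 k)))

/-- **Upper bound** for the joint pivotality. -/
theorem jp_upper : ∃ δ C k : ℝ, 0 < δ ∧ 0 < C ∧ 0 < k ∧ δ ≤ 1/4 ∧ ∀ p : unitInterval,
    |(p:ℝ) - 1/2| ≤ δ → ∀ e g : Edg, 1 ≤ de e g →
    jp p e g ≤ C * (de e g : ℝ) ^ (-(5/2) : ℝ) *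
      Real.exp (-(k * (de e g * |(p:ℝ) - 1/2| ^ (4/3 : ℝ)))) := by
  obtain ⟨δ, C, k, hδ, hC, hk, hδ4, h⟩ := a4_glob
  obtain ⟨D, hD⟩ : ∃ D : ℝ, D = (2 * C) ^ 2 * (8:ℝ) ^ (5/2 : ℝ) +
      (4:ℝ) ^ (5/2 : ℝ) * Real.exp k := ⟨_, rfl⟩
  refine ⟨δ, D, k / 4, hδ, by rw [hD]; positivity, by positivity, hδ4, ?_⟩
  intro p hp e g hr
  obtain ⟨r, hrd⟩ : ∃ r : ℕ, r = de e g := ⟨_, rfl⟩
  rw [← hrd] at hr ⊢
  obtain ⟨t, ht⟩ : ∃ t : ℝ, t = |(p:ℝ) - 1/2| ^ (4/3 : ℝ) := ⟨_, rfl⟩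
  rw [← ht]
  have ht0 : 0 ≤ t := by rw [ht]; positivity
  have ht1 : t ≤ 1 := by
    rw [ht]
    exact Real.rpow_le_one (abs_nonneg _) (by linarith) (by norm_num)
  have h0 := p.2.1
  have h1 := p.2.2
  have hr0 : (0:ℝ) < r := by exact_mod_cast hr
  rcases le_or_gt r 3 with h3 | h3
  · have hr3 : (r:ℝ) ≤ 4 := by exact_mod_cast (by omega : r ≤ 4)
    have e1 : (4:ℝ) ^ (-(5/2) : ℝ) ≤ (r:ℝ) ^ (-(5/2) : ℝ) :=
      Real.rpow_le_rpow_of_nonpos hr0 hr3 (by norm_num)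
    have e2 : Real.exp (-k) ≤ Real.exp (-(k / 4 * (r * t))) := by
      apply Real.exp_le_exp.mpr
      have : (r:ℝ) * t ≤ 4 * 1 := mul_le_mul hr3 ht1 ht0 (by norm_num)
      nlinarith
    have e3 : (4:ℝ) ^ (5/2 : ℝ) * (4:ℝ) ^ (-(5/2) : ℝ) = 1 := by
      rw [← Real.rpow_add (by norm_num)]
      norm_num
    have e4 : Real.exp k * Real.exp (-k) = 1 := by
      rw [← Real.exp_add]; simp
    have e5 : (1:ℝ) ≤ ((4:ℝ) ^ (5/2 : ℝ) * Real.exp k) * (r:ℝ) ^ (-(5/2) : ℝ) *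
        Real.exp (-(k / 4 * (r * t))) := by
      calc (1:ℝ) = ((4:ℝ) ^ (5/2 : ℝ) * (4:ℝ) ^ (-(5/2) : ℝ)) * (Real.exp k * Real.exp (-k)) := by
            rw [e3, e4, one_mul]
        _ = ((4:ℝ) ^ (5/2 : ℝ) * Real.exp k) * (4:ℝ) ^ (-(5/2) : ℝ) * Real.exp (-k) := by ring
        _ ≤ _ := by
            apply mul_le_mul _ e2 (Real.exp_pos _).le (by positivity)
            exact mul_le_mul_of_nonneg_left e1 (by positivity)
    refine (jp_le_one p e g).trans (e5.trans ?_)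
    apply mul_le_mul_of_nonneg_right _ (Real.exp_pos _).le
    apply mul_le_mul_of_nonneg_right _ (by positivity)
    rw [hD]
    have : 0 ≤ (2 * C) ^ 2 * (8:ℝ) ^ (5/2 : ℝ) := by positivity
    linarith
  · obtain ⟨m, hm⟩ : ∃ m : ℕ, m = r / 2 - 1 := ⟨_, rfl⟩
    have hm1 : 1 ≤ m := by omega
    have hm8 : r ≤ 8 * m := by omega
    have hm0 : (0:ℝ) < m := by exact_mod_cast hm1
    have h5 := jp_le_a4 p (e := e) (g := g) hm1 (by omega)
    have h6 : a4 p m ≤ 2 * (C * (m:ℝ) ^ (-(5/4) : ℝ) * Real.exp (-(k * (m * t)))) := by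
      rw [a4_eq, ht]
      have k1 := h p hp m true hm1
      have k2 := h p hp m false hm1
      linarith
    have h7 : a4 p m ^ 2 ≤ (2 * (C * (m:ℝ) ^ (-(5/4) : ℝ) * Real.exp (-(k * (m * t))))) ^ 2 :=
      pow_le_pow_left₀ (a4_nonneg h0 h1 m) h6 2
    have e1 : (2 * (C * (m:ℝ) ^ (-(5/4) : ℝ) * Real.exp (-(k * (m * t))))) ^ 2 =
        (2 * C) ^ 2 * (m:ℝ) ^ (-(5/2) : ℝ) * Real.exp (-(2 * k * (m * t))) := by
      have g1 : ((m:ℝ) ^ (-(5/4) : ℝ)) ^ 2 = (m:ℝ) ^ (-(5/2) : ℝ) := by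
        rw [← Real.rpow_natCast ((m:ℝ) ^ (-(5/4) : ℝ)), ← Real.rpow_mul hm0.le]
        norm_num
      have g2 : (Real.exp (-(k * (m * t)))) ^ 2 = Real.exp (-(2 * k * (m * t))) := by
        rw [← Real.exp_nat_mul]
        congr 1
        push_cast
        ring
      calc _ = (2 * C) ^ 2 * ((m:ℝ) ^ (-(5/4) : ℝ)) ^ 2 * (Real.exp (-(k * (m * t)))) ^ 2 := by
            ring
        _ = _ := by rw [g1, g2]
    rw [e1] at h7
    have hr8 : (r:ℝ) / 8 ≤ m := by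
      rw [div_le_iff₀ (by norm_num)]
      have : (r:ℝ) ≤ ((8 * m : ℕ) : ℝ) := by exact_mod_cast hm8
      push_cast at this
      linarith
    have e2 : (m:ℝ) ^ (-(5/2) : ℝ) ≤ (8:ℝ) ^ (5/2 : ℝ) * (r:ℝ) ^ (-(5/2) : ℝ) := by
      calc (m:ℝ) ^ (-(5/2) : ℝ) ≤ ((r:ℝ) / 8) ^ (-(5/2) : ℝ) :=
            Real.rpow_le_rpow_of_nonpos (by positivity) hr8 (by norm_num)
        _ = (8:ℝ) ^ (5/2 : ℝ) * (r:ℝ) ^ (-(5/2) : ℝ) := by
            rw [Real.div_rpow hr0.le (by norm_num), Real.rpow_neg (by norm_num : (0:ℝ) ≤ 8)]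
            field_simp
    have e3 : Real.exp (-(2 * k * (m * t))) ≤ Real.exp (-(k / 4 * (r * t))) := by
      apply Real.exp_le_exp.mpr
      have g1 : (r:ℝ) * t ≤ 8 * (m * t) := by nlinarith
      nlinarith
    refine h5.trans (h7.trans ?_)
    calc (2 * C) ^ 2 * (m:ℝ) ^ (-(5/2) : ℝ) * Real.exp (-(2 * k * (m * t)))
        ≤ (2 * C) ^ 2 * ((8:ℝ) ^ (5/2 : ℝ) * (r:ℝ) ^ (-(5/2) : ℝ)) *
          Real.exp (-(k / 4 * (r * t))) := by
          apply mul_le_mul _ e3 (Real.exp_pos _).le (by positivity)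
          exact mul_le_mul_of_nonneg_left e2 (by positivity)
      _ = (2 * C) ^ 2 * (8:ℝ) ^ (5/2 : ℝ) * (r:ℝ) ^ (-(5/2) : ℝ) *
          Real.exp (-(k / 4 * (r * t))) := by ring
      _ ≤ _ := by
          apply mul_le_mul_of_nonneg_right _ (Real.exp_pos _).le
          apply mul_le_mul_of_nonneg_right _ (by positivity)
          rw [hD]
          have : 0 ≤ (4:ℝ) ^ (5/2 : ℝ) * Real.exp k := by positivity
          linarith

end Pool.Agent.W2helper75.EC
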